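import Pool.Agent.Work.MP_f82ddf_nt.DQ.Defs
import Pool.Agent.Work.MP_f82ddf_nt.Core

/-!
# The embedding of a projective variety in a complete intersection of diagonal quadrics
-/

open MvPolynomial Topology
open scoped LinearAlgebra.Projectivization ENNReal

namespace Pool.Agent.Work.MP_f82ddf_nt.DQ

section Emb

/-- A lacunary polynomial with too many zeros vanishes. -/
theorem lac_coeff_zero {L : Type*} [Field L] {h N : ℕ} (c : Fin h → L) (s : Fin (N + 1) → L)
    (hs : Function.Injective s) (hN : 16 ^ (h - 1) < N + 1)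
    (hz : ∀ j, ∑ l, c l * s j ^ 16 ^ (l : ℕ) = 0) : c = 0 := by
  classical
  let P : Polynomial L := ∑ l, Polynomial.C (c l) * Polynomial.X ^ 16 ^ (l : ℕ)
  have hP : P = 0 := by
    refine Polynomial.eq_zero_of_natDegree_lt_card_of_eval_eq_zero P hs ?_ ?_
    · intro j
      simp only [P, Polynomial.eval_finsetSum, Polynomial.eval_mul, Polynomial.eval_C,
        Polynomial.eval_pow, Polynomial.eval_X]
      exact hz j
    · rw [Fintype.card_fin]
      refine lt_of_le_of_lt ?_ hN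
      refine Polynomial.natDegree_sum_le_of_forall_le _ _ fun l _ => ?_
      refine (Polynomial.natDegree_C_mul_X_pow_le _ _).trans ?_
      exact Nat.pow_le_pow_right (by norm_num) (by have := l.2; omega)
  funext l
  have h1 := congrArg (fun p => Polynomial.coeff p (16 ^ (l : ℕ))) hP
  simp only [P, Polynomial.finsetSum_coeff, Polynomial.coeff_C_mul, Polynomial.coeff_X_pow,
    Polynomial.coeff_zero] at h1
  rw [Finset.sum_eq_single l] at h1
  · simpa using h1
  · intro b _ hb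
    have : (16 : ℕ) ^ (l : ℕ) ≠ 16 ^ (b : ℕ) := by
      intro h2
      apply hb
      have := Nat.pow_right_injective (le_refl 2 |>.trans (by norm_num : 2 ≤ 16)) h2
      exact Fin.ext this.symm
    rw [if_neg this, mul_zero]
  · simp

theorem prod_single_pow {L : Type*} [CommRing L] {n : ℕ} (x : Fin (n + 1) → L) (i : Fin (n + 1))
    (d : ℕ) : ∏ l, x l ^ (Finsupp.single i d) l = x i ^ d := by
  classical
  rw [Finset.prod_eq_single i]
  · simp
  · intro b _ hb
    simp [Ne.symm hb]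
  · simp

theorem prod_add_pow {L : Type*} [CommRing L] {n : ℕ} (x : Fin (n + 1) → L)
    (α β : Fin (n + 1) →₀ ℕ) : ∏ l, x l ^ (α + β) l = (∏ l, x l ^ α l) * ∏ l, x l ^ β l := by
  simp [pow_add, Finset.prod_mul_distrib]

theorem lam_smul {R : Type*} [CommRing R] {n h d : ℕ} {β : Fin h → (Fin (n + 1) →₀ ℕ)}
    (hβd : ∀ α : Fin (n + 1) →₀ ℕ, α.degree = d ↔ ∃ l, β l = α) (t : R) (x : Fin (n + 1) → R)
    (a : R) : lam β t (a • x) = a ^ d * lam β t x := by
  unfold lam
  rw [Finset.mul_sum]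
  refine Finset.sum_congr rfl fun l _ => ?_
  have h1 : (β l).degree = d := (hβd _).2 ⟨l, rfl⟩
  have h2 : ∑ i, β l i = d := by
    rw [← h1, Finsupp.degree_eq_sum]
  simp only [Pi.smul_apply, smul_eq_mul, mul_pow, Finset.prod_mul_distrib]
  rw [Finset.prod_pow_eq_pow_sum, h2]
  ring

variable {K : Type} [Field K] {n d h N r : ℕ} {S : Set (MvPolynomial (Fin (n + 1)) K)}
  {β : Fin h → (Fin (n + 1) →₀ ℕ)} {t : Fin (N + 1) → K} {a : Matrix (Fin r) (Fin (N + 1)) K}

theorem lam_ne_zero (hd : 0 < d) (hβ : Function.Injective β)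
    (hβd : ∀ α : Fin (n + 1) →₀ ℕ, α.degree = d ↔ ∃ l, β l = α)
    (ht : Function.Injective t) (hN : 16 ^ (h - 1) < N + 1) {L : Type} [Field L] (σ : K →+* L)
    {x : Fin (n + 1) → L} (hx : x ≠ 0) : (fun j => lam β (σ (t j)) x) ≠ 0 := by
  intro h0
  have h1 : (fun l => ∏ i, x i ^ β l i) = 0 := by
    refine lac_coeff_zero (N := N) _ (fun j => σ (t j)) (σ.injective.comp ht) hN fun j => ?_
    exact congrFun h0 j
  apply hx
  funext i
  obtain ⟨l, hl⟩ := (hβd (Finsupp.single i d)).1 (by simp)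
  have h2 := congrFun h1 l
  simp only [hl, Pi.zero_apply] at h2
  rw [prod_single_pow] at h2
  exact pow_eq_zero_iff hd.ne' |>.1 h2

theorem lam_injective (hd : 0 < d) (hβ : Function.Injective β)
    (hβd : ∀ α : Fin (n + 1) →₀ ℕ, α.degree = d ↔ ∃ l, β l = α)
    (ht : Function.Injective t) (hN : 16 ^ (h - 1) < N + 1) {L : Type} [Field L] (σ : K →+* L)
    {x x' : Fin (n + 1) → L} (hx : x ≠ 0) (hx' : x' ≠ 0) {κ : L} (hκ : κ ≠ 0)
    (h : ∀ j, lam β (σ (t j)) x = κ * lam β (σ (t j)) x') : ∃ κ' : L, κ' ≠ 0 ∧ x = κ' • x' := by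
  have h1 : (fun l => (∏ i, x i ^ β l i) - κ * ∏ i, x' i ^ β l i) = 0 := by
    refine lac_coeff_zero (N := N) _ (fun j => σ (t j)) (σ.injective.comp ht) hN fun j => ?_
    have := h j
    unfold lam at this
    simp only [sub_mul, Finset.sum_sub_distrib]
    rw [this, Finset.mul_sum, sub_eq_zero]
    exact Finset.sum_congr rfl fun l _ => by ring
  have h2 : ∀ α : Fin (n + 1) →₀ ℕ, α.degree = d → ∏ i, x i ^ α i = κ * ∏ i, x' i ^ α i := by
    intro α hα
    obtain ⟨l, rfl⟩ := (hβd α).1 hα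
    have := congrFun h1 l
    simpa [sub_eq_zero] using this
  obtain ⟨i, hi⟩ : ∃ i, x i ≠ 0 := by
    by_contra hcon
    push Not at hcon
    exact hx (funext hcon)
  have h3 := h2 (Finsupp.single i d) (by simp)
  rw [prod_single_pow, prod_single_pow] at h3
  have hi' : x' i ≠ 0 := by
    intro h4
    rw [h4, zero_pow hd.ne', mul_zero] at h3
    exact hi (pow_eq_zero_iff hd.ne' |>.1 h3)
  refine ⟨κ * (x' i / x i) ^ (d - 1), mul_ne_zero hκ (pow_ne_zero _ (div_ne_zero hi' hi)), ?_⟩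
  funext j
  have h4 := h2 (Finsupp.single i (d - 1) + Finsupp.single j 1) (by
    rw [map_add, Finsupp.degree_single, Finsupp.degree_single]
    omega)
  rw [prod_add_pow, prod_add_pow, prod_single_pow, prod_single_pow, prod_single_pow,
    prod_single_pow, pow_one, pow_one] at h4
  rw [Pi.smul_apply, smul_eq_mul, div_pow]
  have h5 : x i ^ (d - 1) ≠ 0 := pow_ne_zero _ hi
  field_simp
  linear_combination h4

/-- The embedding on points. -/
noncomputable def emb (β : Fin h → (Fin (n + 1) →₀ ℕ)) {L : Type} [Field L]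
    (s : Fin (N + 1) → L) (hs : ∀ x : Fin (n + 1) → L, x ≠ 0 → (fun j => lam β (s j) x) ≠ 0)
    (p : PSpace L n) : PSpace L N :=
  Projectivization.mk L (fun j => lam β (s j) p.rep) (hs _ p.rep_nonzero)

theorem emb_mk (hβd : ∀ α : Fin (n + 1) →₀ ℕ, α.degree = d ↔ ∃ l, β l = α) {L : Type} [Field L]
    (s : Fin (N + 1) → L) (hs : ∀ x : Fin (n + 1) → L, x ≠ 0 → (fun j => lam β (s j) x) ≠ 0)
    (v : Fin (n + 1) → L) (hv : v ≠ 0) :
    emb β s hs (Projectivization.mk L v hv) =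
      Projectivization.mk L (fun j => lam β (s j) v) (hs v hv) := by
  obtain ⟨a, ha⟩ := Projectivization.exists_smul_eq_mk_rep L v hv
  unfold emb
  rw [Projectivization.mk_eq_mk_iff]
  refine ⟨a ^ d, ?_⟩
  funext j
  rw [← ha]
  have : (a • v : Fin (n + 1) → L) = (a : L) • v := rfl
  rw [this, lam_smul hβd]
  simp [Units.smul_def]

theorem isHomogeneous_diagonal (a : Matrix (Fin r) (Fin (N + 1)) K) :
    ∀ F ∈ diagonal a, ∃ d, F.IsHomogeneous d := by
  rintro F ⟨i, rfl⟩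
  refine ⟨2, ?_⟩
  refine MvPolynomial.IsHomogeneous.sum _ _ _ fun j _ => ?_
  have h1 := (isHomogeneous_C (Fin (N + 1)) (a i j)).mul ((isHomogeneous_X K j).pow 2)
  simpa using h1

theorem eval_diagonal (a : Matrix (Fin r) (Fin (N + 1)) K) {L : Type*} [Field L] (σ : K →+* L)
    (v : Fin (N + 1) → L) :
    (∀ F ∈ diagonal a, eval₂ σ v F = 0) ↔ ∀ i, ∑ j, σ (a i j) * v j ^ 2 = 0 := by
  have h1 : ∀ i, eval₂ σ v (∑ j, C (a i j) * X j ^ 2) = ∑ j, σ (a i j) * v j ^ 2 := by
    intro i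
    simp [eval₂_sum]
  constructor
  · intro h i
    rw [← h1]
    exact h _ ⟨i, rfl⟩
  · rintro h F ⟨i, rfl⟩
    rw [h1]
    exact h i

theorem emb_mem (hS : ∀ F ∈ S, ∃ e, F.IsHomogeneous e) {L : Type} [Field L] (σ : K →+* L)
    (hs : ∀ x : Fin (n + 1) → L, x ≠ 0 → (fun j => lam β (σ (t j)) x) ≠ 0)
    (hemb : ∀ x : Fin (n + 1) → L, (∀ F ∈ S, MvPolynomial.eval₂ σ x F = 0) →
      ∀ i, ∑ j, σ (a i j) * lam β (σ (t j)) x ^ 2 = 0) (p : PSpace L n)
    (hp : ∀ F ∈ S, eval₂ σ p.rep F = 0) :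
    ∀ F ∈ diagonal a, eval₂ σ (emb β (fun j => σ (t j)) hs p).rep F = 0 := by
  intro F hF
  obtain ⟨e, he⟩ := isHomogeneous_diagonal a F hF
  unfold emb
  rw [eval₂_rep_iff he]
  exact (eval_diagonal a σ _).2 (hemb _ hp) F hF

theorem emb_injective (hd : 0 < d) (hβ : Function.Injective β)
    (hβd : ∀ α : Fin (n + 1) →₀ ℕ, α.degree = d ↔ ∃ l, β l = α)
    (ht : Function.Injective t) (hN : 16 ^ (h - 1) < N + 1) {L : Type} [Field L] (σ : K →+* L)
    (hs : ∀ x : Fin (n + 1) → L, x ≠ 0 → (fun j => lam β (σ (t j)) x) ≠ 0) :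
    Function.Injective (emb β (fun j => σ (t j)) hs) := by
  intro p q hpq
  unfold emb at hpq
  rw [Projectivization.mk_eq_mk_iff'] at hpq
  obtain ⟨κ, hκ⟩ := hpq
  have hκ0 : κ ≠ 0 := by
    rintro rfl
    rw [zero_smul] at hκ
    exact hs _ p.rep_nonzero hκ.symm
  obtain ⟨κ', hκ', h1⟩ := lam_injective hd hβ hβd ht hN σ p.rep_nonzero q.rep_nonzero hκ0
    (fun j => (congrFun hκ j).symm)
  rw [← p.mk_rep, ← q.mk_rep, Projectivization.mk_eq_mk_iff']
  exact ⟨κ', h1.symm⟩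

theorem hyperbolic_of_diagonal (hd : 0 < d) (hβ : Function.Injective β)
    (hβd : ∀ α : Fin (n + 1) →₀ ℕ, α.degree = d ↔ ∃ l, β l = α)
    (ht : Function.Injective t) (hN : 16 ^ (h - 1) < N + 1)
    (hS : ∀ F ∈ S, ∃ e, F.IsHomogeneous e) (σ : K →+* ℂ)
    (hemb : ∀ x : Fin (n + 1) → ℂ, (∀ F ∈ S, MvPolynomial.eval₂ σ x F = 0) →
      ∀ i, ∑ j, σ (a i j) * lam β (σ (t j)) x ^ 2 = 0)
    (hX : KobayashiHyperbolic (complexPoints (diagonal a) σ)) :
    KobayashiHyperbolic (complexPoints S σ) := by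
  have hs : ∀ x : Fin (n + 1) → ℂ, x ≠ 0 → (fun j => lam β (σ (t j)) x) ≠ 0 := fun x hx =>
    lam_ne_zero hd hβ hβd ht hN σ hx
  let Λ := emb β (fun j => σ (t j)) hs
  have hmem : ∀ p ∈ complexPoints S σ, Λ p ∈ complexPoints (diagonal a) σ := fun p hp =>
    emb_mem hS σ hs hemb p hp
  have hhol : ∀ (f : ℂ → PSpace ℂ n) (Ω : Set ℂ), HolomorphicOn f Ω →
      HolomorphicOn (fun z => Λ (f z)) Ω := by
    intro f Ω hf z₀ hz₀
    obtain ⟨g, hg, hg2⟩ := hf z₀ hz₀
    refine ⟨fun z j => lam β (σ (t j)) (g z), ?_, ?_⟩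
    · refine analyticAt_pi_iff.2 fun j => ?_
      unfold lam
      refine Finset.analyticAt_fun_sum _ fun l _ => ?_
      refine AnalyticAt.mul ?_ analyticAt_const
      refine Finset.analyticAt_fun_prod _ fun i _ => ?_
      exact ((analyticAt_pi_iff.1 hg) i).pow _
    · filter_upwards [hg2] with z hz
      obtain ⟨h1, h2⟩ := hz
      refine ⟨hs _ h1, ?_⟩
      show Λ (f z) = _
      rw [h2]
      exact emb_mk hβd _ hs _ h1
  have hchain : ∀ (p q : PSpace ℂ n) (s : ℝ), DiscChain (complexPoints S σ) p q s →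
      DiscChain (complexPoints (diagonal a) σ) (Λ p) (Λ q) s := by
    intro p q s hc
    induction hc with
    | refl p hp => exact DiscChain.refl _ (hmem p hp)
    | step f a' b q s hf hm ha hb _ ih =>
      exact DiscChain.step (fun z => Λ (f z)) a' b (Λ q) s (hhol f _ hf)
        (fun z hz => hmem _ (hm hz)) ha hb ih
  intro p hp q hq hpq
  refine lt_of_lt_of_le (hX (Λ p) (hmem p hp) (Λ q) (hmem q hq) ?_) ?_
  · intro h1
    exact hpq (emb_injective hd hβ hβd ht hN σ hs h1)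
  · unfold kobayashiDist
    refine le_iInf₂ fun s hs' => ?_
    exact iInf₂_le s (hchain p q s hs')

theorem finite_of_diagonal (hd : 0 < d) (hβ : Function.Injective β)
    (hβd : ∀ α : Fin (n + 1) →₀ ℕ, α.degree = d ↔ ∃ l, β l = α)
    (ht : Function.Injective t) (hN : 16 ^ (h - 1) < N + 1)
    (hS : ∀ F ∈ S, ∃ e, F.IsHomogeneous e) (L : Type) [Field L] [Algebra K L]
    (hemb : ∀ x : Fin (n + 1) → L, (∀ F ∈ S, MvPolynomial.eval₂ (algebraMap K L) x F = 0) →
      ∀ i, ∑ j, algebraMap K L (a i j) * lam β (algebraMap K L (t j)) x ^ 2 = 0)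
    (hX : (points (diagonal a) L).Finite) : (points S L).Finite := by
  have hs : ∀ x : Fin (n + 1) → L, x ≠ 0 → (fun j => lam β (algebraMap K L (t j)) x) ≠ 0 :=
    fun x hx => lam_ne_zero hd hβ hβd ht hN (algebraMap K L) hx
  refine Set.Finite.of_finite_image (f := emb β (fun j => algebraMap K L (t j)) hs)
    (hX.subset ?_) (emb_injective hd hβ hβd ht hN (algebraMap K L) hs).injOn
  rintro _ ⟨p, hp, rfl⟩
  intro F hF
  rw [aeval_def]
  exact emb_mem hS (algebraMap K L) hs hemb p (fun G hG => by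
    have := hp G hG
    rwa [aeval_def] at this) F hF

end Emb

end Pool.Agent.Work.MP_f82ddf_nt.DQ
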