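import Pool.Agent.Work.MP_f82ddf_nt.DQ.Defs

/-!
# The differential field of meromorphic functions on the complex plane
-/

open Topology Filter
open scoped Differential

namespace Pool.Agent.Work.MP_f82ddf_nt.DQ

/-- The functions on the complex plane which are meromorphic at every point. -/
def MerFun : Subalgebra ℂ (ℂ → ℂ) where
  carrier := {f | ∀ z, MeromorphicAt f z}
  mul_mem' hf hg z := (hf z).mul (hg z)
  add_mem' hf hg z := (hf z).add (hg z)
  algebraMap_mem' c z := MeromorphicAt.const c z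

theorem mem_merFun {f : ℂ → ℂ} : f ∈ MerFun ↔ ∀ z, MeromorphicAt f z := Iff.rfl

/-- The functions which vanish outside of a discrete closed set. -/
def MerIdeal : Ideal MerFun where
  carrier := {f | ∀ z₀, ∀ᶠ z in 𝓝[≠] z₀, f.1 z = 0}
  add_mem' := by
    intro f g hf hg z₀
    filter_upwards [hf z₀, hg z₀] with z h1 h2
    change f.1 z + g.1 z = 0
    rw [h1, h2, add_zero]
  zero_mem' := by
    intro z₀
    exact Eventually.of_forall fun z => rfl
  smul_mem' := by
    intro c f hf z₀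
    filter_upwards [hf z₀] with z h1
    change c.1 z * f.1 z = 0
    rw [h1, mul_zero]

theorem mem_merIdeal {f : MerFun} : f ∈ MerIdeal ↔ ∀ z₀, ∀ᶠ z in 𝓝[≠] z₀, f.1 z = 0 := Iff.rfl

/-- The identity theorem: a meromorphic function which is not almost everywhere zero has only
isolated zeros. -/
theorem eventually_ne_zero_of_not_mem {f : MerFun} (hf : f ∉ MerIdeal) (z₀ : ℂ) :
    ∀ᶠ z in 𝓝[≠] z₀, f.1 z ≠ 0 := by
  rw [mem_merIdeal] at hf
  obtain ⟨z₁, h1⟩ := not_forall.1 hf
  have h2 : meromorphicOrderAt f.1 z₁ ≠ ⊤ := fun h => h1 (meromorphicOrderAt_eq_top_iff.1 h)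
  have h3 := (Meromorphic.exists_meromorphicOrderAt_ne_top_iff_forall
    (f := f.1) f.2).1 ⟨z₁, h2⟩ z₀
  exact (meromorphicOrderAt_ne_top_iff_eventually_ne_zero (f.2 z₀)).1 h3

instance : MerIdeal.IsMaximal := by
  rw [Ideal.isMaximal_iff]
  constructor
  · intro h
    have h1 := mem_merIdeal.1 h 0
    obtain ⟨z, hz⟩ := h1.exists
    exact one_ne_zero hz
  · intro J f hJ hf hfJ
    let g : MerFun := ⟨f.1⁻¹, mem_merFun.2 fun z => (f.2 z).inv⟩
    have h1 : 1 - g * f ∈ MerIdeal := by
      rw [mem_merIdeal]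
      intro z₀
      filter_upwards [eventually_ne_zero_of_not_mem hf z₀] with z hz
      change 1 - (f.1 z)⁻¹ * f.1 z = 0
      rw [inv_mul_cancel₀ hz, sub_self]
    have h2 : (1 : MerFun) = (1 - g * f) + g * f := by ring
    rw [h2]
    exact J.add_mem (hJ h1) (J.mul_mem_left g hfJ)

/-- The field of meromorphic functions on the complex plane. -/
def Mer : Type := MerFun ⧸ MerIdeal

noncomputable instance : CommRing Mer := inferInstanceAs (CommRing (MerFun ⧸ MerIdeal))

theorem isField_mer : IsField Mer :=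
  (Ideal.Quotient.maximal_ideal_iff_isField_quotient MerIdeal).1 inferInstance

noncomputable instance : Field Mer := isField_mer.toField

/-- The class of a meromorphic function, as a ring homomorphism. -/
noncomputable def merHom : MerFun →+* Mer where
  toFun f := (Ideal.Quotient.mk MerIdeal f : MerFun ⧸ MerIdeal)
  map_one' := rfl
  map_mul' _ _ := rfl
  map_zero' := rfl
  map_add' _ _ := rfl

theorem merHom_surjective : Function.Surjective merHom := Ideal.Quotient.mk_surjective

theorem merHom_eq {f g : MerFun} : merHom f = merHom g ↔ f - g ∈ MerIdeal := by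
  change (Ideal.Quotient.mk MerIdeal f : MerFun ⧸ MerIdeal) = Ideal.Quotient.mk MerIdeal g ↔ _
  exact Ideal.Quotient.eq

noncomputable instance : Algebra ℂ Mer := RingHom.toAlgebra (merHom.comp (algebraMap ℂ MerFun))

instance : CharZero Mer := charZero_of_injective_algebraMap (algebraMap ℂ Mer).injective

namespace Mer

/-- The class of a meromorphic function. -/
noncomputable def mk (f : ℂ → ℂ) (hf : ∀ z, MeromorphicAt f z) : Mer :=
  merHom ⟨f, mem_merFun.2 hf⟩

theorem exists_mk (x : Mer) : ∃ (f : ℂ → ℂ) (hf : ∀ z, MeromorphicAt f z), x = mk f hf := by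
  obtain ⟨f, hf⟩ := merHom_surjective x
  exact ⟨f.1, f.2, hf.symm⟩

theorem mk_eq_mk {f g : ℂ → ℂ} {hf : ∀ z, MeromorphicAt f z} {hg : ∀ z, MeromorphicAt g z} :
    mk f hf = mk g hg ↔ ∀ z₀, ∀ᶠ z in 𝓝[≠] z₀, f z = g z := by
  unfold mk
  rw [merHom_eq, mem_merIdeal]
  refine forall_congr' fun z₀ => eventually_congr (Eventually.of_forall fun z => ?_)
  change f z - g z = 0 ↔ _
  exact sub_eq_zero

theorem mk_add (f g : ℂ → ℂ) (hf : ∀ z, MeromorphicAt f z) (hg : ∀ z, MeromorphicAt g z) :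
    mk f hf + mk g hg = mk (fun z => f z + g z) (fun z => (hf z).add (hg z)) := rfl

theorem mk_sub (f g : ℂ → ℂ) (hf : ∀ z, MeromorphicAt f z) (hg : ∀ z, MeromorphicAt g z) :
    mk f hf - mk g hg = mk (fun z => f z - g z) (fun z => (hf z).sub (hg z)) := rfl

theorem mk_mul (f g : ℂ → ℂ) (hf : ∀ z, MeromorphicAt f z) (hg : ∀ z, MeromorphicAt g z) :
    mk f hf * mk g hg = mk (fun z => f z * g z) (fun z => (hf z).mul (hg z)) := rfl

theorem mk_pow (f : ℂ → ℂ) (hf : ∀ z, MeromorphicAt f z) (k : ℕ) :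
    mk f hf ^ k = mk (fun z => f z ^ k) (fun z => (hf z).pow k) := rfl

theorem mk_prod {ι : Type} (s : Finset ι) (f : ι → ℂ → ℂ) (hf : ∀ i z, MeromorphicAt (f i) z) :
    ∏ i ∈ s, mk (f i) (hf i) = mk (fun z => ∏ i ∈ s, f i z)
      (fun z => MeromorphicAt.fun_prod fun i _ => hf i z) := by
  unfold mk
  rw [← map_prod]
  congr 1
  apply Subtype.ext
  change MerFun.val _ = _
  rw [map_prod]
  funext z
  rw [Finset.prod_apply]
  rfl

theorem mk_sum {ι : Type} (s : Finset ι) (f : ι → ℂ → ℂ) (hf : ∀ i z, MeromorphicAt (f i) z) :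
    ∑ i ∈ s, mk (f i) (hf i) = mk (fun z => ∑ i ∈ s, f i z)
      (fun z => MeromorphicAt.fun_sum fun i _ => hf i z) := by
  unfold mk
  rw [← map_sum]
  congr 1
  apply Subtype.ext
  change MerFun.val _ = _
  rw [map_sum]
  funext z
  rw [Finset.sum_apply]
  rfl

theorem algebraMap_eq (c : ℂ) :
    algebraMap ℂ Mer c = mk (fun _ => c) (fun z => MeromorphicAt.const c z) := rfl

theorem zero_eq : (0 : Mer) = mk (fun _ => 0) (fun z => MeromorphicAt.const 0 z) := rfl

/-- Almost everywhere a function meromorphic at every point is differentiable. -/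
theorem eventually_differentiableAt {f : ℂ → ℂ} (hf : ∀ z, MeromorphicAt f z) (z₀ : ℂ) :
    ∀ᶠ z in 𝓝[≠] z₀, DifferentiableAt ℂ f z := by
  filter_upwards [(hf z₀).eventually_analyticAt] with z hz
  exact hz.differentiableAt

/-- The additive map which sends a meromorphic function to the class of its derivative. -/
noncomputable def D1 : MerFun →+ Mer where
  toFun f := mk (deriv f.1) (fun z => (f.2 z).deriv)
  map_zero' := by
    rw [zero_eq, mk_eq_mk]
    intro z₀
    refine Eventually.of_forall fun z => ?_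
    change deriv (fun _ => (0 : ℂ)) z = 0
    simp
  map_add' f g := by
    rw [mk_add, mk_eq_mk]
    intro z₀
    filter_upwards [eventually_differentiableAt f.2 z₀, eventually_differentiableAt g.2 z₀]
      with z h1 h2
    exact deriv_add h1 h2

theorem D1_of_mem {f : MerFun} (hf : f ∈ MerIdeal) : D1 f = 0 := by
  rw [zero_eq]
  change mk (deriv f.1) (fun z => (f.2 z).deriv) = _
  rw [mk_eq_mk]
  intro z₀
  have h1 : f.1 =ᶠ[𝓝[≠] z₀] fun _ => (0 : ℂ) := mem_merIdeal.1 hf z₀
  have h2 := h1.nhdsNE_deriv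
  filter_upwards [h2] with z hz
  rw [hz]
  simp

/-- The derivation of the field of meromorphic functions, as a function. -/
noncomputable def D2 (x : Mer) : Mer := D1 (merHom_surjective x).choose

theorem D2_mk (f : ℂ → ℂ) (hf : ∀ z, MeromorphicAt f z) :
    D2 (mk f hf) = mk (deriv f) (fun z => (hf z).deriv) := by
  have h := (merHom_surjective (mk f hf)).choose_spec
  unfold D2
  set g := (merHom_surjective (mk f hf)).choose
  have h1 : g - ⟨f, mem_merFun.2 hf⟩ ∈ MerIdeal := merHom_eq.1 h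
  have h2 := D1_of_mem h1
  rw [map_sub, sub_eq_zero] at h2
  rw [h2]
  rfl

theorem D2_add (x y : Mer) : D2 (x + y) = D2 x + D2 y := by
  obtain ⟨f, hf, rfl⟩ := exists_mk x
  obtain ⟨g, hg, rfl⟩ := exists_mk y
  rw [mk_add, D2_mk, D2_mk, D2_mk, mk_add, mk_eq_mk]
  intro z₀
  filter_upwards [eventually_differentiableAt hf z₀, eventually_differentiableAt hg z₀]
    with z h1 h2
  exact deriv_add h1 h2

theorem D2_mul (x y : Mer) : D2 (x * y) = x * D2 y + y * D2 x := by
  obtain ⟨f, hf, rfl⟩ := exists_mk x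
  obtain ⟨g, hg, rfl⟩ := exists_mk y
  rw [mk_mul, D2_mk, D2_mk, D2_mk, mk_mul, mk_mul, mk_add, mk_eq_mk]
  intro z₀
  filter_upwards [eventually_differentiableAt hf z₀, eventually_differentiableAt hg z₀]
    with z h1 h2
  have h3 := deriv_mul h1 h2
  change deriv (f * g) z = _
  rw [h3]
  ring

/-- The derivation of the field of meromorphic functions. -/
noncomputable def D3 : Derivation ℤ Mer Mer :=
  Derivation.mk' (AddMonoidHom.toIntLinearMap (AddMonoidHom.mk' D2 D2_add)) (by
    intro x y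
    exact D2_mul x y)

noncomputable instance : Differential Mer := ⟨D3⟩

theorem deriv_mk (f : ℂ → ℂ) (hf : ∀ z, MeromorphicAt f z) :
    (mk f hf)′ = mk (deriv f) (fun z => (hf z).deriv) := D2_mk f hf

theorem deriv_algebraMap (c : ℂ) : (algebraMap ℂ Mer c)′ = 0 := by
  rw [algebraMap_eq, deriv_mk, zero_eq, mk_eq_mk]
  intro z₀
  refine Eventually.of_forall fun z => ?_
  simp

theorem exists_algebraMap {x : Mer} (hx : x′ = 0) : ∃ c : ℂ, x = algebraMap ℂ Mer c := by
  obtain ⟨f, hf, rfl⟩ := exists_mk x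
  rw [deriv_mk, zero_eq, mk_eq_mk] at hx
  have h3 : ∀ᶠ z in 𝓝[≠] (0 : ℂ), deriv f z = 0 ∧ AnalyticAt ℂ f z :=
    (hx 0).and (hf 0).eventually_analyticAt
  have h5 : ∀ᶠ z₁ in 𝓝[≠] (0 : ℂ), ∀ᶠ z in 𝓝 z₁, deriv f z = 0 ∧ AnalyticAt ℂ f z := by
    rw [← eventually_eventually_nhdsWithin] at h3
    filter_upwards [h3, self_mem_nhdsWithin] with z h4 h5
    rwa [IsOpen.nhdsWithin_eq isOpen_compl_singleton h5] at h4
  obtain ⟨z₁, h4⟩ := h5.exists
  have h6 : ∀ᶠ z in 𝓝 z₁, f z = f z₁ := by
    obtain ⟨ε, hε, hball⟩ := Metric.eventually_nhds_iff_ball.1 h4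
    rw [Metric.eventually_nhds_iff_ball]
    refine ⟨ε, hε, fun z hz => ?_⟩
    have hd : DifferentiableOn ℂ f (Metric.ball z₁ ε) := fun w hw =>
      (hball w hw).2.differentiableAt.differentiableWithinAt
    exact IsOpen.is_const_of_deriv_eq_zero Metric.isOpen_ball
      (convex_ball z₁ ε).isPreconnected hd (fun w hw => (hball w hw).1) hz
      (Metric.mem_ball_self hε)
  refine ⟨f z₁, ?_⟩
  rw [algebraMap_eq]
  by_contra hne
  have h7 : (⟨f, mem_merFun.2 hf⟩ - ⟨fun _ => f z₁, mem_merFun.2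
      (fun z => MeromorphicAt.const (f z₁) z)⟩ : MerFun) ∉ MerIdeal := by
    intro h
    exact hne (merHom_eq.2 h)
  obtain ⟨z, hz1, hz2⟩ := ((eventually_ne_zero_of_not_mem h7 z₁).and
    (h6.filter_mono nhdsWithin_le_nhds)).exists
  apply hz1
  change f z - f z₁ = 0
  rw [hz2, sub_self]

end Mer

end Pool.Agent.Work.MP_f82ddf_nt.DQ
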