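import Pool.Agent.Work.MP_f82ddf_nt.DQ.AL3

/-!
# The analytic core
-/

open Finset Topology Filter

namespace Pool.Agent.Work.MP_f82ddf_nt.DQ

theorem exists_root {g : ℂ → ℂ} {z₀ : ℂ} (hg : AnalyticAt ℂ g z₀) (h0 : g z₀ ≠ 0) {ν : ℕ}
    (hν : 0 < ν) : ∃ k : ℂ → ℂ, AnalyticAt ℂ k z₀ ∧ ∀ᶠ z in 𝓝 z₀, k z ^ ν = g z := by
  obtain ⟨c, hc⟩ := IsAlgClosed.exists_pow_nat_eq (g z₀) hν
  have hνc : (ν : ℂ) ≠ 0 := by exact_mod_cast hν.ne'
  have h1 : AnalyticAt ℂ (fun z => g z / g z₀) z₀ := hg.div analyticAt_const h0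
  have h2 : g z₀ / g z₀ ∈ Complex.slitPlane := by
    rw [div_self h0]
    exact Complex.one_mem_slitPlane
  have h3 : AnalyticAt ℂ (fun z => Complex.log (g z / g z₀)) z₀ := h1.clog h2
  refine ⟨fun z => c * Complex.exp (Complex.log (g z / g z₀) / ν),
    analyticAt_const.mul (h3.div analyticAt_const hνc).cexp, ?_⟩
  filter_upwards [hg.continuousAt.eventually_ne h0] with z hz
  rw [mul_pow, hc, ← Complex.exp_nat_mul, mul_div_cancel₀ _ hνc,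
    Complex.exp_log (div_ne_zero hz h0), mul_div_cancel₀ _ h0]

theorem growth_contra {ν : ℕ} (hν : 0 < ν) {w b C : ℝ} (hw : 0 < w) (hb : 0 ≤ b)
    (h : ∀ ρ : ℝ, 0 < ρ → b < ρ ^ 2 → w * ((ρ ^ 2 - b) ^ 2) ^ ν ≤ C * (2 * ρ ^ 2) ^ ν) :
    False := by
  set x : ℝ := 8 * (|C| / w + 1) + 2 * b + 1 with hx
  have hCw : 0 ≤ |C| / w := by positivity
  have hx0 : 0 < x := by positivity
  have h1 := h (Real.sqrt x) (Real.sqrt_pos.2 hx0) (by rw [Real.sq_sqrt hx0.le]; linarith)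
  rw [Real.sq_sqrt hx0.le] at h1
  have h2 : x ^ 2 / 4 ≤ (x - b) ^ 2 := by nlinarith
  have h3 : (x ^ 2 / 4) ^ ν ≤ ((x - b) ^ 2) ^ ν := pow_le_pow_left₀ (by positivity) h2 ν
  have h4 : w * (x ^ 2 / 4) ^ ν ≤ |C| * (2 * x) ^ ν := by
    calc w * (x ^ 2 / 4) ^ ν ≤ w * ((x - b) ^ 2) ^ ν := mul_le_mul_of_nonneg_left h3 hw.le
      _ ≤ C * (2 * x) ^ ν := h1
      _ ≤ |C| * (2 * x) ^ ν := mul_le_mul_of_nonneg_right (le_abs_self C) (by positivity)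
  have h5 : (x ^ 2 / 4) ^ ν = (x / 8) ^ ν * (2 * x) ^ ν := by
    rw [← mul_pow]; congr 1; ring
  rw [h5, ← mul_assoc] at h4
  have h6 : w * (x / 8) ^ ν ≤ |C| := le_of_mul_le_mul_right h4 (by positivity)
  have h7 : |C| / w + 1 ≤ x / 8 := by rw [hx]; linarith
  have h8 : x / 8 ≤ (x / 8) ^ ν := le_self_pow₀ (by linarith) hν.ne'
  have h9 : w * (|C| / w + 1) ≤ |C| :=
    (mul_le_mul_of_nonneg_left (h7.trans h8) hw.le).trans h6
  rw [mul_add, mul_div_cancel₀ _ hw.ne'] at h9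
  linarith

theorem Data.det_eq_zero {ν : ℕ} {t : Fin (5 * ν) → ℂ} {r : ℕ → ℂ → ℂ}
    {s : Fin (5 * ν) → ℂ → ℂ} (D : Data ν t r s) (hν : 0 < ν) (ht : Function.Injective t)
    (z₀ : ℂ) : ∀ᶠ z in 𝓝[≠] z₀, (bez ν (fun i => r i z) (fun i => deriv (r i) z)).det = 0 := by
  obtain ⟨C, hC0, hC⟩ := pointwise_bound t ht
  by_contra hcon
  have hne : ∃ᶠ z in 𝓝[≠] z₀, dl ν r s z ≠ 0 := by
    have h1 : ∃ᶠ z in 𝓝[≠] z₀, (bez ν (fun i => r i z) (fun i => deriv (r i) z)).det ≠ 0 := by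
      rw [not_eventually] at hcon
      exact hcon
    have h2 : ∀ᶠ z in 𝓝[≠] z₀, ∀ j, s j z ≠ 0 := eventually_all.2 fun j => D.ne j z₀
    refine (h1.and_eventually h2).mono fun z hz => ?_
    exact div_ne_zero hz.1 (prod_ne_zero_iff.2 fun j _ => hz.2 j)
  have hdl : ∀ z₁, ∀ᶠ z in 𝓝[≠] z₁, dl ν r s z ≠ 0 := mero_ne D.dl_mero hne
  have hJ0 : ∃ j : Fin (5 * ν), True := ⟨⟨0, by omega⟩, trivial⟩
  -- the density is positive somewhere
  obtain ⟨z₁, hz₁⟩ : ∃ z₁, 0 < WW ν s (dl ν r s) z₁ := by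
    obtain ⟨y, g, hL, -⟩ := D.exists_lift hν hC 0
    have h1 := hL.ww_eq
    obtain ⟨-, -, l, hl⟩ := hL
    have h2 : ∀ᶠ z in 𝓝[≠] (0 : ℂ), ∀ j, s j z ≠ 0 := eventually_all.2 fun j => D.ne j 0
    obtain ⟨z, h3, h4, h5, h6⟩ := ((h1.filter_mono nhdsWithin_le_nhds).and
      (hl.and (h2.and (hdl 0)))).exists
    refine ⟨z, ?_⟩
    rw [h3]
    obtain ⟨j, -⟩ := hJ0
    have h7 : g z ≠ 0 := by
      intro h8
      rw [h8, zero_mul] at h4
      exact h6 h4.2.2.2.symm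
    have h8 : y j z ≠ 0 := by
      rw [h4.2.2.1 j]
      exact mul_ne_zero h4.2.1 (h5 j)
    exact mul_pos (Complex.normSq_pos.2 h7) (pow_pos (nn_pos ⟨j, h8⟩) _)
  -- continuity of the density
  have hcont : Continuous (WW ν s (dl ν r s)) := by
    rw [continuous_iff_continuousAt]
    intro z
    obtain ⟨y, g, hL, -⟩ := D.exists_lift hν hC z
    have h1 : ContinuousAt (fun w => Complex.normSq (g w) * nn (fun j => y j w) ^ ν) z :=
      ((Complex.continuous_normSq.continuousAt).comp hL.2.1.continuousAt).mul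
        ((nn_continuousAt fun j => (hL.1 j).continuousAt).pow ν)
    exact h1.congr (hL.ww_eq.mono fun w hw => hw.symm)
  refine growth_contra (b := ‖z₁‖ ^ 2) (C := C) hν hz₁ (by positivity) fun ρ hρ hρz => ?_
  have hz₁ρ : ‖z₁‖ < ρ := lt_of_pow_lt_pow_left₀ 2 hρ.le hρz
  -- the maximum
  have hFc : Continuous fun z => WW ν s (dl ν r s) z * ((ρ ^ 2 - ‖z‖ ^ 2) ^ 2) ^ ν :=
    hcont.mul (by fun_prop)
  obtain ⟨z₂, hz₂, hmax⟩ := (isCompact_closedBall (0 : ℂ) ρ).exists_isMaxOn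
    ⟨z₁, by simp [hz₁ρ.le]⟩ hFc.continuousOn
  have hFz₁ : 0 < WW ν s (dl ν r s) z₁ * ((ρ ^ 2 - ‖z₁‖ ^ 2) ^ 2) ^ ν := by
    have : 0 < ρ ^ 2 - ‖z₁‖ ^ 2 := by linarith
    positivity
  have hF₁₂ : WW ν s (dl ν r s) z₁ * ((ρ ^ 2 - ‖z₁‖ ^ 2) ^ 2) ^ ν ≤
      WW ν s (dl ν r s) z₂ * ((ρ ^ 2 - ‖z₂‖ ^ 2) ^ 2) ^ ν :=
    hmax (by simp [hz₁ρ.le] : z₁ ∈ Metric.closedBall (0 : ℂ) ρ)
  have hFz₂ := lt_of_lt_of_le hFz₁ hF₁₂
  have hA : ρ ^ 2 - ‖z₂‖ ^ 2 ≠ 0 := by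
    intro h0
    rw [h0, zero_pow two_ne_zero, zero_pow hν.ne', mul_zero] at hFz₂
    exact lt_irrefl _ hFz₂
  have hz₂ρ : ‖z₂‖ < ρ := by
    have h1 : ‖z₂‖ ≤ ρ := by simpa using hz₂
    refine lt_of_le_of_ne h1 fun h2 => hA ?_
    rw [h2, sub_self]
  have hA0 : 0 < ρ ^ 2 - ‖z₂‖ ^ 2 := by
    have := norm_nonneg z₂
    nlinarith
  have hWW : WW ν s (dl ν r s) z₂ ≠ 0 := by
    intro h0
    rw [h0, zero_mul] at hFz₂
    exact lt_irrefl _ hFz₂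
  obtain ⟨y, g, hL, -⟩ := D.exists_lift hν hC z₂
  have hww := hL.ww_eq
  have hg0 : g z₂ ≠ 0 := by
    intro h0
    apply hWW
    rw [hww.self_of_nhds, h0, map_zero, zero_mul]
  obtain ⟨k, hk, hkg⟩ := exists_root hL.2.1 hg0 hν
  have hk0 : k z₂ ≠ 0 := by
    intro h0
    apply hg0
    rw [← hkg.self_of_nhds, h0, zero_pow hν.ne']
  have hφ : ∀ j, AnalyticAt ℂ (fun z => k z * y j z) z₂ := fun j => hk.mul (hL.1 j)
  have hWφ : ∀ᶠ z in 𝓝 z₂, WW ν s (dl ν r s) z = nn (fun j => k z * y j z) ^ ν := by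
    filter_upwards [hww, hkg] with z h1 h2
    rw [h1, ← h2, nn_smul, mul_pow, map_pow]
  have hmax' : ∀ᶠ z in 𝓝 z₂, nn (fun j => k z * y j z) * (ρ ^ 2 - ‖z‖ ^ 2) ^ 2 ≤
      nn (fun j => k z₂ * y j z₂) * (ρ ^ 2 - ‖z₂‖ ^ 2) ^ 2 := by
    have h1 : ∀ᶠ z in 𝓝 z₂, z ∈ Metric.closedBall (0 : ℂ) ρ := by
      have h2 : z₂ ∈ Metric.ball (0 : ℂ) ρ := by simpa using hz₂ρ
      filter_upwards [Metric.isOpen_ball.mem_nhds h2] with z hz
      exact Metric.ball_subset_closedBall hz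
    filter_upwards [h1, hWφ] with z h3 h4
    have h5 : WW ν s (dl ν r s) z * ((ρ ^ 2 - ‖z‖ ^ 2) ^ 2) ^ ν ≤
      WW ν s (dl ν r s) z₂ * ((ρ ^ 2 - ‖z₂‖ ^ 2) ^ 2) ^ ν := hmax h3
    rw [h4, hWφ.self_of_nhds, ← mul_pow, ← mul_pow] at h5
    have h6 := nn_nonneg fun j => k z₂ * y j z₂
    exact le_of_pow_le_pow_left₀ hν.ne' (by positivity) h5
  obtain ⟨m, hm, hm1, hmd⟩ := schwarz_max hz₂ρ hφ hmax'
  have hL2 := hL.mul (hm.mul hk) (mul_ne_zero (by rw [hm1]; exact one_ne_zero) hk0)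
  have hbd := D.bound hC hL2
  simp only [Pi.mul_apply, hm1, one_mul] at hbd
  rw [hkg.self_of_nhds, div_self hg0, map_one, one_mul] at hbd
  set n₀ : ℝ := nn (fun j => k z₂ * y j z₂) with hn₀
  set n₁ : ℝ := nn (fun j => deriv (fun z => m z * (k z * y j z)) z₂) with hn₁
  have hn₁' : nn (fun j => deriv (fun z => m z * k z * y j z) z₂) = n₁ := by
    rw [hn₁]
    congr 1
    funext j
    congr 1
    funext z
    ring
  rw [hn₁'] at hbd
  have hn₀0 : 0 ≤ n₀ := nn_nonneg _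
  have hn₁0 : 0 ≤ n₁ := nn_nonneg _
  have hn₀p : 0 < n₀ := by
    refine lt_of_le_of_ne hn₀0 fun h0 => hWW ?_
    rw [hWφ.self_of_nhds, ← hn₀, ← h0, zero_pow hν.ne']
  have hF₂ : WW ν s (dl ν r s) z₂ * ((ρ ^ 2 - ‖z₂‖ ^ 2) ^ 2) ^ ν ≤ C * (2 * ρ ^ 2) ^ ν := by
    rw [hWφ.self_of_nhds, ← hn₀, ← mul_pow]
    have h1 : (n₀ * (ρ ^ 2 - ‖z₂‖ ^ 2) ^ 2) ^ ν * n₀ ^ ν ≤ C * (2 * ρ ^ 2) ^ ν * n₀ ^ ν := by
      calc (n₀ * (ρ ^ 2 - ‖z₂‖ ^ 2) ^ 2) ^ ν * n₀ ^ ν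
          = n₀ ^ (2 * ν) * ((ρ ^ 2 - ‖z₂‖ ^ 2) ^ 2) ^ ν := by
            rw [mul_pow, two_mul, pow_add]; ring
        _ ≤ (C * n₁ ^ ν) * ((ρ ^ 2 - ‖z₂‖ ^ 2) ^ 2) ^ ν :=
            mul_le_mul_of_nonneg_right hbd (by positivity)
        _ = C * (n₁ * (ρ ^ 2 - ‖z₂‖ ^ 2) ^ 2) ^ ν := by rw [mul_pow]; ring
        _ ≤ C * (2 * ρ ^ 2 * n₀) ^ ν :=
            mul_le_mul_of_nonneg_left (pow_le_pow_left₀ (by positivity) hmd ν) hC0.le
        _ = C * (2 * ρ ^ 2) ^ ν * n₀ ^ ν := by rw [mul_pow (2 * ρ ^ 2)]; ring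
    exact le_of_mul_le_mul_right h1 (by positivity)
  exact hF₁₂.trans hF₂

/-- **The analytic core.** -/
theorem analytic_core {ν : ℕ} (hν : 0 < ν) (t : Fin (5 * ν) → ℂ) (ht : Function.Injective t)
    (r : ℕ → ℂ → ℂ) (hr : ∀ i z, MeromorphicAt (r i) z) (hr0 : ∀ i, ν < i → r i = fun _ => 0)
    (s : Fin (5 * ν) → ℂ → ℂ) (hs : ∀ j z, MeromorphicAt (s j) z)
    (h : ∀ j z₀, ∀ᶠ z in 𝓝[≠] z₀, ∑ i ∈ Finset.range (ν + 1), r i z * t j ^ i = s j z ^ 2)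
    (z₀ : ℂ) :
    ∀ᶠ z in 𝓝[≠] z₀, (bez ν (fun i => r i z) (fun i => deriv (r i) z)).det = 0 := by
  by_cases hne : ∀ j z₀, ∀ᶠ z in 𝓝[≠] z₀, s j z ≠ 0
  · exact Data.det_eq_zero ⟨hr, hs, hr0, h, hne⟩ hν ht z₀
  push Not at hne
  obtain ⟨j₀, z₁, hz₁⟩ := hne
  have hz : ∀ᶠ z in 𝓝[≠] z₁, s j₀ z = 0 := by
    rcases (hs j₀ z₁).eventually_eq_zero_or_eventually_ne_zero with h1 | h1
    · exact h1
    · exact absurd h1 hz₁
  have hz0 := mero_zero (hs j₀) hz z₀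
  obtain ⟨C, hC0, hC⟩ := pointwise_bound t ht
  have h1 : ∀ᶠ z in 𝓝[≠] z₀, ∀ i ∈ range (ν + 1), AnalyticAt ℂ (r i) z :=
    (eventually_all_finset _).2 fun i _ => (hr i z₀).eventually_analyticAt
  have h2 : ∀ᶠ z in 𝓝[≠] z₀, ∀ j, AnalyticAt ℂ (s j) z :=
    eventually_all.2 fun j => (hs j z₀).eventually_analyticAt
  have h4 : ∀ᶠ z in 𝓝[≠] z₀, ∀ j, ∑ i ∈ range (ν + 1), r i z * t j ^ i = s j z ^ 2 :=
    eventually_all.2 fun j => h j z₀
  filter_upwards [h1, h2, ev_ev h4, hz0] with z a1 a2 a3 a4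
  have hp : ∀ j, ν < j → r j z = 0 := fun j hj => by rw [hr0 j hj]
  have hb := hC (fun i => r i z) (fun i => deriv (r i) z) (fun j => s j z)
    (fun j => deriv (s j) z) hp (fun j hj => by simp only [hr0 j hj, deriv_const])
    (fun j => a3.self_of_nhds j)
    (fun j => by
      have h3 : (fun w => ∑ i ∈ range (ν + 1), r i w * t j ^ i) =ᶠ[𝓝 z] fun w => s j w ^ 2 :=
        a3.mono fun w hw => hw j
      have h5 := h3.deriv_eq
      rw [deriv_fun_sum (fun i hi => ((a1 i hi).differentiableAt.mul_const _))] at h5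
      have h6 : deriv (fun w => s j w ^ 2) z = 2 * s j z * deriv (s j) z := by
        have h7 := ((a2 j).differentiableAt.hasDerivAt.pow 2).deriv
        simp only [Nat.cast_ofNat, Nat.add_one_sub_one, pow_one] at h7
        exact h7
      rw [← h6, ← h5]
      refine sum_congr rfl fun i hi => ?_
      rw [deriv_mul_const (a1 i hi).differentiableAt])
  have hprod : ∏ j, Complex.normSq (s j z) = 0 :=
    prod_eq_zero (mem_univ j₀) (by rw [a4, map_zero])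
  rw [hprod, zero_mul, mul_zero] at hb
  by_contra hdet
  have h5 := Complex.normSq_pos.2 hdet
  have h6 : nn (fun j => s j z) = 0 := by
    by_contra h7
    have h8 : 0 < nn (fun j => s j z) := lt_of_le_of_ne (nn_nonneg _) (Ne.symm h7)
    have h9 : 0 < Complex.normSq
        (bez ν (fun i => r i z) (fun i => deriv (r i) z)).det * nn (fun j => s j z) ^ (2 * ν) := by
      positivity
    exact absurd hb (not_le.2 h9)
  have h7 : ∀ j, s j z = 0 := by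
    intro j
    have h8 := normSq_le_nn (fun j => s j z) j
    rw [h6] at h8
    exact Complex.normSq_eq_zero.1 (le_antisymm h8 (Complex.normSq_nonneg _))
  -- the polynomial vanishes
  set f : Polynomial ℂ := ∑ i ∈ range (ν + 1), Polynomial.C (r i z) * Polynomial.X ^ i with hf
  have hfe : ∀ j, f.eval (t j) = 0 := by
    intro j
    rw [hf, Polynomial.eval_finsetSum]
    have h8 := a3.self_of_nhds j
    rw [h7 j, zero_pow two_ne_zero] at h8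
    rw [← h8]
    exact sum_congr rfl fun i _ => by simp
  have hdeg : f.natDegree ≤ ν := by
    rw [hf]
    refine Polynomial.natDegree_sum_le_of_forall_le _ _ fun i hi => ?_
    exact (Polynomial.natDegree_C_mul_X_pow_le _ _).trans (by have := mem_range.1 hi; omega)
  have hf0 : f = 0 := by
    refine Polynomial.eq_zero_of_natDegree_lt_card_of_eval_eq_zero f ht hfe ?_
    rw [Fintype.card_fin]
    omega
  have hr00 : ∀ i, r i z = 0 := by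
    intro i
    by_cases hi : ν < i
    · exact hp i hi
    have h8 : f.coeff i = r i z := by
      rw [hf, Polynomial.finsetSum_coeff, sum_eq_single i]
      · simp
      · intro b _ hb
        rw [Polynomial.coeff_C_mul_X_pow, if_neg (Ne.symm hb)]
      · intro h9
        exact absurd (mem_range.2 (by omega)) h9
    rw [← h8, hf0, Polynomial.coeff_zero]
  apply hdet
  have : bez ν (fun i => r i z) (fun i => deriv (r i) z) = 0 := by
    ext a b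
    unfold bez
    simp [hr00]
  rw [this]
  have : Nonempty (Fin ν) := ⟨⟨0, hν⟩⟩
  exact Matrix.det_zero

end Pool.Agent.Work.MP_f82ddf_nt.DQ
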