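import Pool.Agent.Work.MP_f82ddf_nt.DQ.Bez

/-!
# The pointwise inequality for the Bezout determinant
-/

open Finset

namespace Pool.Agent.Work.MP_f82ddf_nt.DQ

/-- The square of the hermitian norm. -/
noncomputable def nn {ι : Type*} [Fintype ι] (x : ι → ℂ) : ℝ := ∑ i, Complex.normSq (x i)

section nn

variable {ι : Type*} [Fintype ι]

theorem nn_nonneg (x : ι → ℂ) : 0 ≤ nn x := sum_nonneg fun _ _ => Complex.normSq_nonneg _

theorem normSq_le_nn (x : ι → ℂ) (i : ι) : Complex.normSq (x i) ≤ nn x :=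
  single_le_sum (f := fun i => Complex.normSq (x i)) (fun _ _ => Complex.normSq_nonneg _)
    (mem_univ i)

theorem nn_smul (c : ℂ) (x : ι → ℂ) : nn (fun i => c * x i) = Complex.normSq c * nn x := by
  unfold nn
  rw [mul_sum]
  exact sum_congr rfl fun i _ => Complex.normSq_mul _ _

theorem nn_pos {x : ι → ℂ} (hx : ∃ i, x i ≠ 0) : 0 < nn x := by
  obtain ⟨i, hi⟩ := hx
  exact lt_of_lt_of_le (Complex.normSq_pos.2 hi) (normSq_le_nn x i)

end nn

/-- The values of a polynomial of degree at most `ν` at `ν + 1` points determine the others. -/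
theorem exists_interp {ν n : ℕ} (t : Fin n → ℂ) (ht : Function.Injective t) :
    ∃ C : ℝ, 0 < C ∧ ∀ (p : ℕ → ℂ) (y : Fin n → ℂ),
      (∀ j, ∑ i ∈ range (ν + 1), p i * t j ^ i = y j ^ 2) → ∀ T : Finset (Fin n),
        T.card = ν + 1 → ∀ k, Complex.normSq (y k) ≤ C * ∑ i ∈ T, Complex.normSq (y i) := by
  classical
  have hb : BddAbove (Set.range fun x : Finset (Fin n) × Fin n × Fin n =>
      ‖(Lagrange.basis x.1 t x.2.1).eval (t x.2.2)‖) := (Set.finite_range _).bddAbove
  obtain ⟨C, hC⟩ := hb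
  refine ⟨max C 1, by positivity, fun p y hy T hT k => ?_⟩
  set f : Polynomial ℂ := ∑ i ∈ range (ν + 1), Polynomial.C (p i) * Polynomial.X ^ i with hf
  have hfe : ∀ j, f.eval (t j) = y j ^ 2 := by
    intro j
    rw [hf, Polynomial.eval_finsetSum, ← hy j]
    exact sum_congr rfl fun i _ => by simp
  have hdeg : f.degree < T.card := by
    rw [hT]
    refine lt_of_le_of_lt (Polynomial.degree_sum_le _ _) ?_
    rw [Finset.sup_lt_iff (by exact_mod_cast WithBot.bot_lt_coe _)]
    intro i hi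
    refine lt_of_le_of_lt (Polynomial.degree_C_mul_X_pow_le i (p i)) ?_
    have := mem_range.1 hi
    exact_mod_cast this
  have h1 := Lagrange.eq_interpolate (v := t) (s := T) ht.injOn hdeg
  have h2 : y k ^ 2 = ∑ i ∈ T, y i ^ 2 * (Lagrange.basis T t i).eval (t k) := by
    rw [← hfe k, h1, Lagrange.interpolate_apply, Polynomial.eval_finsetSum]
    refine sum_congr rfl fun i _ => ?_
    rw [Polynomial.eval_mul, Polynomial.eval_C, hfe i]
  have h3 : Complex.normSq (y k) = ‖y k ^ 2‖ := by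
    rw [norm_pow, Complex.normSq_eq_norm_sq]
  rw [h3, h2, mul_sum]
  refine (norm_sum_le _ _).trans (sum_le_sum fun i _ => ?_)
  rw [norm_mul, norm_pow, ← Complex.normSq_eq_norm_sq, mul_comm]
  exact mul_le_mul_of_nonneg_right ((hC ⟨(T, i, k), rfl⟩).trans (le_max_left _ _))
    (Complex.normSq_nonneg _)

/-- The determinant of the Bezout matrix of a polynomial with the values `y j ^ 2` and its
derivative. -/
theorem det_bez_eq {ν n : ℕ} (t : Fin n → ℂ) (ht : Function.Injective t) {p q : ℕ → ℂ}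
    {y w : Fin n → ℂ} (hp : ∀ j, ν < j → p j = 0) (hq : ∀ j, ν < j → q j = 0)
    (hy : ∀ j, ∑ i ∈ range (ν + 1), p i * t j ^ i = y j ^ 2)
    (hw : ∀ j, ∑ i ∈ range (ν + 1), q i * t j ^ i = 2 * y j * w j)
    (I J : Fin ν → Fin n) (hIJ : ∀ i j, I i ≠ J j) :
    (Matrix.vandermonde (t ∘ I)).det * (bez ν p q).det * (Matrix.vandermonde (t ∘ J)).det =
      (∏ i, y (I i)) * ((∏ i, y (J i)) * (Matrix.of fun i j : Fin ν =>
        2 * (y (I i) * w (J j) - y (J j) * w (I i)) / (t (I i) - t (J j))).det) := by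
  rw [← bez_det_mul hp hq (t ∘ I) (t ∘ J) fun i j h => hIJ i j (ht h), ← Matrix.det_mul_row,
    ← Matrix.det_mul_column]
  congr 1
  ext i j
  simp only [Matrix.of_apply, Function.comp]
  rw [hy, hy, hw, hw]
  have : t (I i) - t (J j) ≠ 0 := sub_ne_zero.2 fun h => hIJ i j (ht h)
  field_simp

theorem normSq_wr_le {ι : Type*} [Fintype ι] (y w : ι → ℂ) (i j : ι) :
    Complex.normSq (y i * w j - y j * w i) ≤ 4 * (nn y * nn w) := by
  have h1 : ‖y i * w j - y j * w i‖ ≤ ‖y i‖ * ‖w j‖ + ‖y j‖ * ‖w i‖ := by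
    refine (norm_sub_le _ _).trans ?_
    rw [norm_mul, norm_mul]
  have h2 : ∀ a : ι, ‖y a‖ ^ 2 ≤ nn y := fun a => by
    rw [← Complex.normSq_eq_norm_sq]; exact normSq_le_nn y a
  have h3 : ∀ a : ι, ‖w a‖ ^ 2 ≤ nn w := fun a => by
    rw [← Complex.normSq_eq_norm_sq]; exact normSq_le_nn w a
  have h4 : (‖y i‖ * ‖w j‖) ^ 2 ≤ nn y * nn w := by
    rw [mul_pow]
    exact mul_le_mul (h2 i) (h3 j) (by positivity) (nn_nonneg y)
  have h5 : (‖y j‖ * ‖w i‖) ^ 2 ≤ nn y * nn w := by
    rw [mul_pow]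
    exact mul_le_mul (h2 j) (h3 i) (by positivity) (nn_nonneg y)
  rw [Complex.normSq_eq_norm_sq]
  have h6 := norm_nonneg (y i * w j - y j * w i)
  have h7 : 0 ≤ ‖y i‖ * ‖w j‖ := by positivity
  have h8 : 0 ≤ ‖y j‖ * ‖w i‖ := by positivity
  nlinarith [sq_nonneg (‖y i‖ * ‖w j‖ - ‖y j‖ * ‖w i‖)]

/-- **The pointwise inequality.** -/
theorem pointwise_bound {ν : ℕ} (t : Fin (5 * ν) → ℂ) (ht : Function.Injective t) :
    ∃ C : ℝ, 0 < C ∧ ∀ (p q : ℕ → ℂ) (y w : Fin (5 * ν) → ℂ), (∀ j, ν < j → p j = 0) →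
      (∀ j, ν < j → q j = 0) → (∀ j, ∑ i ∈ range (ν + 1), p i * t j ^ i = y j ^ 2) →
      (∀ j, ∑ i ∈ range (ν + 1), q i * t j ^ i = 2 * y j * w j) →
        Complex.normSq (bez ν p q).det * nn y ^ (2 * ν) ≤
          C * ((∏ j, Complex.normSq (y j)) * nn w ^ ν) := by
  classical
  obtain ⟨C₀, hC₀, hint⟩ := exists_interp (ν := ν) t ht
  -- the constant for the coefficient `2 / (t i - t j)`
  obtain ⟨C₁, hC₁⟩ : BddAbove (Set.range fun x : Fin (5 * ν) × Fin (5 * ν) =>
      Complex.normSq (2 / (t x.1 - t x.2))) := (Set.finite_range _).bddAbove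
  set D : ℝ := max C₁ 1 with hD
  have hD0 : 0 < D := by positivity
  -- the constant for the Vandermonde determinants
  obtain ⟨C₂, hC₂⟩ : BddAbove (Set.range fun x : (Fin ν → Fin (5 * ν)) × (Fin ν → Fin (5 * ν)) =>
      (Complex.normSq ((Matrix.vandermonde (t ∘ x.1)).det *
        (Matrix.vandermonde (t ∘ x.2)).det))⁻¹) := (Set.finite_range _).bddAbove
  set V : ℝ := max C₂ 1 with hV
  have hV0 : 0 < V := by positivity
  set ε : ℝ := (C₀ * (5 * ν + 1) * (5 * ν + 1))⁻¹ with hε
  have hε0 : 0 < ε := by positivity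
  refine ⟨V * ((ν.factorial : ℝ) ^ 2 * (4 * D) ^ ν) * (ε⁻¹) ^ (3 * ν), by positivity,
    fun p q y w hp hq hy hw => ?_⟩
  by_cases hy0 : nn y = 0
  · rcases Nat.eq_zero_or_pos ν with h0 | h0
    · subst h0
      simp only [Matrix.det_fin_zero, map_one, mul_zero, pow_zero, mul_one, Nat.factorial_zero,
        Nat.cast_one, one_pow]
      have : (∏ j : Fin (5 * 0), Complex.normSq (y j)) = 1 := by simp
      rw [this, mul_one]
      exact le_max_right _ _
    · rw [hy0, zero_pow (by omega), mul_zero]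
      have h1 := prod_nonneg fun (j : Fin (5 * ν)) (_ : j ∈ univ) => Complex.normSq_nonneg (y j)
      have h2 := nn_nonneg w
      positivity
  have hyp : 0 < nn y := lt_of_le_of_ne (nn_nonneg y) (Ne.symm hy0)
  -- the small coordinates
  set Sm : Finset (Fin (5 * ν)) := univ.filter fun j => Complex.normSq (y j) < ε * nn y with hSm
  have hSmc : Sm.card ≤ ν := by
    by_contra hcon
    push Not at hcon
    obtain ⟨T, hTS, hT⟩ := exists_subset_card_eq (show ν + 1 ≤ Sm.card from hcon)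
    have h1 : ∑ i ∈ T, Complex.normSq (y i) ≤ (ν + 1) * (ε * nn y) := by
      have := sum_le_card_nsmul T (fun i => Complex.normSq (y i)) (ε * nn y)
        (fun i hi => (mem_filter.1 (hTS hi)).2.le)
      rw [hT, nsmul_eq_mul] at this
      exact_mod_cast this
    have h2 : nn y ≤ (5 * ν) * (C₀ * ((ν + 1) * (ε * nn y))) := by
      have := sum_le_card_nsmul univ (fun k => Complex.normSq (y k)) (C₀ * ((ν + 1) * (ε * nn y)))
        (fun k _ => (hint p y hy T hT k).trans (mul_le_mul_of_nonneg_left h1 hC₀.le))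
      rw [card_univ, Fintype.card_fin, nsmul_eq_mul] at this
      unfold nn at this ⊢
      exact_mod_cast this
    have h3 : (5 * (ν : ℝ)) * (C₀ * ((ν + 1) * (ε * nn y))) < nn y := by
      have h4 : (5 * (ν : ℝ)) * (C₀ * ((ν + 1) * (ε * nn y))) =
          (C₀ * (5 * ν) * (ν + 1) * ε) * nn y := by ring
      rw [h4]
      have h5 : C₀ * (5 * (ν : ℝ)) * (ν + 1) * ε < 1 := by
        rw [hε, ← div_eq_mul_inv, div_lt_one (by positivity)]
        have h6 : (0 : ℝ) ≤ ν := Nat.cast_nonneg _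
        have h7 : 5 * (ν : ℝ) * (ν + 1) < (5 * ν + 1) * (5 * ν + 1) := by nlinarith
        calc C₀ * (5 * (ν : ℝ)) * (ν + 1) = C₀ * (5 * (ν : ℝ) * (ν + 1)) := by ring
          _ < C₀ * ((5 * ν + 1) * (5 * ν + 1)) := mul_lt_mul_of_pos_left h7 hC₀
          _ = _ := by ring
      exact mul_lt_of_lt_one_left hyp h5
    exact absurd h2 (not_le.2 h3)
  obtain ⟨I', hSI, -, hI'⟩ := exists_subsuperset_card_eq (subset_univ Sm) hSmc
    (by rw [card_univ, Fintype.card_fin]; omega)
  obtain ⟨J', hJI, hJ'⟩ := exists_subset_card_eq (s := I'ᶜ) (n := ν)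
    (by rw [card_compl, hI', Fintype.card_fin]; omega)
  have hdisj : Disjoint I' J' := by
    rw [Finset.disjoint_left]
    intro a ha hb
    exact (mem_compl.1 (hJI hb)) ha
  set I : Fin ν → Fin (5 * ν) := fun i => I'.orderEmbOfFin hI' i with hI
  set J : Fin ν → Fin (5 * ν) := fun i => J'.orderEmbOfFin hJ' i with hJ
  have hIm : ∀ i, I i ∈ I' := fun i => orderEmbOfFin_mem I' hI' i
  have hJm : ∀ i, J i ∈ J' := fun i => orderEmbOfFin_mem J' hJ' i
  have hIinj : Function.Injective I := (I'.orderEmbOfFin hI').injective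
  have hJinj : Function.Injective J := (J'.orderEmbOfFin hJ').injective
  have hIJ : ∀ i j, I i ≠ J j := fun i j h => (Finset.disjoint_left.1 hdisj (hIm i)) (h ▸ hJm j)
  have hprodI : ∏ i, Complex.normSq (y (I i)) = ∏ j ∈ I', Complex.normSq (y j) := by
    rw [← prod_image (s := univ) (g := I) (f := fun j => Complex.normSq (y j))
      (fun a _ b _ h => hIinj h)]
    congr 1
    exact eq_of_subset_of_card_le (image_subset_iff.2 fun i _ => hIm i)
      (by rw [card_image_of_injective _ hIinj, card_univ, Fintype.card_fin, hI'])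
  have hprodJ : ∏ i, Complex.normSq (y (J i)) = ∏ j ∈ J', Complex.normSq (y j) := by
    rw [← prod_image (s := univ) (g := J) (f := fun j => Complex.normSq (y j))
      (fun a _ b _ h => hJinj h)]
    congr 1
    exact eq_of_subset_of_card_le (image_subset_iff.2 fun i _ => hJm i)
      (by rw [card_image_of_injective _ hJinj, card_univ, Fintype.card_fin, hJ'])
  -- the remaining product
  have hrest : (ε * nn y) ^ (3 * ν) * ((∏ j ∈ I', Complex.normSq (y j)) *
      ∏ j ∈ J', Complex.normSq (y j)) ≤ ∏ j, Complex.normSq (y j) := by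
    have h1 : ∏ j, Complex.normSq (y j) = (∏ j ∈ (I' ∪ J')ᶜ, Complex.normSq (y j)) *
        ((∏ j ∈ I', Complex.normSq (y j)) * ∏ j ∈ J', Complex.normSq (y j)) := by
      rw [← prod_union hdisj]
      exact (prod_mul_prod_compl (I' ∪ J') _).symm.trans (mul_comm _ _)
    rw [h1]
    refine mul_le_mul_of_nonneg_right ?_ (mul_nonneg
      (prod_nonneg fun _ _ => Complex.normSq_nonneg _)
      (prod_nonneg fun _ _ => Complex.normSq_nonneg _))
    have h2 : ((I' ∪ J')ᶜ).card = 3 * ν := by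
      rw [card_compl, card_union_of_disjoint hdisj, hI', hJ', Fintype.card_fin]; omega
    rw [← h2, ← prod_const]
    refine prod_le_prod (fun _ _ => by positivity) fun j hj => ?_
    by_contra hlt
    push Not at hlt
    exact (mem_compl.1 hj) (mem_union_left _ (hSI (mem_filter.2 ⟨mem_univ _, hlt⟩)))
  -- the determinant
  have hdet := det_bez_eq t ht hp hq hy hw I J hIJ
  set m : Matrix (Fin ν) (Fin ν) ℂ := Matrix.of fun i j : Fin ν =>
        2 * (y (I i) * w (J j) - y (J j) * w (I i)) / (t (I i) - t (J j)) with hm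
  have hentry : ∀ i j, ‖m i j‖ ≤ Real.sqrt (4 * D * (nn y * nn w)) := by
    intro i j
    rw [← Real.sqrt_sq (norm_nonneg (m i j)), ← Complex.normSq_eq_norm_sq]
    apply Real.sqrt_le_sqrt
    have h1 : m i j = (2 / (t (I i) - t (J j))) * (y (I i) * w (J j) - y (J j) * w (I i)) := by
      rw [hm, Matrix.of_apply]; ring
    rw [h1, Complex.normSq_mul]
    calc Complex.normSq (2 / (t (I i) - t (J j))) *
          Complex.normSq (y (I i) * w (J j) - y (J j) * w (I i))
        ≤ D * (4 * (nn y * nn w)) := by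
          refine mul_le_mul ?_ (normSq_wr_le y w _ _) (Complex.normSq_nonneg _) hD0.le
          exact (hC₁ ⟨(I i, J j), rfl⟩).trans (le_max_left _ _)
      _ = 4 * D * (nn y * nn w) := by ring
  have hnd : Complex.normSq m.det ≤
      (ν.factorial : ℝ) ^ 2 * (4 * D * (nn y * nn w)) ^ ν := by
    have h1 := Matrix.det_le (A := m) (abv := NormedField.toAbsoluteValue ℂ)
      (x := Real.sqrt (4 * D * (nn y * nn w))) hentry
    have h1' : ‖m.det‖ ≤ (ν.factorial : ℝ) * Real.sqrt (4 * D * (nn y * nn w)) ^ ν := by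
      rw [nsmul_eq_mul, Fintype.card_fin] at h1
      exact h1
    rw [Complex.normSq_eq_norm_sq]
    have h2 := pow_le_pow_left₀ (norm_nonneg _) h1' 2
    refine h2.trans (le_of_eq ?_)
    rw [mul_pow, ← pow_mul, mul_comm ν 2, pow_mul, Real.sq_sqrt]
    have := nn_nonneg w
    positivity
  have hVIJ : (Matrix.vandermonde (t ∘ I)).det * (Matrix.vandermonde (t ∘ J)).det ≠ 0 :=
    mul_ne_zero (Matrix.det_vandermonde_ne_zero_iff.2 (ht.comp hIinj))
      (Matrix.det_vandermonde_ne_zero_iff.2 (ht.comp hJinj))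
  have hVle : 1 ≤ V * Complex.normSq
      ((Matrix.vandermonde (t ∘ I)).det * (Matrix.vandermonde (t ∘ J)).det) := by
    have h1 := (hC₂ ⟨(I, J), rfl⟩).trans (le_max_left C₂ 1)
    have h2 := Complex.normSq_pos.2 hVIJ
    rw [← inv_mul_cancel₀ h2.ne']
    exact mul_le_mul_of_nonneg_right h1 h2.le
  have hmain : Complex.normSq (bez ν p q).det ≤ V * ((∏ j ∈ I', Complex.normSq (y j)) *
      ((∏ j ∈ J', Complex.normSq (y j)) *
        ((ν.factorial : ℝ) ^ 2 * (4 * D * (nn y * nn w)) ^ ν))) := by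
    have h1 := congrArg Complex.normSq hdet
    simp only [Complex.normSq_mul, map_prod] at h1
    rw [hprodI, hprodJ] at h1
    have h2 : Complex.normSq (bez ν p q).det ≤ (V * Complex.normSq
      ((Matrix.vandermonde (t ∘ I)).det * (Matrix.vandermonde (t ∘ J)).det)) *
        Complex.normSq (bez ν p q).det :=
      le_mul_of_one_le_left (Complex.normSq_nonneg _) hVle
    refine h2.trans ?_
    rw [Complex.normSq_mul, mul_assoc]
    refine mul_le_mul_of_nonneg_left ?_ hV0.le
    calc _ = Complex.normSq (Matrix.vandermonde (t ∘ I)).det *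
          Complex.normSq (bez ν p q).det * Complex.normSq (Matrix.vandermonde (t ∘ J)).det := by
            ring
      _ = _ := h1
      _ ≤ _ := by
        refine mul_le_mul_of_nonneg_left ?_ (prod_nonneg fun _ _ => Complex.normSq_nonneg _)
        exact mul_le_mul_of_nonneg_left hnd (prod_nonneg fun _ _ => Complex.normSq_nonneg _)
  have hwn := nn_nonneg w
  calc Complex.normSq (bez ν p q).det * nn y ^ (2 * ν)
      ≤ (V * ((∏ j ∈ I', Complex.normSq (y j)) *
      ((∏ j ∈ J', Complex.normSq (y j)) *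
        ((ν.factorial : ℝ) ^ 2 * (4 * D * (nn y * nn w)) ^ ν)))) * nn y ^ (2 * ν) :=
        mul_le_mul_of_nonneg_right hmain (by positivity)
    _ = V * ((ν.factorial : ℝ) ^ 2 * (4 * D) ^ ν) * ε⁻¹ ^ (3 * ν) *
          (((ε * nn y) ^ (3 * ν) * ((∏ j ∈ I', Complex.normSq (y j)) *
            ∏ j ∈ J', Complex.normSq (y j))) * nn w ^ ν) := by
        have h1 : ε⁻¹ ^ (3 * ν) * (ε * nn y) ^ (3 * ν) = nn y ^ (3 * ν) := by
          rw [← mul_pow, ← mul_assoc, inv_mul_cancel₀ hε0.ne', one_mul]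
        have h2 : nn y ^ (3 * ν) = nn y ^ ν * nn y ^ (2 * ν) := by
          rw [← pow_add]; congr 1; ring
        rw [mul_pow (4 * D), mul_pow (nn y)]
        calc _ = V * ((ν.factorial : ℝ) ^ 2 * (4 * D) ^ ν) * (nn y ^ ν * nn y ^ (2 * ν)) *
            (((∏ j ∈ I', Complex.normSq (y j)) *
            ∏ j ∈ J', Complex.normSq (y j)) * nn w ^ ν) := by ring
          _ = _ := by rw [← h2, ← h1]; ring
    _ ≤ _ := by
        refine mul_le_mul_of_nonneg_left ?_ (by positivity)
        exact mul_le_mul_of_nonneg_right hrest (by positivity)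

end Pool.Agent.Work.MP_f82ddf_nt.DQ
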