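import Pool.Agent.Work.MP_f82ddf_nt.DQ.AL1

/-!
# A Schwarz lemma of Ahlfors type by four-point averages
-/

open Finset Topology Filter

namespace Pool.Agent.Work.MP_f82ddf_nt.DQ

theorem four_identity (a b c₀ c₁ c₂ c₃ : ℂ) (ε : ℝ) :
    Complex.normSq (a + ε * b + ε ^ 2 * c₀) +
      Complex.normSq (a + Complex.I * ε * b + (Complex.I * ε) ^ 2 * c₁) +
      Complex.normSq (a + (-1) * ε * b + ((-1) * ε) ^ 2 * c₂) +
      Complex.normSq (a + (-Complex.I) * ε * b + ((-Complex.I) * ε) ^ 2 * c₃) =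
    4 * Complex.normSq a + ε ^ 2 * (4 * Complex.normSq b +
      (2 * (starRingEnd ℂ a * (c₀ - c₁ + c₂ - c₃)).re +
        2 * ε * (starRingEnd ℂ b * (c₀ + Complex.I * c₁ - c₂ - Complex.I * c₃)).re +
        ε ^ 2 * (Complex.normSq c₀ + Complex.normSq c₁ + Complex.normSq c₂ +
          Complex.normSq c₃))) := by
  simp only [Complex.normSq_apply, Complex.add_re, Complex.add_im, Complex.mul_re, Complex.mul_im,
    Complex.sub_re, Complex.sub_im, Complex.neg_re, Complex.neg_im, Complex.I_re, Complex.I_im,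
    Complex.ofReal_re, Complex.ofReal_im, pow_two, Complex.conj_re, Complex.conj_im,
    Complex.one_re, Complex.one_im]
  ring

/-- The second order Taylor formula. -/
theorem exists_taylor {f : ℂ → ℂ} {z₀ : ℂ} (hf : AnalyticAt ℂ f z₀) :
    ∃ χ : ℂ → ℂ, ContinuousAt χ z₀ ∧
      ∀ z, f z = f z₀ + (z - z₀) * deriv f z₀ + (z - z₀) ^ 2 * χ z := by
  obtain ⟨p, hp⟩ := hf
  have h1 : AnalyticAt ℂ (dslope f z₀) z₀ := hp.has_fpower_series_dslope_fslope.analyticAt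
  refine ⟨dslope (dslope f z₀) z₀, continuousAt_dslope_same.2 h1.differentiableAt, fun z => ?_⟩
  have h2 := sub_smul_dslope f z₀ z
  have h3 := sub_smul_dslope (dslope f z₀) z₀ z
  rw [dslope_same] at h3
  simp only [smul_eq_mul] at h2 h3
  linear_combination -h2 - (z - z₀) * h3

/-- Four-point averages bound the derivative. -/
theorem avg_bound {ι : Type*} [Fintype ι] {ψ : ι → ℂ → ℂ} {z₀ : ℂ}
    (hψ : ∀ j, AnalyticAt ℂ (ψ j) z₀) {G : ℂ → ℝ} (hG : ContinuousAt G z₀)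
    (h : ∀ᶠ z in 𝓝 z₀, nn (fun j => ψ j z) ≤ nn (fun j => ψ j z₀) + ‖z - z₀‖ ^ 2 * G z) :
    nn (fun j => deriv (ψ j) z₀) ≤ G z₀ := by
  choose χ hχ hχe using fun j => exists_taylor (hψ j)
  -- the four points tend to `z₀`
  have hpt : ∀ u : ℂ, Tendsto (fun ε : ℝ => z₀ + u * ε) (𝓝[>] 0) (𝓝 z₀) := by
    intro u
    have h1 : Continuous fun ε : ℝ => z₀ + u * (ε : ℂ) := by fun_prop
    have h2 := h1.tendsto 0
    simp only [Complex.ofReal_zero, mul_zero, add_zero] at h2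
    exact h2.mono_left nhdsWithin_le_nhds
  have hε : Tendsto (fun ε : ℝ => ε) (𝓝[>] (0 : ℝ)) (𝓝 0) := tendsto_id.mono_left nhdsWithin_le_nhds
  -- the error term
  set E : ι → ℝ → ℝ := fun j ε =>
    2 * (starRingEnd ℂ (ψ j z₀) * (χ j (z₀ + 1 * ε) - χ j (z₀ + Complex.I * ε) +
      χ j (z₀ + (-1) * ε) - χ j (z₀ + (-Complex.I) * ε))).re +
    2 * ε * (starRingEnd ℂ (deriv (ψ j) z₀) * (χ j (z₀ + 1 * ε) +
      Complex.I * χ j (z₀ + Complex.I * ε) - χ j (z₀ + (-1) * ε) -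
      Complex.I * χ j (z₀ + (-Complex.I) * ε))).re +
    ε ^ 2 * (Complex.normSq (χ j (z₀ + 1 * ε)) + Complex.normSq (χ j (z₀ + Complex.I * ε)) +
      Complex.normSq (χ j (z₀ + (-1) * ε)) + Complex.normSq (χ j (z₀ + (-Complex.I) * ε)))
    with hE
  have hE0 : ∀ j, Tendsto (E j) (𝓝[>] 0) (𝓝 0) := by
    intro j
    have hc : ∀ u : ℂ, Tendsto (fun ε : ℝ => χ j (z₀ + u * ε)) (𝓝[>] 0) (𝓝 (χ j z₀)) :=
      fun u => (hχ j).tendsto.comp (hpt u)
    have h0 := hc 1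
    have h1 := hc Complex.I
    have h2 := hc (-1)
    have h3 := hc (-Complex.I)
    have hre : ∀ {F : ℝ → ℂ} {a : ℂ}, Tendsto F (𝓝[>] 0) (𝓝 a) →
        Tendsto (fun ε => (F ε).re) (𝓝[>] 0) (𝓝 a.re) := fun hF =>
      (Complex.continuous_re.tendsto _).comp hF
    have hns : ∀ {F : ℝ → ℂ} {a : ℂ}, Tendsto F (𝓝[>] 0) (𝓝 a) →
        Tendsto (fun ε => Complex.normSq (F ε)) (𝓝[>] 0) (𝓝 (Complex.normSq a)) := fun hF =>
      (Complex.continuous_normSq.tendsto _).comp hF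
    have h4 := (hre ((((h0.sub h1).add h2).sub h3).const_mul
      (starRingEnd ℂ (ψ j z₀)))).const_mul 2
    have h5 := (hε.const_mul 2).mul (hre ((((h0.add (h1.const_mul Complex.I)).sub h2).sub
      (h3.const_mul Complex.I)).const_mul (starRingEnd ℂ (deriv (ψ j) z₀))))
    have h6 := (hε.pow 2).mul ((((hns h0).add (hns h1)).add (hns h2)).add (hns h3))
    have h7 := (h4.add h5).add h6
    have h8 : χ j z₀ - χ j z₀ + χ j z₀ - χ j z₀ = 0 := by ring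
    rw [h8] at h7
    simp only [mul_zero, Complex.zero_re, zero_mul, add_zero, ne_eq, OfNat.ofNat_ne_zero,
      not_false_eq_true, zero_pow] at h7
    exact h7
  have hkey : ∀ᶠ ε : ℝ in 𝓝[>] 0, 4 * nn (fun j => deriv (ψ j) z₀) + ∑ j, E j ε ≤
      G (z₀ + 1 * ε) + G (z₀ + Complex.I * ε) + G (z₀ + (-1) * ε) +
        G (z₀ + (-Complex.I) * ε) := by
    filter_upwards [(hpt 1).eventually h, (hpt Complex.I).eventually h, (hpt (-1)).eventually h,
      (hpt (-Complex.I)).eventually h, self_mem_nhdsWithin] with ε h0 h1 h2 h3 hpos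
    have hpos' : (0 : ℝ) < ε := hpos
    have hn : ∀ u : ℂ, ‖u‖ = 1 → ‖z₀ + u * ε - z₀‖ ^ 2 = ε ^ 2 := by
      intro u hu
      rw [add_sub_cancel_left, norm_mul, hu, one_mul, Complex.norm_real, Real.norm_eq_abs, sq_abs]
    rw [hn 1 (by simp)] at h0
    rw [hn Complex.I (by simp)] at h1
    rw [hn (-1) (by simp)] at h2
    rw [hn (-Complex.I) (by simp)] at h3
    have hsum : nn (fun j => ψ j (z₀ + 1 * ε)) + nn (fun j => ψ j (z₀ + Complex.I * ε)) +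
        nn (fun j => ψ j (z₀ + (-1) * ε)) + nn (fun j => ψ j (z₀ + (-Complex.I) * ε)) =
        4 * nn (fun j => ψ j z₀) + ε ^ 2 * (4 * nn (fun j => deriv (ψ j) z₀) + ∑ j, E j ε) := by
      unfold nn
      rw [← sum_add_distrib, ← sum_add_distrib, ← sum_add_distrib, mul_sum, mul_sum,
        ← sum_add_distrib, mul_sum, ← sum_add_distrib]
      refine sum_congr rfl fun j _ => ?_
      have h4 := four_identity (ψ j z₀) (deriv (ψ j) z₀) (χ j (z₀ + 1 * ε))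
        (χ j (z₀ + Complex.I * ε)) (χ j (z₀ + (-1) * ε)) (χ j (z₀ + (-Complex.I) * ε)) ε
      rw [hE]
      simp only
      rw [← h4, hχe j (z₀ + 1 * ε), hχe j (z₀ + Complex.I * ε), hχe j (z₀ + (-1) * ε),
        hχe j (z₀ + (-Complex.I) * ε)]
      simp only [add_sub_cancel_left, one_mul]
    have h5 : ε ^ 2 * (4 * nn (fun j => deriv (ψ j) z₀) + ∑ j, E j ε) ≤
        ε ^ 2 * (G (z₀ + 1 * ε) + G (z₀ + Complex.I * ε) + G (z₀ + (-1) * ε) +
        G (z₀ + (-Complex.I) * ε)) := by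
      linarith
    exact le_of_mul_le_mul_left h5 (by positivity)
  have hGl : ∀ u : ℂ, Tendsto (fun ε : ℝ => G (z₀ + u * ε)) (𝓝[>] 0) (𝓝 (G z₀)) :=
    fun u => hG.tendsto.comp (hpt u)
  have h1 := ((((hGl 1).add (hGl Complex.I)).add (hGl (-1))).add (hGl (-Complex.I)))
  have h2 : Tendsto (fun ε : ℝ => 4 * nn (fun j => deriv (ψ j) z₀) + ∑ j, E j ε) (𝓝[>] 0)
      (𝓝 (4 * nn (fun j => deriv (ψ j) z₀) + ∑ j : ι, (0 : ℝ))) :=
    tendsto_const_nhds.add (tendsto_finsetSum _ fun j _ => hE0 j)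
  have h3 := le_of_tendsto_of_tendsto h2 h1 hkey
  simp only [sum_const_zero, add_zero] at h3
  linarith

/-- The Schwarz lemma at a maximum. -/
theorem schwarz_max {ι : Type*} [Fintype ι] {φ : ι → ℂ → ℂ} {z₀ : ℂ} {ρ : ℝ} (hz : ‖z₀‖ < ρ)
    (hφ : ∀ j, AnalyticAt ℂ (φ j) z₀)
    (hmax : ∀ᶠ z in 𝓝 z₀, nn (fun j => φ j z) * (ρ ^ 2 - ‖z‖ ^ 2) ^ 2 ≤
      nn (fun j => φ j z₀) * (ρ ^ 2 - ‖z₀‖ ^ 2) ^ 2) :
    ∃ m : ℂ → ℂ, AnalyticAt ℂ m z₀ ∧ m z₀ = 1 ∧
      nn (fun j => deriv (fun z => m z * φ j z) z₀) * (ρ ^ 2 - ‖z₀‖ ^ 2) ^ 2 ≤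
        2 * ρ ^ 2 * nn (fun j => φ j z₀) := by
  have hρ : 0 < ρ := lt_of_le_of_lt (norm_nonneg _) hz
  set A : ℝ := ρ ^ 2 - ‖z₀‖ ^ 2 with hA
  have hA0 : 0 < A := by
    have h1 := norm_nonneg z₀
    rw [hA]
    nlinarith
  have hAc : (A : ℂ) ≠ 0 := by exact_mod_cast hA0.ne'
  have hAe : (ρ : ℂ) ^ 2 - starRingEnd ℂ z₀ * z₀ = A := by
    rw [mul_comm, Complex.mul_conj, hA, Complex.normSq_eq_norm_sq]
    push_cast
    ring
  set μ : ℂ → ℂ := fun z => ((ρ : ℂ) ^ 2 - starRingEnd ℂ z₀ * z) / A with hμ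
  have hμa : AnalyticAt ℂ μ z₀ := by
    rw [hμ]
    fun_prop (disch := assumption)
  have hμ1 : μ z₀ = 1 := by
    rw [hμ]
    simp only
    rw [hAe, div_self hAc]
  -- the identity for the norm of `μ`
  have hid : ∀ z, Complex.normSq (μ z) =
      (A * (ρ ^ 2 - ‖z‖ ^ 2) + ρ ^ 2 * ‖z - z₀‖ ^ 2) / A ^ 2 := by
    intro z
    rw [hμ]
    simp only
    rw [Complex.normSq_div, Complex.normSq_ofReal, hA, ← Complex.normSq_eq_norm_sq,
      ← Complex.normSq_eq_norm_sq, ← Complex.normSq_eq_norm_sq, ← pow_two]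
    congr 1
    simp only [Complex.normSq_apply, Complex.sub_re, Complex.sub_im, Complex.mul_re,
      Complex.mul_im, Complex.conj_re, Complex.conj_im, pow_two, Complex.ofReal_re,
      Complex.ofReal_im]
    ring
  refine ⟨fun z => μ z ^ 2, hμa.pow 2, by simp [hμ1], ?_⟩
  set G : ℂ → ℝ := fun z => nn (fun j => φ j z) *
    ((2 * A * (ρ ^ 2 - ‖z‖ ^ 2) * ρ ^ 2 + ρ ^ 4 * ‖z - z₀‖ ^ 2) / A ^ 4) with hG
  have hnnc : ContinuousAt (fun z => nn (fun j => φ j z)) z₀ := by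
    unfold nn
    apply tendsto_finsetSum
    intro j _
    exact (Complex.continuous_normSq.continuousAt).comp (hφ j).continuousAt
  have hGc : ContinuousAt G z₀ := by
    rw [hG]
    refine hnnc.mul ?_
    exact Continuous.continuousAt (by fun_prop)
  have hG0 : G z₀ = nn (fun j => φ j z₀) * (2 * ρ ^ 2) / A ^ 2 := by
    rw [hG]
    simp only [sub_self, norm_zero]
    rw [← hA]
    field_simp
    ring
  have hψ : ∀ j, AnalyticAt ℂ (fun z => μ z ^ 2 * φ j z) z₀ := fun j => (hμa.pow 2).mul (hφ j)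
  have hnψ : ∀ z, nn (fun j => μ z ^ 2 * φ j z) = Complex.normSq (μ z) ^ 2 *
      nn (fun j => φ j z) := by
    intro z
    rw [nn_smul, map_pow]
  have hbound := avg_bound hψ hGc (by
    filter_upwards [hmax] with z hzm
    rw [hnψ, hnψ, hμ1, Complex.normSq_one, one_pow, one_mul, hid]
    have h1 : ((A * (ρ ^ 2 - ‖z‖ ^ 2) + ρ ^ 2 * ‖z - z₀‖ ^ 2) / A ^ 2) ^ 2 *
        nn (fun j => φ j z) = nn (fun j => φ j z) * (ρ ^ 2 - ‖z‖ ^ 2) ^ 2 / A ^ 2 +
          ‖z - z₀‖ ^ 2 * G z := by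
      rw [hG]
      simp only
      field_simp
      ring
    rw [h1]
    refine add_le_add_left ?_ _
    rw [div_le_iff₀ (by positivity)]
    exact hzm)
  rw [hG0] at hbound
  rw [le_div_iff₀ (by positivity)] at hbound
  linarith

end Pool.Agent.Work.MP_f82ddf_nt.DQ
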