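import Pool.Agent.Work.MP_f82ddf_nt.DQ.AL2
import Pool.Agent.Work.MP_f82ddf_nt.Brody.Local

/-!
# Local lifts and the invariant density
-/

open Finset Topology Filter

namespace Pool.Agent.Work.MP_f82ddf_nt.DQ

/-- The functions `y`, `g` are a local lift of `s`, `δ` at `z₀`. -/
def IsL {n : ℕ} (ν : ℕ) (s : Fin n → ℂ → ℂ) (δ : ℂ → ℂ) (y : Fin n → ℂ → ℂ) (g : ℂ → ℂ)
    (z₀ : ℂ) : Prop :=
  (∀ j, AnalyticAt ℂ (y j) z₀) ∧ AnalyticAt ℂ g z₀ ∧ ∃ l : ℂ → ℂ,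
    ∀ᶠ z in 𝓝[≠] z₀, AnalyticAt ℂ l z ∧ l z ≠ 0 ∧ (∀ j, y j z = l z * s j z) ∧
      g z * l z ^ ν = δ z

/-- The invariant density. -/
noncomputable def WW {n : ℕ} (ν : ℕ) (s : Fin n → ℂ → ℂ) (δ : ℂ → ℂ) (z₀ : ℂ) : ℝ :=
  limUnder (𝓝[≠] z₀) fun z => Complex.normSq (δ z) * nn (fun j => s j z) ^ ν

theorem nn_continuousAt {n : ℕ} {y : Fin n → ℂ → ℂ} {z₀ : ℂ}
    (hy : ∀ j, ContinuousAt (y j) z₀) : ContinuousAt (fun z => nn (fun j => y j z)) z₀ := by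
  unfold nn
  apply tendsto_finsetSum
  intro j _
  exact (Complex.continuous_normSq.continuousAt).comp (hy j)

theorem ev_ev' {P : ℂ → Prop} {z₀ : ℂ} (h : ∀ᶠ z in 𝓝[≠] z₀, P z) :
    ∀ᶠ z in 𝓝 z₀, ∀ᶠ y in 𝓝[≠] z, P y := by
  have h1 := ev_ev h
  rw [eventually_nhdsWithin_iff] at h1
  filter_upwards [h1] with z hz
  by_cases h2 : z = z₀
  · rw [h2]; exact h
  · exact nhdsWithin_le_nhds (hz h2)

theorem IsL.mul {n ν : ℕ} {s : Fin n → ℂ → ℂ} {δ : ℂ → ℂ} {y : Fin n → ℂ → ℂ} {g : ℂ → ℂ}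
    {z₀ : ℂ} (h : IsL ν s δ y g z₀) {m : ℂ → ℂ} (hm : AnalyticAt ℂ m z₀) (hm0 : m z₀ ≠ 0) :
    IsL ν s δ (fun j z => m z * y j z) (fun z => g z / m z ^ ν) z₀ := by
  obtain ⟨h1, h2, l, hl⟩ := h
  refine ⟨fun j => hm.mul (h1 j), h2.div (hm.pow ν) (pow_ne_zero _ hm0), fun z => m z * l z, ?_⟩
  have h3 : ∀ᶠ z in 𝓝[≠] z₀, AnalyticAt ℂ m z :=
    nhdsWithin_le_nhds hm.eventually_analyticAt
  have h4 : ∀ᶠ z in 𝓝[≠] z₀, m z ≠ 0 :=
    nhdsWithin_le_nhds (hm.continuousAt.eventually_ne hm0)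
  filter_upwards [hl, h3, h4] with z hz h3 h4
  obtain ⟨a1, a2, a3, a4⟩ := hz
  refine ⟨h3.mul a1, mul_ne_zero h4 a2, fun j => ?_, ?_⟩
  · rw [a3 j]; ring
  · rw [← a4, mul_pow]
    field_simp

theorem IsL.ww_eq {n ν : ℕ} {s : Fin n → ℂ → ℂ} {δ : ℂ → ℂ} {y : Fin n → ℂ → ℂ} {g : ℂ → ℂ}
    {z₀ : ℂ} (h : IsL ν s δ y g z₀) :
    ∀ᶠ z in 𝓝 z₀, WW ν s δ z = Complex.normSq (g z) * nn (fun j => y j z) ^ ν := by
  obtain ⟨h1, h2, l, hl⟩ := h
  have h3 : ∀ᶠ z in 𝓝[≠] z₀, Complex.normSq (δ z) * nn (fun j => s j z) ^ ν =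
      Complex.normSq (g z) * nn (fun j => y j z) ^ ν := by
    filter_upwards [hl] with z hz
    obtain ⟨a1, a2, a3, a4⟩ := hz
    have h5 : nn (fun j => y j z) = Complex.normSq (l z) * nn (fun j => s j z) := by
      rw [← nn_smul]
      congr 1
      exact funext a3
    rw [h5, ← a4, Complex.normSq_mul, mul_pow, map_pow]
    ring
  have h4 : ∀ᶠ z in 𝓝 z₀, ∀ j, AnalyticAt ℂ (y j) z :=
    eventually_all.2 fun j => (h1 j).eventually_analyticAt
  filter_upwards [ev_ev' h3, h2.eventually_analyticAt, h4] with z hz1 hz2 hz3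
  have h5 : ContinuousAt (fun z => Complex.normSq (g z) * nn (fun j => y j z) ^ ν) z :=
    ((Complex.continuous_normSq.continuousAt).comp hz2.continuousAt).mul
      ((nn_continuousAt fun j => (hz3 j).continuousAt).pow ν)
  have h6 : Tendsto (fun z => Complex.normSq (δ z) * nn (fun j => s j z) ^ ν) (𝓝[≠] z)
      (𝓝 (Complex.normSq (g z) * nn (fun j => y j z) ^ ν)) := by
    refine Tendsto.congr' ?_ (h5.tendsto.mono_left nhdsWithin_le_nhds)
    filter_upwards [hz1] with w hw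
    exact hw.symm
  exact h6.limUnder_eq

section

variable {ν : ℕ} {t : Fin (5 * ν) → ℂ} {r : ℕ → ℂ → ℂ} {s : Fin (5 * ν) → ℂ → ℂ}

/-- The Bezout determinant divided by the product of the square roots. -/
noncomputable def dl (ν : ℕ) (r : ℕ → ℂ → ℂ) (s : Fin (5 * ν) → ℂ → ℂ) (z : ℂ) : ℂ :=
  (bez ν (fun i => r i z) (fun i => deriv (r i) z)).det / ∏ j, s j z

/-- The inequality at a generic point. -/
theorem bound_generic {C : ℝ}
    (hC : ∀ (p q : ℕ → ℂ) (y w : Fin (5 * ν) → ℂ), (∀ j, ν < j → p j = 0) →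
      (∀ j, ν < j → q j = 0) → (∀ j, ∑ i ∈ range (ν + 1), p i * t j ^ i = y j ^ 2) →
      (∀ j, ∑ i ∈ range (ν + 1), q i * t j ^ i = 2 * y j * w j) →
        Complex.normSq (bez ν p q).det * nn y ^ (2 * ν) ≤
          C * ((∏ j, Complex.normSq (y j)) * nn w ^ ν))
    (hr0 : ∀ i, ν < i → r i = fun _ => 0) {z : ℂ} (hr : ∀ i, AnalyticAt ℂ (r i) z)
    (hs : ∀ j, AnalyticAt ℂ (s j) z) (hs0 : ∀ j, s j z ≠ 0)
    (hrel : ∀ᶠ w in 𝓝 z, ∀ j, ∑ i ∈ range (ν + 1), r i w * t j ^ i = s j w ^ 2)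
    {l : ℂ → ℂ} (hl : AnalyticAt ℂ l z) (hl0 : l z ≠ 0) {y : Fin (5 * ν) → ℂ → ℂ}
    (hy : ∀ᶠ w in 𝓝 z, ∀ j, y j w = l w * s j w) {g : ℂ} (hg : g * l z ^ ν = dl ν r s z) :
    Complex.normSq g * nn (fun j => y j z) ^ (2 * ν) ≤ C * nn (fun j => deriv (y j) z) ^ ν := by
  have hyd : ∀ j, (y j) =ᶠ[𝓝 z] fun w => l w * s j w := fun j => hy.mono fun w hw => hw j
  have hya : ∀ j, AnalyticAt ℂ (y j) z := fun j => (hl.mul (hs j)).congr (hyd j).symm
  have hpa : ∀ i, AnalyticAt ℂ (fun w => l w ^ 2 * r i w) z := fun i => (hl.pow 2).mul (hr i)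
  have hder : ∀ i, deriv (fun w => l w ^ 2 * r i w) z =
      l z ^ 2 * deriv (r i) z + 2 * l z * deriv l z * r i z := by
    intro i
    have h1 := ((hl.differentiableAt.hasDerivAt.pow 2).mul (hr i).differentiableAt.hasDerivAt)
    have h2 := h1.deriv
    simp only [Nat.cast_ofNat, Nat.add_one_sub_one, pow_one] at h2
    have h3 : (l ^ 2 * r i) = fun w => l w ^ 2 * r i w := rfl
    rw [h3] at h2
    rw [h2]
    simp only [Pi.pow_apply]
    ring
  have h1 := hC (fun i => l z ^ 2 * r i z) (fun i => deriv (fun w => l w ^ 2 * r i w) z)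
    (fun j => y j z) (fun j => deriv (y j) z)
    (fun j hj => by simp only [hr0 j hj, mul_zero])
    (fun j hj => by simp only [hr0 j hj, mul_zero, deriv_const])
    (fun j => by
      rw [(hyd j).self_of_nhds, mul_pow, ← (hrel.self_of_nhds j), mul_sum]
      exact sum_congr rfl fun i _ => by ring)
    (fun j => by
      have h2 : (fun w => ∑ i ∈ range (ν + 1), (l w ^ 2 * r i w) * t j ^ i) =ᶠ[𝓝 z]
          fun w => y j w ^ 2 := by
        filter_upwards [hrel, hyd j] with w h3 h4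
        rw [h4, mul_pow, ← h3 j, mul_sum]
        exact sum_congr rfl fun i _ => by ring
      have h3 := h2.deriv_eq
      rw [deriv_fun_sum (fun i _ => ((hpa i).differentiableAt.mul_const _))] at h3
      have h4 : deriv (fun w => y j w ^ 2) z = 2 * y j z * deriv (y j) z := by
        have h5 := ((hya j).differentiableAt.hasDerivAt.pow 2).deriv
        simp only [Nat.cast_ofNat, Nat.add_one_sub_one, pow_one] at h5
        exact h5
      rw [← h4, ← h3]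
      refine sum_congr rfl fun i _ => ?_
      rw [deriv_mul_const (hpa i).differentiableAt])
  have h2 : (bez ν (fun i => l z ^ 2 * r i z) (fun i => deriv (fun w => l w ^ 2 * r i w) z)) =
      (l z ^ 2) ^ 2 • bez ν (fun i => r i z) (fun i => deriv (r i) z) := by
    rw [← bez_scale ν (fun i => r i z) (fun i => deriv (r i) z) (l z ^ 2)
      (2 * l z * deriv l z)]
    congr 1
    exact funext hder
  have hPs : (∏ j, s j z) ≠ 0 := prod_ne_zero_iff.2 fun j _ => hs0 j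
  have hPy : (∏ j, y j z) = l z ^ (5 * ν) * ∏ j, s j z := by
    rw [prod_congr rfl fun j _ => (hyd j).self_of_nhds, prod_mul_distrib, prod_const, card_univ,
      Fintype.card_fin]
  have h3 : (bez ν (fun i => l z ^ 2 * r i z)
      (fun i => deriv (fun w => l w ^ 2 * r i w) z)).det = g * ∏ j, y j z := by
    rw [h2, Matrix.det_smul, Fintype.card_fin, hPy]
    unfold dl at hg
    rw [eq_div_iff hPs] at hg
    rw [← hg]
    ring
  rw [h3, Complex.normSq_mul, map_prod] at h1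
  have h4 : 0 < ∏ j, Complex.normSq (y j z) := by
    refine prod_pos fun j _ => Complex.normSq_pos.2 ?_
    rw [(hyd j).self_of_nhds]
    exact mul_ne_zero hl0 (hs0 j)
  refine le_of_mul_le_mul_left ?_ h4
  linarith

/-- The hypotheses which hold near every point. -/
structure Data (ν : ℕ) (t : Fin (5 * ν) → ℂ) (r : ℕ → ℂ → ℂ) (s : Fin (5 * ν) → ℂ → ℂ) :
    Prop where
  mr : ∀ i z, MeromorphicAt (r i) z
  ms : ∀ j z, MeromorphicAt (s j) z
  zr : ∀ i, ν < i → r i = fun _ => 0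
  rel : ∀ j z₀, ∀ᶠ z in 𝓝[≠] z₀, ∑ i ∈ range (ν + 1), r i z * t j ^ i = s j z ^ 2
  ne : ∀ j z₀, ∀ᶠ z in 𝓝[≠] z₀, s j z ≠ 0

theorem Data.generic (D : Data ν t r s) (z₀ : ℂ) : ∀ᶠ z in 𝓝[≠] z₀,
    (∀ i, AnalyticAt ℂ (r i) z) ∧ (∀ j, AnalyticAt ℂ (s j) z) ∧ (∀ j, s j z ≠ 0) ∧
      ∀ᶠ w in 𝓝 z, ∀ j, ∑ i ∈ range (ν + 1), r i w * t j ^ i = s j w ^ 2 := by
  have h1 : ∀ᶠ z in 𝓝[≠] z₀, ∀ i ∈ range (ν + 1), AnalyticAt ℂ (r i) z :=
    (eventually_all_finset _).2 fun i _ => (D.mr i z₀).eventually_analyticAt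
  have h2 : ∀ᶠ z in 𝓝[≠] z₀, ∀ j, AnalyticAt ℂ (s j) z :=
    eventually_all.2 fun j => (D.ms j z₀).eventually_analyticAt
  have h3 : ∀ᶠ z in 𝓝[≠] z₀, ∀ j, s j z ≠ 0 := eventually_all.2 fun j => D.ne j z₀
  have h4 : ∀ᶠ z in 𝓝[≠] z₀, ∀ j, ∑ i ∈ range (ν + 1), r i z * t j ^ i = s j z ^ 2 :=
    eventually_all.2 fun j => D.rel j z₀
  filter_upwards [h1, h2, h3, ev_ev h4] with z a1 a2 a3 a4
  refine ⟨fun i => ?_, a2, a3, a4⟩
  by_cases hi : ν < i
  · rw [D.zr i hi]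
    exact analyticAt_const
  · exact a1 i (mem_range.2 (by omega))

theorem det_meromorphicAt {N : ℕ} {M : ℂ → Matrix (Fin N) (Fin N) ℂ} {z : ℂ}
    (hM : ∀ i j, MeromorphicAt (fun z => M z i j) z) : MeromorphicAt (fun z => (M z).det) z := by
  simp only [Matrix.det_apply']
  apply MeromorphicAt.fun_sum
  intro σ _
  exact (MeromorphicAt.const _ z).fun_mul (MeromorphicAt.fun_prod fun i _ => hM _ _)

theorem Data.dl_mero (D : Data ν t r s) (z₀ : ℂ) : MeromorphicAt (dl ν r s) z₀ := by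
  unfold dl
  refine MeromorphicAt.fun_div (det_meromorphicAt fun a b => ?_)
    (MeromorphicAt.fun_prod fun j _ => D.ms j z₀)
  unfold bez
  simp only [Matrix.of_apply]
  apply MeromorphicAt.fun_sum
  intro l _
  exact ((D.mr _ z₀).fun_mul (D.mr _ z₀).deriv).fun_sub ((D.mr _ z₀).fun_mul (D.mr _ z₀).deriv)

/-- The inequality holds for every lift. -/
theorem Data.bound (D : Data ν t r s) {C : ℝ}
    (hC : ∀ (p q : ℕ → ℂ) (y w : Fin (5 * ν) → ℂ), (∀ j, ν < j → p j = 0) →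
      (∀ j, ν < j → q j = 0) → (∀ j, ∑ i ∈ range (ν + 1), p i * t j ^ i = y j ^ 2) →
      (∀ j, ∑ i ∈ range (ν + 1), q i * t j ^ i = 2 * y j * w j) →
        Complex.normSq (bez ν p q).det * nn y ^ (2 * ν) ≤
          C * ((∏ j, Complex.normSq (y j)) * nn w ^ ν))
    {y : Fin (5 * ν) → ℂ → ℂ} {g : ℂ → ℂ} {z₀ : ℂ} (h : IsL ν s (dl ν r s) y g z₀) :
    Complex.normSq (g z₀) * nn (fun j => y j z₀) ^ (2 * ν) ≤
      C * nn (fun j => deriv (y j) z₀) ^ ν := by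
  obtain ⟨h1, h2, l, hl⟩ := h
  have h3 : ∀ᶠ z in 𝓝[≠] z₀, Complex.normSq (g z) * nn (fun j => y j z) ^ (2 * ν) ≤
      C * nn (fun j => deriv (y j) z) ^ ν := by
    filter_upwards [ev_ev hl, D.generic z₀] with z hz hz'
    obtain ⟨a1, a2, a3, a4⟩ := hz.self_of_nhds
    obtain ⟨b1, b2, b3, b4⟩ := hz'
    exact bound_generic hC D.zr b1 b2 b3 b4 a1 a2 (hz.mono fun w hw => hw.2.2.1) a4
  have h4 : ContinuousAt (fun z => Complex.normSq (g z) * nn (fun j => y j z) ^ (2 * ν)) z₀ :=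
    ((Complex.continuous_normSq.continuousAt).comp h2.continuousAt).mul
      ((nn_continuousAt fun j => (h1 j).continuousAt).pow _)
  have h5 : ContinuousAt (fun z => C * nn (fun j => deriv (y j) z) ^ ν) z₀ :=
    continuousAt_const.mul ((nn_continuousAt fun j => (h1 j).deriv.continuousAt).pow _)
  exact le_of_tendsto_of_tendsto (h4.tendsto.mono_left nhdsWithin_le_nhds)
    (h5.tendsto.mono_left nhdsWithin_le_nhds) h3

/-- Existence of local lifts. -/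
theorem Data.exists_lift (D : Data ν t r s) (hν : 0 < ν) {C : ℝ}
    (hC : ∀ (p q : ℕ → ℂ) (y w : Fin (5 * ν) → ℂ), (∀ j, ν < j → p j = 0) →
      (∀ j, ν < j → q j = 0) → (∀ j, ∑ i ∈ range (ν + 1), p i * t j ^ i = y j ^ 2) →
      (∀ j, ∑ i ∈ range (ν + 1), q i * t j ^ i = 2 * y j * w j) →
        Complex.normSq (bez ν p q).det * nn y ^ (2 * ν) ≤
          C * ((∏ j, Complex.normSq (y j)) * nn w ^ ν)) (z₀ : ℂ) :
    ∃ y g, IsL ν s (dl ν r s) y g z₀ ∧ ∃ j, y j z₀ ≠ 0 := by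
  have : Nonempty (Fin (5 * ν)) := ⟨⟨0, by omega⟩⟩
  obtain ⟨J, y, hya, hyJ, hsy⟩ := local_rep s z₀ (fun j => D.ms j z₀) (fun j => D.ne j z₀)
  set l : ℂ → ℂ := fun z => (s J z)⁻¹ with hl
  -- the meromorphic function `g`
  set g₀ : ℂ → ℂ := fun z => dl ν r s z * s J z ^ ν with hg₀
  have hg₀m : MeromorphicAt g₀ z₀ := (D.dl_mero z₀).fun_mul ((D.ms J z₀).fun_pow ν)
  have hgen : ∀ᶠ z in 𝓝[≠] z₀, AnalyticAt ℂ l z ∧ l z ≠ 0 ∧ (∀ j, y j z = l z * s j z) ∧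
      g₀ z * l z ^ ν = dl ν r s z := by
    filter_upwards [hsy, D.generic z₀] with z h1 h2
    obtain ⟨b1, b2, b3, b4⟩ := h2
    refine ⟨(b2 J).inv (b3 J), inv_ne_zero (b3 J), fun j => ?_, ?_⟩
    · rw [h1 j, hl]
      simp only
      rw [← mul_assoc, inv_mul_cancel₀ (b3 J), one_mul]
    · rw [hg₀, hl]
      simp only
      rw [mul_assoc, ← mul_pow, mul_inv_cancel₀ (b3 J), one_pow, mul_one]
  -- it is bounded
  have hb : ∀ᶠ z in 𝓝[≠] z₀, Complex.normSq (g₀ z) * nn (fun j => y j z) ^ (2 * ν) ≤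
      C * nn (fun j => deriv (y j) z) ^ ν := by
    filter_upwards [ev_ev hgen, D.generic z₀] with z hz hz'
    obtain ⟨a1, a2, a3, a4⟩ := hz.self_of_nhds
    obtain ⟨b1, b2, b3, b4⟩ := hz'
    exact bound_generic hC D.zr b1 b2 b3 b4 a1 a2 (hz.mono fun w hw => hw.2.2.1) a4
  have hJ1 : y J z₀ = 1 := by rw [hyJ]
  have h5 : ContinuousAt (fun z => C * nn (fun j => deriv (y j) z) ^ ν) z₀ :=
    continuousAt_const.mul ((nn_continuousAt fun j => (hya j).deriv.continuousAt).pow _)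
  set B : ℝ := C * nn (fun j => deriv (y j) z₀) ^ ν + 1 with hB
  have h6 : ∀ᶠ z in 𝓝[≠] z₀, C * nn (fun j => deriv (y j) z) ^ ν < B :=
    nhdsWithin_le_nhds (h5.eventually_lt continuousAt_const (by rw [hB]; linarith))
  have h7 : ∀ᶠ z in 𝓝[≠] z₀, ‖g₀ z‖ ^ 2 < B := by
    filter_upwards [hb, h6] with z h8 h9
    have h10 : 1 ≤ nn (fun j => y j z) := by
      have h11 := normSq_le_nn (fun j => y j z) J
      simp only [hyJ, map_one] at h11
      exact h11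
    have h12 : Complex.normSq (g₀ z) ≤ Complex.normSq (g₀ z) * nn (fun j => y j z) ^ (2 * ν) :=
      le_mul_of_one_le_right (Complex.normSq_nonneg _) (one_le_pow₀ h10)
    rw [← Complex.normSq_eq_norm_sq]
    linarith
  have h8 : 0 ≤ meromorphicOrderAt g₀ z₀ := by
    by_contra hneg
    push Not at hneg
    have h9 := (tendsto_cobounded_iff_meromorphicOrderAt_neg hg₀m).2 hneg
    have h10 := (tendsto_norm_cobounded_atTop.comp h9).eventually_gt_atTop (B + 1)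
    obtain ⟨z, hz1, hz2⟩ := (h7.and h10).exists
    simp only [Function.comp] at hz2
    have hB1 : 0 < B := lt_of_le_of_lt (by positivity) hz1
    nlinarith
  obtain ⟨g, hga, hgg⟩ := hg₀m.meromorphicOrderAt_nonneg_iff.1 h8
  refine ⟨y, g, ⟨hya, hga, l, ?_⟩, J, by rw [hJ1]; exact one_ne_zero⟩
  filter_upwards [hgen, hgg] with z h1 h2
  obtain ⟨a1, a2, a3, a4⟩ := h1
  exact ⟨a1, a2, a3, by rw [← h2]; exact a4⟩

end

end Pool.Agent.Work.MP_f82ddf_nt.DQ
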