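import Pool.Agent.Work.MP_f82ddf_nt.DQ.Defs

/-!
# The Bezout matrix
-/

namespace Pool.Agent.Work.MP_f82ddf_nt.DQ

section Bez

/-- The entries of the Bezout matrix, for all pairs of natural numbers. -/
def bezE {R : Type*} [CommRing R] (p q : ℕ → R) (a b : ℕ) : R :=
  ∑ l ∈ Finset.range (b + 1), (p (a + b + 1 - l) * q l - p l * q (a + b + 1 - l))

theorem bez_apply {R : Type*} [CommRing R] (ν : ℕ) (p q : ℕ → R) (a b : Fin ν) :
    bez ν p q a b = bezE p q a b := rfl

theorem anti_sum {R : Type*} [CommRing R] (p q : ℕ → R) (u v : ℕ) :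
    ∑ l ∈ Finset.Icc u v, (p (u + v - l) * q l - p l * q (u + v - l)) = 0 := by
  rw [Finset.sum_sub_distrib, sub_eq_zero]
  refine Finset.sum_nbij' (fun l => u + v - l) (fun l => u + v - l) ?_ ?_ ?_ ?_ ?_
  · intro l hl; simp only [Finset.mem_Icc] at *; omega
  · intro l hl; simp only [Finset.mem_Icc] at *; omega
  · intro l hl; simp only [Finset.mem_Icc] at *; omega
  · intro l hl; simp only [Finset.mem_Icc] at *; omega
  · intro l hl
    simp only [Finset.mem_Icc] at hl
    have : u + v - (u + v - l) = l := by omega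
    rw [this]

theorem bezE_eq_zero_left {R : Type*} [CommRing R] {ν : ℕ} {p q : ℕ → R}
    (hp : ∀ j, ν < j → p j = 0) (hq : ∀ j, ν < j → q j = 0) {a : ℕ} (ha : ν ≤ a) (b : ℕ) :
    bezE p q a b = 0 := by
  refine Finset.sum_eq_zero fun l hl => ?_
  rw [Finset.mem_range] at hl
  rw [hp (a + b + 1 - l) (by omega), hq (a + b + 1 - l) (by omega)]
  ring

theorem bezE_eq_zero_right {R : Type*} [CommRing R] {ν : ℕ} {p q : ℕ → R}
    (hp : ∀ j, ν < j → p j = 0) (hq : ∀ j, ν < j → q j = 0) (a : ℕ) {b : ℕ} (hb : ν ≤ b) :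
    bezE p q a b = 0 := by
  by_cases hab : a < b
  · have h1 : Finset.range (b + 1) = Finset.range (a + 1) ∪ Finset.Icc (a + 1) b := by
      ext l; simp only [Finset.mem_range, Finset.mem_union, Finset.mem_Icc]; omega
    have h2 : Disjoint (Finset.range (a + 1)) (Finset.Icc (a + 1) b) := by
      rw [Finset.disjoint_left]; intro l; simp only [Finset.mem_range, Finset.mem_Icc]; omega
    rw [bezE, h1, Finset.sum_union h2]
    have h3 : ∑ l ∈ Finset.Icc (a + 1) b, (p (a + b + 1 - l) * q l - p l * q (a + b + 1 - l)) = 0 := by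
      have := anti_sum p q (a + 1) b
      rw [← this]
      refine Finset.sum_congr rfl fun l _ => ?_
      rw [show a + 1 + b = a + b + 1 by ring]
    rw [h3, add_zero]
    refine Finset.sum_eq_zero fun l hl => ?_
    rw [Finset.mem_range] at hl
    rw [hp (a + b + 1 - l) (by omega), hq (a + b + 1 - l) (by omega)]
    ring
  · exact bezE_eq_zero_left hp hq (by omega) b

theorem bezE_succ {R : Type*} [CommRing R] (p q : ℕ → R) (a b : ℕ) :
    bezE p q a (b + 1) - bezE p q (a + 1) b = p (a + 1) * q (b + 1) - p (b + 1) * q (a + 1) := by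
  rw [bezE, Finset.sum_range_succ, bezE]
  have h : ∀ l, a + (b + 1) + 1 - l = a + 1 + b + 1 - l := fun l => by omega
  simp only [h]
  rw [add_sub_cancel_left, show a + 1 + b + 1 - (b + 1) = a + 1 by omega]

theorem bezE_zero_right {R : Type*} [CommRing R] (p q : ℕ → R) (a : ℕ) :
    bezE p q a 0 = p (a + 1) * q 0 - p 0 * q (a + 1) := by
  simp [bezE]

theorem bezE_zero_left {R : Type*} [CommRing R] (p q : ℕ → R) (b : ℕ) :
    bezE p q 0 b = p (b + 1) * q 0 - p 0 * q (b + 1) := by
  have h1 : Finset.range (b + 1) = {0} ∪ Finset.Icc 1 b := by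
    ext l; simp only [Finset.mem_range, Finset.mem_union, Finset.mem_Icc, Finset.mem_singleton]
    omega
  have h2 : Disjoint ({0} : Finset ℕ) (Finset.Icc 1 b) := by
    rw [Finset.disjoint_left]; intro l; simp only [Finset.mem_singleton, Finset.mem_Icc]; omega
  rw [bezE, h1, Finset.sum_union h2, Finset.sum_singleton]
  have h3 : ∑ l ∈ Finset.Icc 1 b, (p (0 + b + 1 - l) * q l - p l * q (0 + b + 1 - l)) = 0 := by
    have := anti_sum p q 1 b
    rw [← this]
    refine Finset.sum_congr rfl fun l _ => ?_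
    rw [show 0 + b + 1 = 1 + b by ring]
  rw [h3, add_zero]
  simp

theorem bez_eval {R : Type*} [CommRing R] {ν : ℕ} {p q : ℕ → R} (hp : ∀ j, ν < j → p j = 0)
    (hq : ∀ j, ν < j → q j = 0) (x y : R) :
    (x - y) * ∑ a : Fin ν, ∑ b : Fin ν, x ^ (a : ℕ) * bez ν p q a b * y ^ (b : ℕ) =
      (∑ j ∈ Finset.range (ν + 1), p j * x ^ j) * (∑ j ∈ Finset.range (ν + 1), q j * y ^ j) -
      (∑ j ∈ Finset.range (ν + 1), p j * y ^ j) * (∑ j ∈ Finset.range (ν + 1), q j * x ^ j) := by
  have hS : ∑ a : Fin ν, ∑ b : Fin ν, x ^ (a : ℕ) * bez ν p q a b * y ^ (b : ℕ) =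
      ∑ a ∈ Finset.range ν, ∑ b ∈ Finset.range ν, x ^ a * bezE p q a b * y ^ b := by
    rw [Finset.sum_range]
    refine Finset.sum_congr rfl fun a _ => ?_
    rw [Finset.sum_range]
    rfl
  rw [hS]
  -- the right hand side
  have hR : (∑ j ∈ Finset.range (ν + 1), p j * x ^ j) *
        (∑ j ∈ Finset.range (ν + 1), q j * y ^ j) -
      (∑ j ∈ Finset.range (ν + 1), p j * y ^ j) * (∑ j ∈ Finset.range (ν + 1), q j * x ^ j) =
      ∑ a ∈ Finset.range (ν + 1), ∑ b ∈ Finset.range (ν + 1),
        (p a * q b - p b * q a) * (x ^ a * y ^ b) := by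
    rw [Finset.sum_mul_sum, Finset.sum_mul_sum, Finset.sum_comm (s := Finset.range (ν + 1))
      (f := fun i j => p i * y ^ i * (q j * x ^ j)), ← Finset.sum_sub_distrib]
    refine Finset.sum_congr rfl fun a _ => ?_
    rw [← Finset.sum_sub_distrib]
    refine Finset.sum_congr rfl fun b _ => ?_
    ring
  rw [hR]
  -- first part
  have h1 : x * ∑ a ∈ Finset.range ν, ∑ b ∈ Finset.range ν, x ^ a * bezE p q a b * y ^ b =
      ∑ a ∈ Finset.range ν, ∑ b ∈ Finset.range (ν + 1), x ^ (a + 1) * bezE p q a b * y ^ b := by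
    rw [Finset.mul_sum]
    refine Finset.sum_congr rfl fun a _ => ?_
    rw [Finset.sum_range_succ, bezE_eq_zero_right hp hq a (le_refl ν), Finset.mul_sum]
    simp only [mul_zero, zero_mul, add_zero]
    refine Finset.sum_congr rfl fun b _ => ?_
    ring
  have h2 : y * ∑ a ∈ Finset.range ν, ∑ b ∈ Finset.range ν, x ^ a * bezE p q a b * y ^ b =
      ∑ a ∈ Finset.range (ν + 1), ∑ b ∈ Finset.range ν,
        x ^ a * bezE p q a b * y ^ (b + 1) := by
    rw [Finset.sum_range_succ]
    have : ∑ b ∈ Finset.range ν, x ^ ν * bezE p q ν b * y ^ (b + 1) = 0 := by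
      refine Finset.sum_eq_zero fun b _ => ?_
      rw [bezE_eq_zero_left hp hq (le_refl ν) b]; ring
    rw [this, add_zero, Finset.mul_sum]
    refine Finset.sum_congr rfl fun a _ => ?_
    rw [Finset.mul_sum]
    refine Finset.sum_congr rfl fun b _ => ?_
    ring
  rw [sub_mul, h1, h2, Finset.sum_range_succ' (fun a => ∑ b ∈ Finset.range ν,
    x ^ a * bezE p q a b * y ^ (b + 1)), Finset.sum_range_succ' (fun a => ∑ b ∈
    Finset.range (ν + 1), (p a * q b - p b * q a) * (x ^ a * y ^ b)), ← sub_sub,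
    ← Finset.sum_sub_distrib, sub_eq_add_neg]
  congr 1
  · refine Finset.sum_congr rfl fun a _ => ?_
    rw [Finset.sum_range_succ' (fun b => x ^ (a + 1) * bezE p q a b * y ^ b),
      Finset.sum_range_succ' (fun b => (p (a + 1) * q b - p b * q (a + 1)) *
        (x ^ (a + 1) * y ^ b)), add_sub_right_comm, ← Finset.sum_sub_distrib]
    congr 1
    · refine Finset.sum_congr rfl fun b _ => ?_
      rw [← bezE_succ]; ring
    · rw [bezE_zero_right]; ring
  · rw [Finset.sum_range_succ' (fun b => (p 0 * q b - p b * q 0) * (x ^ 0 * y ^ b)),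
      ← Finset.sum_neg_distrib]
    have : (p 0 * q 0 - p 0 * q 0) * (x ^ 0 * y ^ 0) = 0 := by ring
    rw [this, add_zero]
    refine Finset.sum_congr rfl fun b _ => ?_
    rw [bezE_zero_left]; ring

theorem bez_det_mul {F : Type*} [Field F] {ν : ℕ} {p q : ℕ → F} (hp : ∀ j, ν < j → p j = 0)
    (hq : ∀ j, ν < j → q j = 0) (x y : Fin ν → F) (hxy : ∀ i j, x i ≠ y j) :
    (Matrix.of fun i j => ((∑ k ∈ Finset.range (ν + 1), p k * x i ^ k) *
        (∑ k ∈ Finset.range (ν + 1), q k * y j ^ k) -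
      (∑ k ∈ Finset.range (ν + 1), p k * y j ^ k) *
        (∑ k ∈ Finset.range (ν + 1), q k * x i ^ k)) / (x i - y j)).det =
      (Matrix.vandermonde x).det * (bez ν p q).det * (Matrix.vandermonde y).det := by
  rw [← Matrix.det_transpose (Matrix.vandermonde y), ← Matrix.det_mul, ← Matrix.det_mul]
  congr 1
  ext i j
  rw [Matrix.of_apply, ← bez_eval hp hq (x i) (y j), mul_div_cancel_left₀ _
    (sub_ne_zero.mpr (hxy i j)), Matrix.mul_apply, Finset.sum_comm]
  refine Finset.sum_congr rfl fun b _ => ?_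
  rw [Matrix.mul_apply, Finset.sum_mul]
  refine Finset.sum_congr rfl fun a _ => ?_
  rw [Matrix.transpose_apply, Matrix.vandermonde_apply, Matrix.vandermonde_apply]

theorem bez_scale {R : Type*} [CommRing R] (ν : ℕ) (p q : ℕ → R) (l c : R) :
    bez ν (fun j => l * p j) (fun j => l * q j + c * p j) = l ^ 2 • bez ν p q := by
  ext a b
  rw [Matrix.smul_apply, bez_apply, bez_apply, bezE, bezE, smul_eq_mul, Finset.mul_sum]
  refine Finset.sum_congr rfl fun k _ => ?_
  ring

theorem bez_map {R S : Type*} [CommRing R] [CommRing S] (φ : R →+* S) (ν : ℕ) (p q : ℕ → R) :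
    bez ν (fun j => φ (p j)) (fun j => φ (q j)) = (bez ν p q).map φ := by
  ext a b
  rw [Matrix.map_apply, bez_apply, bez_apply, bezE, bezE, map_sum]
  refine Finset.sum_congr rfl fun k _ => ?_
  rw [map_sub, map_mul, map_mul]

/-- The polynomial with the coefficients of `P` from `a + 1` on. -/
noncomputable def tl {M : Type*} [Field M] (P : Polynomial M) (a : ℕ) : Polynomial M :=
  Polynomial.divX^[a + 1] P

theorem coeff_iter_divX {M : Type*} [Field M] (P : Polynomial M) (a n : ℕ) :
    (Polynomial.divX^[a] P).coeff n = P.coeff (n + a) := by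
  induction a generalizing n with
  | zero => simp
  | succ a ih =>
    rw [Function.iterate_succ_apply', Polynomial.coeff_divX, ih]
    congr 1; ring

theorem coeff_tl {M : Type*} [Field M] (P : Polynomial M) (a n : ℕ) :
    (tl P a).coeff n = P.coeff (n + (a + 1)) := coeff_iter_divX P (a + 1) n

theorem bezE_eq_coeff {M : Type*} [Field M] (P Q : Polynomial M) (a b : ℕ) :
    bezE P.coeff Q.coeff a b = (Q * tl P a - P * tl Q a).coeff b := by
  rw [Polynomial.coeff_sub, Polynomial.coeff_mul, Polynomial.coeff_mul,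
    Finset.Nat.sum_antidiagonal_eq_sum_range_succ (fun i j => Q.coeff i * (tl P a).coeff j),
    Finset.Nat.sum_antidiagonal_eq_sum_range_succ (fun i j => P.coeff i * (tl Q a).coeff j),
    ← Finset.sum_sub_distrib, bezE]
  refine Finset.sum_congr rfl fun l hl => ?_
  rw [Finset.mem_range] at hl
  rw [coeff_tl, coeff_tl, show b - l + (a + 1) = a + b + 1 - l by omega]
  ring

theorem bez_det_ne_zero {M : Type*} [Field M] {P Q : Polynomial M} {ν : ℕ}
    (hP : P.natDegree = ν) (hQ : Q.natDegree ≤ ν) (h : IsCoprime P Q) :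
    (bez ν P.coeff Q.coeff).det ≠ 0 := by
  intro hdet
  have hp : ∀ j, ν < j → P.coeff j = 0 := fun j hj =>
    Polynomial.coeff_eq_zero_of_natDegree_lt (by omega)
  have hq : ∀ j, ν < j → Q.coeff j = 0 := fun j hj =>
    Polynomial.coeff_eq_zero_of_natDegree_lt (by omega)
  obtain ⟨v, hv0, hv⟩ := Matrix.exists_vecMul_eq_zero_iff.mpr hdet
  have hν : 0 < ν := by
    rcases Nat.eq_zero_or_pos ν with h0 | h0
    · subst h0
      exact absurd (Subsingleton.elim v 0) hv0
    · exact h0
  -- the polynomial identity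
  set H : Polynomial M := ∑ a : Fin ν, Polynomial.C (v a) * tl P a with hH
  set K : Polynomial M := ∑ a : Fin ν, Polynomial.C (v a) * tl Q a with hK
  have hQH : Q * H = P * K := by
    rw [← sub_eq_zero]
    ext b
    have : Q * H - P * K = ∑ a : Fin ν, Polynomial.C (v a) * (Q * tl P a - P * tl Q a) := by
      rw [hH, hK, Finset.mul_sum, Finset.mul_sum, ← Finset.sum_sub_distrib]
      refine Finset.sum_congr rfl fun a _ => ?_
      ring
    rw [this, Polynomial.finsetSum_coeff, Polynomial.coeff_zero]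
    simp only [Polynomial.coeff_C_mul, ← bezE_eq_coeff]
    by_cases hb : b < ν
    · have := congrFun hv ⟨b, hb⟩
      rw [Matrix.vecMul, dotProduct] at this
      exact this
    · refine Finset.sum_eq_zero fun a _ => ?_
      rw [bezE_eq_zero_right hp hq a (by omega), mul_zero]
  have hdvd : P ∣ H := by
    have : P ∣ Q * H := ⟨K, hQH⟩
    exact h.dvd_of_dvd_mul_left this
  -- degree of H
  have hP0 : P ≠ 0 := by
    rintro rfl
    rw [Polynomial.natDegree_zero] at hP
    omega
  have hHdeg : H.natDegree < ν := by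
    have : H.natDegree ≤ ν - 1 := by
      refine Polynomial.natDegree_sum_le_of_forall_le _ _ fun a _ => ?_
      refine (Polynomial.natDegree_C_mul_le _ _).trans ?_
      rw [Polynomial.natDegree_le_iff_coeff_eq_zero]
      intro n hn
      rw [coeff_tl]
      exact hp _ (by omega)
    omega
  have hH0 : H = 0 := by
    by_contra hne
    have := Polynomial.natDegree_le_of_dvd hdvd hne
    omega
  -- but H is not zero
  obtain ⟨a, ha⟩ : ∃ a, v a ≠ 0 := by
    by_contra hcon
    push Not at hcon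
    exact hv0 (funext hcon)
  obtain ⟨a₀, ha₀, hmin⟩ : ∃ a₀ : Fin ν, v a₀ ≠ 0 ∧ ∀ b : Fin ν, b < a₀ → v b = 0 := by
    classical
    have hne : (Finset.univ.filter fun a : Fin ν => v a ≠ 0).Nonempty := ⟨a, by simp [ha]⟩
    refine ⟨_, (Finset.mem_filter.mp (Finset.min'_mem _ hne)).2, fun b hb => ?_⟩
    by_contra hvb
    exact absurd (Finset.min'_le _ b (by simp [hvb])) (not_le.mpr hb)
  have hc : H.coeff (ν - 1 - a₀) = v a₀ * P.coeff ν := by
    rw [hH, Polynomial.finsetSum_coeff, Finset.sum_eq_single a₀]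
    · rw [Polynomial.coeff_C_mul, coeff_tl]
      congr 2
      have := a₀.2
      omega
    · intro b _ hb
      rw [Polynomial.coeff_C_mul, coeff_tl]
      rcases lt_or_gt_of_ne hb with h1 | h1
      · rw [hmin b h1, zero_mul]
      · rw [hp, mul_zero]
        have := a₀.2
        have h2 : (a₀ : ℕ) < b := h1
        omega
    · intro h1; exact absurd (Finset.mem_univ _) h1
  rw [hH0, Polynomial.coeff_zero] at hc
  have hlead : P.coeff ν ≠ 0 := by
    rw [← hP]; exact Polynomial.leadingCoeff_ne_zero.mpr hP0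
  exact (mul_ne_zero ha₀ hlead) hc.symm

end Bez

end Pool.Agent.Work.MP_f82ddf_nt.DQ
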