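import Pool.Agent.Work.MP_f82ddf_nt.DQ.Defs

/-!
# Factorisation over a differential field
-/

open scoped Differential

namespace Pool.Agent.Work.MP_f82ddf_nt.DQ

section Fac

open Polynomial

variable {M : Type*} [Field M] [CharZero M] [Differential M]

theorem natDegree_mapCoeffs_le (P : M[X]) : (Differential.mapCoeffs P).natDegree ≤ P.natDegree := by
  rw [natDegree_le_iff_coeff_eq_zero]
  intro n hn
  rw [Differential.coeff_mapCoeffs, coeff_eq_zero_of_natDegree_lt hn]
  simp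

/-- A monic polynomial with `P ∣ P′` is constant. -/
theorem mapCoeffs_eq_zero_of_dvd {P : M[X]} (hP : P.Monic) (h : P ∣ Differential.mapCoeffs P) :
    Differential.mapCoeffs P = 0 := by
  by_contra hne
  have h1 := degree_le_of_dvd h hne
  have h2 : (Differential.mapCoeffs P).degree < P.degree := by
    rcases Nat.eq_zero_or_pos P.natDegree with h0 | h0
    · exfalso
      apply hne
      rw [hP.natDegree_eq_zero.mp h0]
      exact Derivation.map_one_eq_zero _
    · have h3 : (Differential.mapCoeffs P).natDegree < P.natDegree := by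
        have h4 : (Differential.mapCoeffs P).natDegree ≤ P.natDegree - 1 := by
          rw [natDegree_le_iff_coeff_eq_zero]
          intro n hn
          rw [Differential.coeff_mapCoeffs]
          rcases eq_or_lt_of_le (show P.natDegree ≤ n by omega) with h5 | h5
          · rw [← h5, coeff_natDegree, hP.leadingCoeff]
            exact Derivation.map_one_eq_zero _
          · rw [coeff_eq_zero_of_natDegree_lt h5]
            simp
        omega
      exact degree_lt_degree h3
  exact absurd h1 (not_le.mpr h2)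

theorem mapCoeffs_pow (P : M[X]) (k : ℕ) :
    Differential.mapCoeffs (P ^ (k + 1)) = C ((k : M) + 1) * P ^ k * Differential.mapCoeffs P := by
  rw [Derivation.leibniz_pow]
  simp only [add_tsub_cancel_right, smul_eq_mul, nsmul_eq_mul, Nat.cast_add, Nat.cast_one, map_add,
    map_natCast, map_one]
  ring

theorem mapCoeffs_mul (P Q : M[X]) :
    Differential.mapCoeffs (P * Q) = P * Differential.mapCoeffs Q + Q * Differential.mapCoeffs P := by
  rw [Derivation.leibniz]; rfl

theorem Moving.prime {P : M[X]} (h : Moving P) : Prime P := h.2.1.prime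

/-- A moving polynomial does not divide a nonzero constant one. -/
theorem Moving.not_dvd_const {P E : M[X]} (h : Moving P) (hE : E ≠ 0)
    (hE' : Differential.mapCoeffs E = 0) : ¬ P ∣ E := by
  intro hdvd
  obtain ⟨Q, hQ, hPQ⟩ := (FiniteMultiplicity.of_prime_left h.prime hE).exists_eq_pow_mul_and_not_dvd
  have hk : multiplicity P E ≠ 0 := by
    intro h0
    rw [h0, pow_zero, one_mul] at hQ
    exact hPQ (hQ ▸ hdvd)
  obtain ⟨k, hk⟩ := Nat.exists_eq_succ_of_ne_zero hk
  rw [hk, Nat.succ_eq_add_one] at hQ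
  have h1 : P ^ k * (P * Differential.mapCoeffs Q + C ((k : M) + 1) *
      (Differential.mapCoeffs P * Q)) = 0 := by
    rw [hQ, mapCoeffs_mul, mapCoeffs_pow] at hE'
    rw [← hE']
    ring
  have h2 := (mul_eq_zero.mp h1).resolve_left (pow_ne_zero _ h.prime.ne_zero)
  have h3 : P ∣ C ((k : M) + 1) * (Differential.mapCoeffs P * Q) := by
    have : C ((k : M) + 1) * (Differential.mapCoeffs P * Q) = P * (-Differential.mapCoeffs Q) := by
      linear_combination h2
    rw [this]; exact dvd_mul_right _ _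
  have h4 : IsUnit (C ((k : M) + 1)) := by
    rw [isUnit_C]
    exact isUnit_iff_ne_zero.mpr (Nat.cast_add_one_ne_zero k)
  rw [h4.dvd_mul_left] at h3
  rcases h.prime.dvd_or_dvd h3 with h5 | h5
  · exact h.2.2 (mapCoeffs_eq_zero_of_dvd h.1 h5)
  · exact hPQ h5

theorem EvenMoving.mul {E B : M[X]} (hE : E ≠ 0) (hE' : Differential.mapCoeffs E = 0)
    (hB : EvenMoving B) : EvenMoving (E * B) := by
  intro P hP k hk
  exact Dvd.dvd.mul_left (hB P hP k
    (hP.prime.pow_dvd_of_dvd_mul_left _ (hP.not_dvd_const hE hE') hk)) E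

theorem EvenMoving.of_mul {E B : M[X]} (hE : E ≠ 0) (hE' : Differential.mapCoeffs E = 0)
    (hB : EvenMoving (E * B)) : EvenMoving B := by
  intro P hP k hk
  exact hP.prime.pow_dvd_of_dvd_mul_left _ (hP.not_dvd_const hE hE') (hB P hP k (hk.mul_left E))

theorem evenMoving_C_mul {u : M} (hu : u ≠ 0) {B : M[X]} :
    EvenMoving (C u * B) ↔ EvenMoving B := by
  have h : IsUnit (C u) := isUnit_C.mpr (isUnit_iff_ne_zero.mpr hu)
  constructor
  · intro hB P hP k hk
    have := hB P hP k (by rwa [h.dvd_mul_left])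
    rwa [h.dvd_mul_left] at this
  · intro hB P hP k hk
    rw [h.dvd_mul_left] at hk ⊢
    exact hB P hP k hk

theorem evenMoving_sq (A : M[X]) : EvenMoving (A ^ 2) := by
  intro P hP k hk
  rcases eq_or_ne A 0 with rfl | hA
  · simp
  obtain ⟨Q, hQ, hPQ⟩ := (FiniteMultiplicity.of_prime_left hP.prime hA).exists_eq_pow_mul_and_not_dvd
  set j := multiplicity P A
  have hA2 : A ^ 2 = P ^ (2 * j) * Q ^ 2 := by rw [hQ]; ring
  by_cases hj : k + 1 ≤ j
  · rw [hA2]
    exact (pow_dvd_pow P (by omega)).mul_right _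
  · exfalso
    have h1 : P ^ (2 * j + 1) ∣ P ^ (2 * j) * Q ^ 2 := by
      rw [← hA2]; exact (pow_dvd_pow P (by omega)).trans hk
    rw [pow_succ] at h1
    have h2 : P ∣ Q ^ 2 := (mul_dvd_mul_iff_left (pow_ne_zero _ hP.prime.ne_zero)).mp h1
    exact hPQ (hP.prime.dvd_of_dvd_pow h2)

/-- The data of the factorisation. -/
def FacData (B : M[X]) : Prop :=
  ∃ (u : M) (E A R : M[X]), u ≠ 0 ∧ E.Monic ∧ A.Monic ∧ R.Monic ∧
      Differential.mapCoeffs E = 0 ∧ B = C u * E * A ^ 2 * R ∧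
      IsCoprime R (Differential.mapCoeffs R) ∧ (∀ c : M, c′ = 0 → A.eval c ≠ 0)

theorem facData_unit {B : M[X]} (hB : IsUnit B) : FacData B := by
  obtain ⟨u, hu, rfl⟩ := isUnit_iff.mp hB
  refine ⟨u, 1, 1, 1, hu.ne_zero, monic_one, monic_one, monic_one, Derivation.map_one_eq_zero _,
    by ring, isCoprime_one_left, fun c _ => by simp⟩

theorem facData_pow {p : M[X]} (i : ℕ) (hp : Prime p) : FacData (p ^ i) := by
  set l := p.leadingCoeff with hl
  have hl0 : l ≠ 0 := leadingCoeff_ne_zero.mpr hp.ne_zero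
  set P : M[X] := C l⁻¹ * p with hPdef
  have hPp : p = C l * P := by
    rw [hPdef, ← mul_assoc, ← C_mul, mul_inv_cancel₀ hl0, C_1, one_mul]
  have hPm : P.Monic := by
    rw [hPdef]; exact monic_C_mul_of_mul_leadingCoeff_eq_one (inv_mul_cancel₀ hl0)
  have hPi : Irreducible P := by
    have h : Associated p P := by
      refine ⟨(isUnit_C.mpr (isUnit_iff_ne_zero.mpr (inv_ne_zero hl0))).unit, ?_⟩
      rw [IsUnit.unit_spec, hPdef, mul_comm]
    exact h.irreducible hp.irreducible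
  have hpow : p ^ i = C (l ^ i) * P ^ i := by
    conv_lhs => rw [hPp]
    rw [mul_pow, ← C_pow]
  by_cases hD : Differential.mapCoeffs P = 0
  · refine ⟨l ^ i, P ^ i, 1, 1, pow_ne_zero _ hl0, hPm.pow i, monic_one, monic_one, ?_, ?_,
      isCoprime_one_left, fun c _ => by simp⟩
    · rw [Derivation.leibniz_pow, hD]; simp
    · rw [hpow]; ring
  · have heval : ∀ c : M, c′ = 0 → P.eval c ≠ 0 := by
      intro c hc h0
      have h1 : X - C c ∣ P := dvd_iff_isRoot.mpr h0
      have h2 : P = X - C c := by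
        have h3 : Associated (X - C c) P :=
          (irreducible_X_sub_C c).associated_of_dvd hPi h1
        exact (eq_of_monic_of_associated (monic_X_sub_C c) hPm h3).symm
      apply hD
      rw [h2, map_sub, Differential.mapCoeffs_X, Differential.mapCoeffs_C, hc]
      simp
    have hcop : IsCoprime P (Differential.mapCoeffs P) := by
      rw [hPi.coprime_iff_not_dvd]
      intro h
      exact hD (mapCoeffs_eq_zero_of_dvd hPm h)
    rcases Nat.even_or_odd' i with ⟨j, hj | hj⟩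
    · refine ⟨l ^ i, 1, P ^ j, 1, pow_ne_zero _ hl0, monic_one, hPm.pow j, monic_one,
        Derivation.map_one_eq_zero _, ?_, isCoprime_one_left, fun c hc => ?_⟩
      · rw [hpow, hj]; ring
      · rw [eval_pow]; exact pow_ne_zero _ (heval c hc)
    · refine ⟨l ^ i, 1, P ^ j, P, pow_ne_zero _ hl0, monic_one, hPm.pow j, hPm,
        Derivation.map_one_eq_zero _, ?_, hcop, fun c hc => ?_⟩
      · rw [hpow, hj]; ring
      · rw [eval_pow]; exact pow_ne_zero _ (heval c hc)

theorem facData_mul {B₁ B₂ : M[X]} (h : IsCoprime B₁ B₂) (h₁ : FacData B₁) (h₂ : FacData B₂) :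
    FacData (B₁ * B₂) := by
  obtain ⟨u₁, E₁, A₁, R₁, hu₁, hE₁, hA₁, hR₁, hD₁, hB₁, hc₁, he₁⟩ := h₁
  obtain ⟨u₂, E₂, A₂, R₂, hu₂, hE₂, hA₂, hR₂, hD₂, hB₂, hc₂, he₂⟩ := h₂
  have hd₁ : R₁ ∣ B₁ := by rw [hB₁]; exact dvd_mul_left _ _
  have hd₂ : R₂ ∣ B₂ := by rw [hB₂]; exact dvd_mul_left _ _
  have hR : IsCoprime R₁ R₂ := h.mono hd₁ hd₂
  refine ⟨u₁ * u₂, E₁ * E₂, A₁ * A₂, R₁ * R₂, mul_ne_zero hu₁ hu₂, hE₁.mul hE₂, hA₁.mul hA₂,
    hR₁.mul hR₂, ?_, ?_, ?_, fun c hc => ?_⟩
  · rw [mapCoeffs_mul, hD₁, hD₂]; simp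
  · rw [hB₁, hB₂, C_mul]; ring
  · rw [mapCoeffs_mul]
    refine IsCoprime.mul_left ?_ ?_
    · have : IsCoprime R₁ (R₂ * Differential.mapCoeffs R₁) := hR.mul_right hc₁
      rw [add_comm]
      exact this.add_mul_left_right _
    · have : IsCoprime R₂ (R₁ * Differential.mapCoeffs R₂) := hR.symm.mul_right hc₂
      exact this.add_mul_left_right _
  · rw [eval_mul]; exact mul_ne_zero (he₁ c hc) (he₂ c hc)

theorem exists_facData {B : M[X]} (hB : B ≠ 0) : FacData B := by
  classical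
  revert hB
  refine UniqueFactorizationMonoid.induction_on_coprime (P := fun B : M[X] => B ≠ 0 → FacData B) B
    (fun h => absurd rfl h) (fun h _ => facData_unit h) (fun i hp _ => facData_pow i hp) ?_
  intro x y hxy hx hy h0
  exact facData_mul hxy.isCoprime (hx (left_ne_zero_of_mul h0)) (hy (right_ne_zero_of_mul h0))

theorem exists_factor {B : M[X]} (hB : B ≠ 0) :
    ∃ (u : M) (E A R : M[X]), u ≠ 0 ∧ E.Monic ∧ A.Monic ∧ R.Monic ∧
      Differential.mapCoeffs E = 0 ∧ B = C u * E * A ^ 2 * R ∧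
      IsCoprime R (Differential.mapCoeffs R) ∧ (∀ c : M, c′ = 0 → A.eval c ≠ 0) ∧
      (R = 1 → EvenMoving B) := by
  obtain ⟨u, E, A, R, hu, hE, hA, hR, hD, hBe, hc, he⟩ := exists_facData hB
  refine ⟨u, E, A, R, hu, hE, hA, hR, hD, hBe, hc, he, fun h1 => ?_⟩
  rw [hBe, h1, mul_one, mul_assoc]
  exact (evenMoving_C_mul hu).mpr ((evenMoving_sq A).mul hE.ne_zero hD)

theorem EvenMoving.exists_factor {B : M[X]} (hB : B ≠ 0) (h : EvenMoving B) :
    ∃ (u : M) (E A : M[X]), u ≠ 0 ∧ E.Monic ∧ A.Monic ∧ Differential.mapCoeffs E = 0 ∧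
      B = C u * E * A ^ 2 := by
  obtain ⟨u, E, A, R, hu, hE, hA, hR, hD, hBe, hc, he⟩ := exists_facData hB
  refine ⟨u, E, A, hu, hE, hA, hD, ?_⟩
  suffices hR1 : R = 1 by rw [hBe, hR1, mul_one]
  by_contra hR1
  obtain ⟨P, hPm, hPi, hPR⟩ := exists_monic_irreducible_factor R (fun hunit =>
    hR1 (hR.eq_one_of_isUnit hunit))
  obtain ⟨R', hR'⟩ := hPR
  have hPp : Prime P := hPi.prime
  have hnotd : ¬ P ∣ Differential.mapCoeffs R := by
    intro h1
    exact hPi.not_isUnit (hc.isUnit_of_dvd' ⟨R', hR'⟩ h1)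
  have hmov : Moving P := by
    refine ⟨hPm, hPi, fun h0 => hnotd ?_⟩
    rw [hR', mapCoeffs_mul, h0, mul_zero, add_zero]
    exact dvd_mul_right _ _
  have hPR' : ¬ P ∣ R' := by
    intro h1
    apply hnotd
    rw [hR', mapCoeffs_mul]
    exact dvd_add (dvd_mul_right _ _) (h1.mul_right _)
  obtain ⟨Q, hQ, hPQ⟩ :=
    (FiniteMultiplicity.of_prime_left hPp hA.ne_zero).exists_eq_pow_mul_and_not_dvd
  set k := multiplicity P A
  have hform : B = P ^ (2 * k + 1) * (C u * (E * (Q ^ 2 * R'))) := by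
    rw [hBe, hR', hQ]; ring
  have h1 := h P hmov k (by rw [hform]; exact dvd_mul_right _ _)
  rw [hform, show 2 * k + 2 = 2 * k + 1 + 1 by ring, pow_succ] at h1
  have h2 : P ∣ C u * (E * (Q ^ 2 * R')) :=
    (mul_dvd_mul_iff_left (pow_ne_zero _ hPp.ne_zero)).mp h1
  rw [(isUnit_C.mpr (isUnit_iff_ne_zero.mpr hu)).dvd_mul_left] at h2
  rcases hPp.dvd_or_dvd h2 with h3 | h3
  · exact hmov.not_dvd_const hE.ne_zero hD h3
  · rcases hPp.dvd_or_dvd h3 with h4 | h4
    · exact hPQ (hPp.dvd_of_dvd_pow h4)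
    · exact hPR' h4

end Fac

end Pool.Agent.Work.MP_f82ddf_nt.DQ
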