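import Pool.Agent.Work.MP_f82ddf_nt.DQ.Mer
import Pool.Agent.Work.MP_f82ddf_nt.DQ.Bez
import Pool.Agent.Work.MP_f82ddf_nt.DQ.Fac
import Pool.Agent.Work.MP_f82ddf_nt.DQ.AL

/-!
# A polynomial over the meromorphic functions with many square values
-/

open Topology Filter
open scoped Differential

namespace Pool.Agent.Work.MP_f82ddf_nt.DQ

/-- Evaluation of a meromorphic function at a point (junk values at the poles are allowed). -/
def merEval (z : ℂ) : MerFun →+* ℂ where
  toFun f := f.1 z
  map_one' := rfl
  map_mul' _ _ := rfl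
  map_zero' := rfl
  map_add' _ _ := rfl

/-- The Bezout matrix of classes of meromorphic functions is the class of the Bezout matrix. -/
theorem bez_det_eq_zero_of_eventually {ν : ℕ} (p q : ℕ → MerFun)
    (h : ∀ z₀ : ℂ, ∀ᶠ z in 𝓝[≠] z₀, (bez ν (fun i => (p i).1 z) (fun i => (q i).1 z)).det = 0) :
    (bez ν (fun i => merHom (p i)) (fun i => merHom (q i))).det = 0 := by
  rw [bez_map merHom ν p q]
  have h1 : (Matrix.map (bez ν p q) merHom).det = merHom (bez ν p q).det :=
    (RingHom.map_det merHom (bez ν p q)).symm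
  rw [h1, ← map_zero merHom, merHom_eq, sub_zero, mem_merIdeal]
  intro z₀
  filter_upwards [h z₀] with z hz
  change merEval z (bez ν p q).det = 0
  rw [RingHom.map_det, RingHom.mapMatrix_apply, ← bez_map (merEval z) ν p q]
  exact hz

open Polynomial in
theorem isCoprime_scale {M : Type*} [Field M] [Differential M] {R : M[X]} {u : M} (hu : u ≠ 0)
    (h : IsCoprime R (Differential.mapCoeffs R)) :
    IsCoprime (C u * R) (Differential.mapCoeffs (C u * R)) := by
  have hU : IsUnit (C u : M[X]) := isUnit_C.2 (isUnit_iff_ne_zero.2 hu)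
  rw [isCoprime_mul_unit_left_left hU]
  have h1 : Differential.mapCoeffs (C u * R) =
      C u * Differential.mapCoeffs R + R * Differential.mapCoeffs (C u) := by
    rw [Derivation.leibniz, smul_eq_mul, smul_eq_mul]
  rw [h1, IsCoprime.add_mul_left_right_iff, isCoprime_mul_unit_left_right hU]
  exact h

theorem natDegree_mapCoeffs_le_core {M : Type*} [Field M] [Differential M] (P : Polynomial M) :
    (Differential.mapCoeffs P).natDegree ≤ P.natDegree := by
  rw [Polynomial.natDegree_le_iff_coeff_eq_zero]
  intro n hn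
  rw [Differential.coeff_mapCoeffs, Polynomial.coeff_eq_zero_of_natDegree_lt hn]
  exact map_zero _

/-- The values at constants of a polynomial with constant coefficients are constant. -/
theorem deriv_eval_constant {M : Type*} [Field M] [Differential M] {E : Polynomial M}
    (hE : Differential.mapCoeffs E = 0) {c : M} (hc : c′ = 0) : (E.eval c)′ = 0 := by
  have h1 : ∀ n, (E.coeff n)′ = 0 := by
    intro n
    rw [← Differential.coeff_mapCoeffs, hE, Polynomial.coeff_zero]
  rw [Polynomial.eval_eq_sum_range, map_sum]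
  refine Finset.sum_eq_zero fun i _ => ?_
  rw [Derivation.leibniz, Derivation.leibniz_pow, hc, h1]
  simp

/-- Many nodes are not roots of a polynomial of small degree. -/
theorem exists_nodes_ne_zero {M : Type*} [Field M] {E : Polynomial M} (hE : E ≠ 0) {q k D : ℕ}
    (hD : E.natDegree ≤ D) (hq : D + k ≤ q) (x : Fin q → M) (hx : Function.Injective x) :
    ∃ ι : Fin k → Fin q, Function.Injective ι ∧ ∀ j, E.eval (x (ι j)) ≠ 0 := by
  classical
  let S : Finset (Fin q) := Finset.univ.filter fun j => E.eval (x j) ≠ 0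
  have hbad : (Finset.univ.filter fun j => E.eval (x j) = 0).card ≤ D := by
    have h1 : ((Finset.univ.filter fun j => E.eval (x j) = 0).image x) ⊆ E.roots.toFinset := by
      intro y hy
      obtain ⟨j, hj, rfl⟩ := Finset.mem_image.1 hy
      rw [Multiset.mem_toFinset, Polynomial.mem_roots hE]
      exact (Finset.mem_filter.1 hj).2
    have h2 := Finset.card_le_card h1
    rw [Finset.card_image_of_injective _ hx] at h2
    exact h2.trans ((Multiset.toFinset_card_le _).trans ((Polynomial.card_roots' E).trans hD))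
  have hsum := Finset.card_filter_add_card_filter_not (s := (Finset.univ : Finset (Fin q)))
    (fun j => E.eval (x j) = 0)
  rw [Finset.card_univ, Fintype.card_fin] at hsum
  have hS : k ≤ S.card := by
    change k ≤ (Finset.univ.filter fun j => ¬ E.eval (x j) = 0).card
    omega
  obtain ⟨T, hTS, hT⟩ := Finset.exists_subset_card_eq hS
  refine ⟨fun j => (T.orderIsoOfFin hT j).1, ?_, ?_⟩
  · intro a b hab
    exact (T.orderIsoOfFin hT).injective (Subtype.ext hab)
  · intro j
    exact (Finset.mem_filter.1 (hTS (T.orderIsoOfFin hT j).2)).2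

theorem core {B : Polynomial Mer} (hB : B ≠ 0) {D q : ℕ} (hD : B.natDegree ≤ D)
    (hq : 6 * D ≤ q) (t : Fin q → ℂ) (ht : Function.Injective t) (f : Fin q → Mer)
    (hf : ∀ j, B.eval (algebraMap ℂ Mer (t j)) = f j ^ 2) : EvenMoving B := by
  obtain ⟨u, E, A, R, hu, hE, hA, hR, hE', hBf, hcop, hAc, hR1⟩ := exists_factor hB
  by_cases hR2 : R = 1
  · exact hR1 hR2
  exfalso
  set ν := R.natDegree with hν
  have hνpos : 0 < ν := by
    rcases Nat.eq_zero_or_pos ν with h | h
    · exact absurd (hR.natDegree_eq_zero.1 h) hR2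
    · exact h
  have hdeg : E.natDegree + ν ≤ D := by
    have h1 : B.natDegree = 0 + E.natDegree + 2 * A.natDegree + R.natDegree := by
      rw [hBf, Polynomial.natDegree_mul (mul_ne_zero (mul_ne_zero
        (Polynomial.C_ne_zero.2 hu) hE.ne_zero) (pow_ne_zero 2 hA.ne_zero)) hR.ne_zero,
        Polynomial.natDegree_mul (mul_ne_zero
        (Polynomial.C_ne_zero.2 hu) hE.ne_zero) (pow_ne_zero 2 hA.ne_zero),
        Polynomial.natDegree_mul (Polynomial.C_ne_zero.2 hu) hE.ne_zero,
        Polynomial.natDegree_pow, Polynomial.natDegree_C]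
    omega
  have hx : Function.Injective fun j => algebraMap ℂ Mer (t j) :=
    (algebraMap ℂ Mer).injective.comp ht
  obtain ⟨ι, hι, hEι⟩ := exists_nodes_ne_zero hE.ne_zero (k := 5 * ν) le_rfl
    (q := q) (by omega) (fun j => algebraMap ℂ Mer (t j)) hx
  -- square roots of the values of `E`
  have hsq : ∀ j, ∃ e : ℂ, e ≠ 0 ∧ E.eval (algebraMap ℂ Mer (t (ι j))) = algebraMap ℂ Mer e ^ 2 := by
    intro j
    obtain ⟨c, hc⟩ := Mer.exists_algebraMap
      (deriv_eval_constant hE' (Mer.deriv_algebraMap (t (ι j))))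
    obtain ⟨e, he⟩ := IsAlgClosed.exists_pow_nat_eq c (n := 2) (by norm_num)
    refine ⟨e, ?_, ?_⟩
    · rintro rfl
      apply hEι j
      rw [hc, ← he]
      simp
    · rw [hc, ← he, map_pow]
  choose e he0 he using hsq
  let sM : Fin (5 * ν) → Mer := fun j =>
    f (ι j) / (algebraMap ℂ Mer (e j) * A.eval (algebraMap ℂ Mer (t (ι j))))
  have hsM : ∀ j, (Polynomial.C u * R).eval (algebraMap ℂ Mer (t (ι j))) = sM j ^ 2 := by
    intro j
    have h1 := hf (ι j)
    rw [hBf] at h1
    simp only [Polynomial.eval_mul, Polynomial.eval_C, Polynomial.eval_pow] at h1 ⊢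
    rw [he j] at h1
    have h2 : algebraMap ℂ Mer (e j) ≠ 0 := by
      intro h
      exact he0 j ((algebraMap ℂ Mer).injective (by rw [h, map_zero]))
    have h3 : A.eval (algebraMap ℂ Mer (t (ι j))) ≠ 0 := hAc _ (Mer.deriv_algebraMap _)
    change _ = (f (ι j) / (algebraMap ℂ Mer (e j) * A.eval (algebraMap ℂ Mer (t (ι j))))) ^ 2
    rw [div_pow, ← h1, eq_div_iff (pow_ne_zero 2 (mul_ne_zero h2 h3))]
    ring
  -- representatives
  have hrep : ∀ x : Mer, ∃ g : MerFun, merHom g = x := merHom_surjective
  let P : Polynomial Mer := Polynomial.C u * R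
  let rep : Mer → MerFun := fun x => (hrep x).choose
  have hrep' : ∀ x, merHom (rep x) = x := fun x => (hrep x).choose_spec
  let p : ℕ → MerFun := fun i => if i ≤ ν then rep (P.coeff i) else 0
  have hPdeg : P.natDegree = ν := by
    change (Polynomial.C u * R).natDegree = ν
    rw [Polynomial.natDegree_C_mul hu]
  have hp : ∀ i, merHom (p i) = P.coeff i := by
    intro i
    by_cases hi : i ≤ ν
    · simp only [p, if_pos hi, hrep']
    · simp only [p, if_neg hi, map_zero]
      rw [Polynomial.coeff_eq_zero_of_natDegree_lt (by omega)]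
  have hmain := analytic_core hνpos (fun j => t (ι j)) (ht.comp hι) (fun i => (p i).1)
    (fun i => (p i).2) (by
      intro i hi
      have : p i = 0 := by simp only [p, if_neg (not_le.2 hi)]
      rw [this]
      rfl) (fun j => (rep (sM j)).1) (fun j => (rep (sM j)).2) (by
      intro j
      have h1 : ∑ i ∈ Finset.range (ν + 1), merHom (p i) * algebraMap ℂ Mer (t (ι j)) ^ i =
          merHom (rep (sM j)) ^ 2 := by
        rw [hrep', ← hsM j, Polynomial.eval_eq_sum_range]
        change _ = ∑ i ∈ Finset.range (P.natDegree + 1), _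
        rw [hPdeg]
        refine Finset.sum_congr rfl fun i _ => ?_
        rw [hp i]
      have h2 : merHom (∑ i ∈ Finset.range (ν + 1), p i * algebraMap ℂ MerFun (t (ι j)) ^ i) =
          merHom (rep (sM j) ^ 2) := by
        rw [map_pow, ← h1, map_sum]
        refine Finset.sum_congr rfl fun i _ => ?_
        rw [map_mul, map_pow]
        rfl
      intro z₀
      have h3 := mem_merIdeal.1 (merHom_eq.1 h2) z₀
      filter_upwards [h3] with z hz
      have h4 : merEval z (∑ i ∈ Finset.range (ν + 1), p i * algebraMap ℂ MerFun (t (ι j)) ^ i) =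
          merEval z (rep (sM j) ^ 2) := sub_eq_zero.1 hz
      rw [map_sum] at h4
      exact h4)
  let q' : ℕ → MerFun := fun i => ⟨deriv (p i).1, mem_merFun.2 fun z => ((p i).2 z).deriv⟩
  have hq' : ∀ i, merHom (q' i) = (Differential.mapCoeffs P).coeff i := by
    intro i
    rw [Differential.coeff_mapCoeffs, ← hp i]
    exact (Mer.deriv_mk (p i).1 (p i).2).symm
  have hzero := bez_det_eq_zero_of_eventually (ν := ν) p q' hmain
  have hne := bez_det_ne_zero (P := P) (Q := Differential.mapCoeffs P) hPdeg
    ((natDegree_mapCoeffs_le_core P).trans hPdeg.le) (isCoprime_scale hu hcop)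
  apply hne
  rw [← hzero]
  congr 2
  · funext i
    exact (hp i).symm
  · funext i
    exact (hq' i).symm

end Pool.Agent.Work.MP_f82ddf_nt.DQ
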