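import Pool.Agent.Work.MP_f82ddf_nt.Defs

/-!
# Complete intersections of diagonal quadrics: definitions
-/

open MvPolynomial Topology

namespace Pool.Agent.Work.MP_f82ddf_nt

/-- The diagonal quadratic forms `∑ j, a i j * y j ^ 2`, one for each row of the matrix `a`. -/
def diagonal {K : Type*} [Field K] {r N : ℕ} (a : Matrix (Fin r) (Fin (N + 1)) K) :
    Set (MvPolynomial (Fin (N + 1)) K) :=
  Set.range fun i => ∑ j, C (a i j) * X j ^ 2

/-- The intersection of the diagonal quadrics `∑ j, a i j * y j ^ 2 = 0`, one for each row of the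
matrix `a`, is a smooth complete intersection (Jacobian criterion): at every nonzero geometric
point the gradients of the forms are linearly independent. -/
def SmoothDiagonal {K : Type*} [Field K] {r N : ℕ} (a : Matrix (Fin r) (Fin (N + 1)) K) : Prop :=
  ∀ v : Fin (N + 1) → AlgebraicClosure K, v ≠ 0 →
    (∀ i, ∑ j, algebraMap K (AlgebraicClosure K) (a i j) * v j ^ 2 = 0) →
    LinearIndependent (AlgebraicClosure K)
      (fun (i : Fin r) (j : Fin (N + 1)) => 2 * algebraMap K (AlgebraicClosure K) (a i j) * v j)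

/-- The forms `Λ j` in `n + 1` variables have degree `d` and span all the forms of degree `d`: the
map `x ↦ (Λ 0 (x) : ⋯ : Λ N (x))` is the `d`-uple embedding of `n`-space followed by a linear
embedding in `N`-space. -/
def IsEmbedding {K : Type*} [Field K] {n N : ℕ} (d : ℕ)
    (Λ : Fin (N + 1) → MvPolynomial (Fin (n + 1)) K) : Prop :=
  0 < d ∧ (∀ j, (Λ j).IsHomogeneous d) ∧
    ∀ G : MvPolynomial (Fin (n + 1)) K, G.IsHomogeneous d → G ∈ Submodule.span K (Set.range Λ)

namespace DQ

/-- The Bezout matrix of two polynomials of degree at most `ν` with coefficients `p`, `q`. -/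
def bez {R : Type*} [CommRing R] (ν : ℕ) (p q : ℕ → R) : Matrix (Fin ν) (Fin ν) R :=
  Matrix.of fun a b => ∑ l ∈ Finset.range ((b : ℕ) + 1),
    (p ((a : ℕ) + b + 1 - l) * q l - p l * q ((a : ℕ) + b + 1 - l))

/-- A monic irreducible polynomial over a differential field is moving if its coefficients are not
all constant. -/
def Moving {M : Type*} [Field M] [Differential M] (P : Polynomial M) : Prop :=
  P.Monic ∧ Irreducible P ∧ Differential.mapCoeffs P ≠ 0

/-- All moving monic irreducible polynomials divide `B` with an even multiplicity. -/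
def EvenMoving {M : Type*} [Field M] [Differential M] (B : Polynomial M) : Prop :=
  ∀ P : Polynomial M, Moving P → ∀ k : ℕ, P ^ (2 * k + 1) ∣ B → P ^ (2 * k + 2) ∣ B

/-- The polynomial `∑ i, ∑ j, G i j * X ^ (16 ^ i + 16 ^ j)`. -/
noncomputable def lac {R : Type*} [CommRing R] {h : ℕ} (G : Matrix (Fin h) (Fin h) R) :
    Polynomial R :=
  ∑ i, ∑ j, Polynomial.C (G i j) * Polynomial.X ^ (16 ^ (i : ℕ) + 16 ^ (j : ℕ))

/-- The value at the point `x` of the polynomial in `t` whose coefficients are the monomials with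
exponents `β l`. -/
def lam {R : Type*} [CommRing R] {n h : ℕ} (β : Fin h → (Fin (n + 1) →₀ ℕ)) (t : R)
    (x : Fin (n + 1) → R) : R :=
  ∑ l, (∏ i, x i ^ β l i) * t ^ 16 ^ (l : ℕ)

/-- The functional `c` on the forms of degree `2 * d` vanishes on the multiples of the forms
in `S`. -/
def Ann {K L : Type*} [Field K] [Field L] {n : ℕ} (σ : K →+* L) (d : ℕ)
    (S : Set (MvPolynomial (Fin (n + 1)) K)) (c : (Fin (n + 1) →₀ ℕ) → L) : Prop :=
  ∀ F ∈ S, ∀ e, F.IsHomogeneous e → ∀ γ : Fin (n + 1) →₀ ℕ, γ.degree + e = 2 * d →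
    ∑ m ∈ F.support, σ (coeff m F) * c (m + γ) = 0

end DQ

end Pool.Agent.Work.MP_f82ddf_nt
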