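import Pool.Agent.Work.MP_f82ddf_nt.DQ.Main
import Pool.Agent.Work.MP_f82ddf_nt.HF.Final

/-!
# The reduction to smooth complete intersections of diagonal quadrics
-/

open MvPolynomial Topology Filter Set
open scoped LinearAlgebra.Projectivization

namespace Pool.Agent.Work.MP_f82ddf_nt.DQ

/-- Reduction to the rational points of smooth complete intersections of diagonal quadrics. -/
theorem hf_of_diagonal (k : Type) [Field k] [NumberField k] (ρ : k →+* ℂ) (δ : ℕ → ℕ)
    (H : ∀ (N r : ℕ) (a : Matrix (Fin r) (Fin (N + 1)) k), N + 1 < 2 * r → δ (N - r) ≤ r →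
      SmoothDiagonal a → KobayashiHyperbolic (complexPoints (diagonal a) ρ) →
        (points (diagonal a) k).Finite)
    (K : Type) [Field K] [Algebra k K] [FiniteDimensional k K] (n : ℕ)
    (S : Set (MvPolynomial (Fin (n + 1)) K)) (hS : ∀ F ∈ S, ∃ d, F.IsHomogeneous d)
    (hyp : ∀ σ : K →+* ℂ, σ.comp (algebraMap k K) = ρ →
      KobayashiHyperbolic (complexPoints S σ)) (L : Type) [Field L]
    [Algebra K L] [FiniteDimensional K L] : (points S L).Finite := by
  let _ : Algebra k L := ((algebraMap K L).comp (algebraMap k K)).toAlgebra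
  have _ : IsScalarTower k K L := IsScalarTower.of_algebraMap_eq fun x => rfl
  have _ : FiniteDimensional k L := FiniteDimensional.trans k K L
  let E := IntermediateField.normalClosure k L (AlgebraicClosure L)
  have _ : Algebra.IsAlgebraic k (AlgebraicClosure L) := Algebra.IsAlgebraic.trans k L _
  have _ : IsAlgClosure k (AlgebraicClosure L) := ⟨inferInstance, inferInstance⟩
  have _ : Normal k (AlgebraicClosure L) := IsAlgClosure.normal k _
  have _ : Normal k E := normalClosure.normal k L _
  have _ : FiniteDimensional k E := normalClosure.is_finiteDimensional k L _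
  have _ : IsGalois k E := ⟨⟩
  have hSL := baseSet_homogeneous hS L
  have hSE := baseSet_homogeneous hSL E
  have hypE : ∀ τ : E →+* ℂ, τ.comp (algebraMap k E) = ρ →
      KobayashiHyperbolic (complexPoints (baseSet (baseSet S L) E) τ) := by
    intro τ hτ
    rw [complexPoints_baseSet, complexPoints_baseSet]
    apply hyp
    rw [← hτ]
    ext x
    simp only [RingHom.comp_apply]
    congr 1
  have hQ := weil_hyperbolic hSE ρ hypE
  obtain ⟨N, r, d, a, Λ, h1, h2, h3, -, -, h4, h5⟩ := exists_diagonal δ
    (QSet k (baseSet (baseSet S L) E)) (QSet_homogeneous hSE)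
  rw [← points_baseSet L L]
  apply points_finite_of_le hSL E
  rw [← points_baseSet E E]
  apply weil_points (k := k) hSE
  exact h4 k (H N r a h1 h2 h3 (((h5 ρ).1).2 hQ))

/-- The equivalence. -/
theorem diagonal_reduction (k : Type) [Field k] [NumberField k] (ρ : k →+* ℂ) (δ : ℕ → ℕ) :
    (∀ (N r : ℕ) (a : Matrix (Fin r) (Fin (N + 1)) k), N + 1 < 2 * r → δ (N - r) ≤ r →
        SmoothDiagonal a → KobayashiHyperbolic (complexPoints (diagonal a) ρ) →
          (points (diagonal a) k).Finite) ↔
      ∀ (K : Type) [Field K] [Algebra k K] [FiniteDimensional k K] (n : ℕ)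
        (S : Set (MvPolynomial (Fin (n + 1)) K)), (∀ G ∈ S, ∃ e, G.IsHomogeneous e) →
        (∀ σ : K →+* ℂ, σ.comp (algebraMap k K) = ρ →
          KobayashiHyperbolic (complexPoints S σ)) →
        ∀ (L : Type) [Field L] [Algebra K L] [FiniteDimensional K L], (points S L).Finite := by
  constructor
  · intro H K _ _ _ n S hS hyp L _ _ _
    exact hf_of_diagonal k ρ δ H K n S hS hyp L
  · intro H N r a _ _ _ hyp
    refine H k N (diagonal a) (isHomogeneous_diagonal a) (fun σ hσ => ?_) k
    rw [Algebra.algebraMap_self, RingHom.comp_id] at hσ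
    rwa [hσ]

end Pool.Agent.Work.MP_f82ddf_nt.DQ
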