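import Pool.Agent.Work.MP_f82ddf_nt.DQ.Hol

/-!
# Entire curves and points with values in the field of meromorphic functions, II
-/

open Topology Filter Metric Set MvPolynomial
open scoped LinearAlgebra.Projectivization

namespace Pool.Agent.Work.MP_f82ddf_nt.DQ

/-- A point with values in `Mer` gives an entire curve. -/
theorem exists_curve_of_mer {K : Type} [Field K] {n : ℕ}
    {S : Set (MvPolynomial (Fin (n + 1)) K)} (hS : ∀ F ∈ S, ∃ e, F.IsHomogeneous e)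
    (σ : K →+* ℂ) (f : Fin (n + 1) → ℂ → ℂ) (hf : ∀ j z, MeromorphicAt (f j) z) {i : Fin (n + 1)}
    (hi : Mer.mk (f i) (hf i) = 1)
    (hx : ∀ F ∈ S, MvPolynomial.eval₂ ((algebraMap ℂ Mer).comp σ)
      (fun j => Mer.mk (f j) (hf j)) F = 0) :
    ∃ Φ : ℂ → PSpace ℂ n, HolomorphicOn Φ univ ∧ (∀ z, Φ z ∈ complexPoints S σ) ∧
      ∀ z₀, ∀ᶠ z in 𝓝[≠] z₀, ∃ c : ℂ, c ≠ 0 ∧ ∀ j, (Φ z).rep j = c * f j z := by
  classical
  have hi1 : ∀ z₀, ∀ᶠ z in 𝓝[≠] z₀, f i z = 1 := by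
    rw [← map_one (algebraMap ℂ Mer), Mer.algebraMap_eq, Mer.mk_eq_mk] at hi
    exact hi
  have hFz : ∀ F ∈ S, ∀ z₀, ∀ᶠ z in 𝓝[≠] z₀, eval₂ σ (fun j => f j z) F = 0 := fun F hF =>
    (mer_eval₂_eq_zero σ f hf F).1 (hx F hF)
  -- the support
  let T : Type := {j : Fin (n + 1) // ∀ᶠ z in 𝓝[≠] (0 : ℂ), f j z ≠ 0}
  have hiT : ∀ᶠ z in 𝓝[≠] (0 : ℂ), f i z ≠ 0 := by
    filter_upwards [hi1 0] with z hz
    rw [hz]
    exact one_ne_zero
  have : Nonempty T := ⟨⟨i, hiT⟩⟩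
  have : Finite T := inferInstance
  have hTne : ∀ (j : T) z₀, ∀ᶠ z in 𝓝[≠] z₀, f j.1 z ≠ 0 := fun j =>
    mero_ne (hf j.1) j.2.frequently
  have hT0 : ∀ j, (¬ ∀ᶠ z in 𝓝[≠] (0 : ℂ), f j z ≠ 0) → ∀ z₀, ∀ᶠ z in 𝓝[≠] z₀, f j z = 0 := by
    intro j hj
    rcases (hf j 0).eventually_eq_zero_or_eventually_ne_zero with h1 | h1
    · exact mero_zero (hf j) h1
    · exact absurd h1 hj
  -- local lifts
  have hloc : ∀ z₀ : ℂ, ∃ (u : ℂ → ℂ) (g : ℂ → Fin (n + 1) → ℂ), AnalyticAt ℂ g z₀ ∧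
      (∀ z, g z ≠ 0) ∧ ∀ᶠ z in 𝓝[≠] z₀, u z ≠ 0 ∧ ∀ j, f j z = u z * g z j := by
    intro z₀
    obtain ⟨J, h, h1, h2, h3⟩ := local_rep (fun j : T => f j.1) z₀ (fun j => hf j.1 z₀)
      (fun j => hTne j z₀)
    refine ⟨f J.1, fun z j => if hj : (∀ᶠ z in 𝓝[≠] (0 : ℂ), f j z ≠ 0) then h ⟨j, hj⟩ z else 0,
      ?_, ?_, ?_⟩
    · refine analyticAt_pi_iff.2 fun j => ?_
      by_cases hj : ∀ᶠ z in 𝓝[≠] (0 : ℂ), f j z ≠ 0
      · simp only [dif_pos hj]
        exact h1 _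
      · simp only [dif_neg hj]
        exact analyticAt_const
    · intro z hz
      have h4 := congrFun hz J.1
      simp only [dif_pos J.2, Pi.zero_apply] at h4
      have h5 : h J z = 1 := congrFun h2 z
      rw [show (⟨J.1, J.2⟩ : T) = J from rfl, h5] at h4
      exact one_ne_zero h4
    · have h4 : ∀ᶠ z in 𝓝[≠] z₀, ∀ j, (¬ ∀ᶠ z in 𝓝[≠] (0 : ℂ), f j z ≠ 0) → f j z = 0 := by
        refine eventually_all.2 fun j => ?_
        by_cases hj : ∀ᶠ z in 𝓝[≠] (0 : ℂ), f j z ≠ 0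
        · exact Eventually.of_forall fun z h5 => absurd hj h5
        · filter_upwards [hT0 j hj z₀] with z hz _
          exact hz
      filter_upwards [h3, h4, hTne J z₀] with z h5 h6 h7
      refine ⟨h7, fun j => ?_⟩
      by_cases hj : ∀ᶠ z in 𝓝[≠] (0 : ℂ), f j z ≠ 0
      · simp only [dif_pos hj]
        exact h5 ⟨j, hj⟩
      · simp only [dif_neg hj, mul_zero]
        exact h6 j hj
  choose u g hg hg0 hug using hloc
  let Φ : ℂ → PSpace ℂ n := fun z => Projectivization.mk ℂ (g z z) (hg0 z z)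
  have hlift : ∀ z₀, ∀ᶠ z in 𝓝 z₀, Φ z = Projectivization.mk ℂ (g z₀ z) (hg0 z₀ z) := by
    intro z₀
    have h1 : ∀ᶠ z in 𝓝[≠] z₀, Φ z = Projectivization.mk ℂ (g z₀ z) (hg0 z₀ z) := by
      filter_upwards [ev_ev (hug z₀), nhdsWithin_le_nhds (hg z₀).eventually_analyticAt]
        with z h2 h3
      have h4 : ∀ j k, g z z j * g z₀ z k = g z z k * g z₀ z j := by
        intro j k
        have h5 : ∀ᶠ y in 𝓝[≠] z, g z y j * g z₀ y k = g z y k * g z₀ y j := by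
          filter_upwards [hug z, nhdsWithin_le_nhds h2] with y h6 h7
          have h8 : u z y * g z y j = u z₀ y * g z₀ y j := (h6.2 j).symm.trans (h7.2 j)
          have h9 : u z y * g z y k = u z₀ y * g z₀ y k := (h6.2 k).symm.trans (h7.2 k)
          apply mul_left_cancel₀ (mul_ne_zero h6.1 h7.1)
          linear_combination (u z₀ y * g z₀ y k) * h8 - (u z₀ y * g z₀ y j) * h9
        exact (eq_of_punctured (((analyticAt_pi_iff.1 (hg z)) j).mul
          ((analyticAt_pi_iff.1 h3) k)) (((analyticAt_pi_iff.1 (hg z)) k).mul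
          ((analyticAt_pi_iff.1 h3) j)) h5).self_of_nhds
      obtain ⟨k, hk⟩ : ∃ k, g z₀ z k ≠ 0 := by
        by_contra hcon
        push Not at hcon
        exact hg0 z₀ z (funext hcon)
      show Projectivization.mk ℂ (g z z) (hg0 z z) = _
      rw [Projectivization.mk_eq_mk_iff']
      refine ⟨g z z k / g z₀ z k, ?_⟩
      funext j
      rw [Pi.smul_apply, smul_eq_mul, div_mul_eq_mul_div, div_eq_iff hk]
      exact (h4 j k).symm
    rw [← nhdsNE_sup_pure, eventually_sup]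
    refine ⟨h1, ?_⟩
    rw [eventually_pure]
  refine ⟨Φ, ?_, ?_, ?_⟩
  · intro z₀ _
    refine ⟨g z₀, hg z₀, ?_⟩
    filter_upwards [hlift z₀] with z hz
    exact ⟨hg0 z₀ z, hz⟩
  · intro z₀
    refine mk_mem_complexPoints hS σ _ _ fun F hF => ?_
    obtain ⟨e, he⟩ := hS F hF
    have h1 : ∀ᶠ z in 𝓝[≠] z₀, eval₂ σ (g z₀ z) F = 0 := by
      filter_upwards [hFz F hF z₀, hug z₀] with z h2 h3
      have h4 : (fun j => f j z) = u z₀ z • g z₀ z := by
        funext j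
        exact h3.2 j
      rw [h4, eval₂_smul_hom he] at h2
      rcases mul_eq_zero.1 h2 with h5 | h5
      · exact absurd h5 (pow_ne_zero _ h3.1)
      · exact h5
    have h2 : AnalyticAt ℂ (fun z => eval₂ σ (g z₀ z) F) z₀ := by
      have h3 : (fun z => eval₂ σ (g z₀ z) F) =
          fun z => ∑ m ∈ F.support, σ (coeff m F) * ∏ i, g z₀ z i ^ m i := by
        funext z
        rw [eval₂_eq']
      rw [h3]
      refine Finset.analyticAt_fun_sum _ fun m _ => ?_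
      refine AnalyticAt.mul analyticAt_const ?_
      refine Finset.analyticAt_fun_prod _ fun i _ => ?_
      exact ((analyticAt_pi_iff.1 (hg z₀)) i).pow _
    exact (eq_of_punctured h2 analyticAt_const h1).self_of_nhds
  · intro z₀
    filter_upwards [hug z₀, nhdsWithin_le_nhds (hlift z₀)] with z h1 h2
    obtain ⟨c, hc⟩ := Projectivization.exists_smul_eq_mk_rep ℂ (g z₀ z) (hg0 z₀ z)
    refine ⟨c / u z₀ z, div_ne_zero c.ne_zero h1.1, fun j => ?_⟩
    have h5 : (Φ z).rep j = c * g z₀ z j := by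
      rw [h2, ← hc]
      rfl
    have h6 := h1.1
    rw [h5, h1.2 j]
    field_simp

/-- An entire curve gives a point with values in `Mer`. -/
theorem exists_mer_of_curve {K : Type} [Field K] {n : ℕ}
    {S : Set (MvPolynomial (Fin (n + 1)) K)} (hS : ∀ F ∈ S, ∃ e, F.IsHomogeneous e)
    (σ : K →+* ℂ) (f : ℂ → PSpace ℂ n) (hf : HolomorphicOn f univ)
    (hfX : ∀ z, f z ∈ complexPoints S σ) :
    ∃ (φ : Fin (n + 1) → ℂ → ℂ) (hφ : ∀ j z, MeromorphicAt (φ j) z) (i : Fin (n + 1)),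
      Mer.mk (φ i) (hφ i) = 1 ∧
      (∀ F ∈ S, MvPolynomial.eval₂ ((algebraMap ℂ Mer).comp σ)
        (fun j => Mer.mk (φ j) (hφ j)) F = 0) ∧
      (∀ z₀, ∀ᶠ z in 𝓝[≠] z₀, ∃ c : ℂ, c ≠ 0 ∧ ∀ j, (f z).rep j = c * φ j z) ∧
      ((∃ a b, f a ≠ f b) → ∃ l, ∀ c : ℂ, Mer.mk (φ l) (hφ l) ≠ algebraMap ℂ Mer c) := by
  classical
  obtain ⟨i₀, hi₀⟩ : ∃ i, (f 0).rep i ≠ 0 := by
    by_contra hcon
    push Not at hcon
    exact (f 0).rep_nonzero (funext hcon)
  set φ : Fin (n + 1) → ℂ → ℂ := crd f i₀ with hφ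
  have hφm : ∀ i z, MeromorphicAt (φ i) z := fun i z => crd_mero hf i₀ i z
  have hφ0ne : ∀ z₀, ∀ᶠ z in 𝓝[≠] z₀, φ i₀ z ≠ 0 := by
    apply mero_ne (hφm i₀) (z₁ := 0)
    apply Eventually.frequently
    obtain ⟨g, hg⟩ := hf 0 (mem_univ 0)
    have hg' : IsLift f g 0 := hg
    have h1 := crd_lift hg' i₀ i₀
    have h2 : g 0 i₀ ≠ 0 := by
      intro h0
      have h3 := h1.self_of_nhds
      rw [h0, div_zero] at h3
      unfold crd at h3
      rw [div_self hi₀] at h3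
      exact one_ne_zero h3
    have h3 : ContinuousAt (fun z => g z i₀) 0 := ((analyticAt_pi_iff.1 hg'.1) i₀).continuousAt
    apply nhdsWithin_le_nhds
    filter_upwards [h1, h3.eventually_ne h2] with z h4 h5
    rw [hφ, h4, div_self h5]
    exact one_ne_zero
  have hrep : ∀ z, φ i₀ z ≠ 0 → (f z).rep i₀ ≠ 0 := by
    intro z hz h0
    apply hz
    rw [hφ]
    unfold crd
    rw [h0, div_zero]
  have hφ1 : ∀ z₀, ∀ᶠ z in 𝓝[≠] z₀, φ i₀ z = 1 := by
    intro z₀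
    filter_upwards [hφ0ne z₀] with z hz
    rw [hφ]
    exact div_self (hrep z hz)
  have hprop : ∀ z, φ i₀ z ≠ 0 → ∀ j, φ j z = ((f z).rep i₀)⁻¹ * (f z).rep j := by
    intro z _ j
    rw [hφ]
    show (f z).rep j / (f z).rep i₀ = ((f z).rep i₀)⁻¹ * (f z).rep j
    rw [div_eq_inv_mul]
  refine ⟨φ, hφm, i₀, ?_, ?_, ?_, ?_⟩
  · rw [← map_one (algebraMap ℂ Mer), Mer.algebraMap_eq, Mer.mk_eq_mk]
    exact hφ1
  · intro F hF
    obtain ⟨e, he⟩ := hS F hF
    rw [mer_eval₂_eq_zero]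
    intro z₀
    filter_upwards [hφ0ne z₀] with z hz
    have h1 : (fun j => φ j z) = ((f z).rep i₀)⁻¹ • (f z).rep := funext fun j => hprop z hz j
    rw [h1, eval₂_smul_hom he, hfX z F hF, mul_zero]
  · intro z₀
    filter_upwards [hφ0ne z₀] with z hz
    refine ⟨(f z).rep i₀, hrep z hz, fun j => ?_⟩
    rw [hprop z hz j, mul_inv_cancel_left₀ (hrep z hz)]
  · rintro ⟨a, b, hab⟩
    by_contra hcon
    push Not at hcon
    choose c hc using hcon
    have hc' : ∀ i z₀, ∀ᶠ z in 𝓝[≠] z₀, φ i z = c i := by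
      intro i
      have := hc i
      rw [Mer.algebraMap_eq, Mer.mk_eq_mk] at this
      exact this
    have h1 : ∀ z₀, ∃ a : ℂ, (f z₀).rep = a • c := by
      intro z₀
      obtain ⟨g, hg⟩ := hf z₀ (mem_univ z₀)
      have hg' : IsLift f g z₀ := hg
      have h2 : ∀ i, g z₀ i = c i * g z₀ i₀ := by
        intro i
        have h3 : ∀ᶠ z in 𝓝[≠] z₀, g z i = c i * g z i₀ := by
          filter_upwards [hc' i z₀, hφ0ne z₀, nhdsWithin_le_nhds (crd_lift hg' i₀ i),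
            nhdsWithin_le_nhds (crd_lift hg' i₀ i₀)] with z a1 a2 a3 a4
          rw [hφ] at a1 a2
          rw [a3] at a1
          rw [a4] at a2
          have a5 : g z i₀ ≠ 0 := by
            intro h0
            rw [h0, div_zero] at a2
            exact a2 rfl
          rw [← a1]
          field_simp
        exact (eq_of_punctured ((analyticAt_pi_iff.1 hg'.1) i)
          (analyticAt_const.mul ((analyticAt_pi_iff.1 hg'.1) i₀)) h3).self_of_nhds
      obtain ⟨a, ha⟩ := Projectivization.exists_smul_eq_mk_rep ℂ (g z₀) hg'.ne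
      refine ⟨a * g z₀ i₀, ?_⟩
      rw [hg'.eq, ← ha]
      funext i
      show (a : ℂ) * g z₀ i = a * g z₀ i₀ * c i
      rw [h2 i]
      ring
    apply hab
    obtain ⟨s, hs⟩ := h1 a
    obtain ⟨t, ht⟩ := h1 b
    have ht0 : t ≠ 0 := by
      intro h0
      rw [h0, zero_smul] at ht
      exact (f b).rep_nonzero ht
    rw [← (f a).mk_rep, ← (f b).mk_rep, Projectivization.mk_eq_mk_iff']
    refine ⟨s / t, ?_⟩
    rw [hs, ht, smul_smul, div_mul_cancel₀ _ ht0]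

/-- Two holomorphic curves which agree near every point, except perhaps at the point, agree. -/
theorem curve_ext {n : ℕ} {f f' : ℂ → PSpace ℂ n} (hf : HolomorphicOn f univ)
    (hf' : HolomorphicOn f' univ) (h : ∀ z₀, ∀ᶠ z in 𝓝[≠] z₀, f z = f' z) : f = f' := by
  funext z₀
  obtain ⟨g, hg⟩ := hf z₀ (mem_univ z₀)
  obtain ⟨g', hg'⟩ := hf' z₀ (mem_univ z₀)
  have hl : IsLift f g z₀ := hg
  have hl' : IsLift f' g' z₀ := hg'
  have h4 : ∀ j k, g z₀ j * g' z₀ k = g z₀ k * g' z₀ j := by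
    intro j k
    have h5 : ∀ᶠ y in 𝓝[≠] z₀, g y j * g' y k = g y k * g' y j := by
      filter_upwards [h z₀, nhdsWithin_le_nhds hl.2, nhdsWithin_le_nhds hl'.2] with y h6 h7 h8
      obtain ⟨a1, a2⟩ := h7
      obtain ⟨b1, b2⟩ := h8
      rw [a2, b2, Projectivization.mk_eq_mk_iff'] at h6
      obtain ⟨c, hc⟩ := h6
      rw [← hc]
      show c * g' y j * g' y k = c * g' y k * g' y j
      ring
    exact (eq_of_punctured (((analyticAt_pi_iff.1 hl.1) j).mul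
      ((analyticAt_pi_iff.1 hl'.1) k)) (((analyticAt_pi_iff.1 hl.1) k).mul
      ((analyticAt_pi_iff.1 hl'.1) j)) h5).self_of_nhds
  obtain ⟨k, hk⟩ : ∃ k, g' z₀ k ≠ 0 := by
    by_contra hcon
    push Not at hcon
    exact hl'.ne (funext hcon)
  rw [hl.eq, hl'.eq, Projectivization.mk_eq_mk_iff']
  refine ⟨g z₀ k / g' z₀ k, ?_⟩
  funext j
  rw [Pi.smul_apply, smul_eq_mul, div_mul_eq_mul_div, div_eq_iff hk]
  exact (h4 j k).symm

end Pool.Agent.Work.MP_f82ddf_nt.DQ
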