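import Pool.Agent.Work.MP_f82ddf_nt.DQ.LacE

/-!
# Lacunary polynomials: linear in `T = X ^ N`
-/

set_option linter.unusedSectionVars false

open scoped Differential

namespace Pool.Agent.Work.MP_f82ddf_nt.DQ

section Lac0

open Polynomial

variable {M : Type*} [Field M] [CharZero M] [Differential M]

theorem mapCoeffs_X_pow (N : ℕ) : Differential.mapCoeffs (X ^ N : M[X]) = 0 := by
  rw [Derivation.leibniz_pow, Differential.mapCoeffs_X]; simp

theorem natDegree_add_eul_le (N : ℕ) (l : M[X]) :
    ((N : M[X]) * l + eul l).natDegree ≤ l.natDegree := by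
  refine (natDegree_add_le _ _).trans (max_le ?_ (natDegree_eul_le l))
  rw [← C_eq_natCast]; exact natDegree_C_mul_le _ _

theorem eul_leading {l b : M[X]} (hl0 : l ≠ 0) {N : ℕ} (hb : b.natDegree < N)
    (h : l * eul b = ((N : M[X]) * l + eul l) * b) : b = 0 := by
  by_contra hb0
  have h1 := congrArg (fun Q => Q.coeff (l.natDegree + b.natDegree)) h
  simp only [coeff_mul_add_eq_of_natDegree_le le_rfl (natDegree_eul_le b),
    coeff_mul_add_eq_of_natDegree_le (natDegree_add_eul_le N l) le_rfl] at h1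
  rw [coeff_add, ← C_eq_natCast, coeff_C_mul, coeff_eul, coeff_eul] at h1
  have h3 : (l.coeff l.natDegree * b.coeff b.natDegree) *
      ((b.natDegree : M) - (N + l.natDegree : ℕ)) = 0 := by
    push_cast
    linear_combination h1
  rw [coeff_natDegree, coeff_natDegree] at h3
  have h4 := (mul_eq_zero.mp h3).resolve_left
    (mul_ne_zero (leadingCoeff_ne_zero.mpr hl0) (leadingCoeff_ne_zero.mpr hb0))
  have h5 : b.natDegree = N + l.natDegree := by exact_mod_cast sub_eq_zero.mp h4
  omega

theorem exists_reduced {l : M[X]} (hl0 : l ≠ 0) (b : M[X]) :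
    ∃ l1 b1 k : M[X], l1.Monic ∧ IsCoprime l1 b1 ∧ l = k * l1 ∧ b = k * b1 := by
  obtain ⟨l1, b1, k, hrel, hl1, hb1⟩ := UniqueFactorizationMonoid.exists_reduced_factors l hl0 b
  have hl10 : l1 ≠ 0 := by rintro rfl; exact hl0 (by rw [← hl1, mul_zero])
  have hc : l1.leadingCoeff ≠ 0 := leadingCoeff_ne_zero.mpr hl10
  have hCC : (C l1.leadingCoeff * C l1.leadingCoeff⁻¹ : M[X]) = 1 := by
    rw [← C_mul, mul_inv_cancel₀ hc, C_1]
  refine ⟨l1 * C l1.leadingCoeff⁻¹, b1 * C l1.leadingCoeff⁻¹, k * C l1.leadingCoeff,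
    monic_mul_leadingCoeff_inv hl10, ?_, ?_, ?_⟩
  · have hu : IsUnit (C l1.leadingCoeff⁻¹ : M[X]) :=
      isUnit_C.mpr (isUnit_iff_ne_zero.mpr (inv_ne_zero hc))
    rw [isCoprime_mul_unit_right_left hu, isCoprime_mul_unit_right_right hu]
    exact hrel.isCoprime
  · rw [← hl1]; linear_combination (-k * l1) * hCC
  · rw [← hb1]; linear_combination (-k * b1) * hCC

/-- Block Lac0: linear in `T = X ^ N`. -/
theorem quad_zero {N N' : ℕ} (hN : 16 * N' ≤ N) (hN' : 0 < N') {l b : M[X]} (hl0 : l ≠ 0)
    (hl : l.natDegree ≤ N') (hb : b.natDegree ≤ 2 * N')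
    (hE : EvenMoving (l * X ^ N + b)) :
    EvenMoving l ∧ (b = 0 ∨
      l * Differential.mapCoeffs b = Differential.mapCoeffs l * b) := by
  have hBdeg : (l * X ^ N + b).natDegree = l.natDegree + N := by
    rw [natDegree_add_eq_left_of_natDegree_lt, natDegree_mul hl0 (pow_ne_zero _ X_ne_zero),
      natDegree_X_pow]
    rw [natDegree_mul hl0 (pow_ne_zero _ X_ne_zero), natDegree_X_pow]
    omega
  have hB0 : l * X ^ N + b ≠ 0 := by
    intro h0; rw [h0, natDegree_zero] at hBdeg; omega
  obtain ⟨F, A, hF0, hA0, hFA, hFB, hAB, hFD, hAe⟩ := hE.exists_dvd hB0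
  have hD1 : F ∣ l * Differential.mapCoeffs b - Differential.mapCoeffs l * b := by
    have : l * Differential.mapCoeffs b - Differential.mapCoeffs l * b =
        l * Differential.mapCoeffs (l * X ^ N + b) -
          Differential.mapCoeffs l * (l * X ^ N + b) := by
      rw [map_add, mapCoeffs_mul, mapCoeffs_X_pow]; ring
    rw [this]
    exact dvd_sub (hFD.mul_left _) (hFB.mul_left _)
  have hD2 : A ∣ l * eul b - ((N : M[X]) * l + eul l) * b := by
    have : l * eul b - ((N : M[X]) * l + eul l) * b =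
        l * eul (l * X ^ N + b) - ((N : M[X]) * l + eul l) * (l * X ^ N + b) := by
      rw [eul_add, eul_mul, eul_X_pow]; ring
    rw [this]
    exact dvd_sub (hAe.mul_left _) (hAB.mul_left _)
  by_cases h2 : l * eul b - ((N : M[X]) * l + eul l) * b = 0
  · have hb0 : b = 0 := eul_leading hl0 (by omega) (sub_eq_zero.mp h2)
    refine ⟨?_, Or.inl hb0⟩
    rw [hb0, add_zero, mul_comm] at hE
    exact EvenMoving.of_mul (pow_ne_zero _ X_ne_zero) (mapCoeffs_X_pow N) hE
  by_cases h1 : l * Differential.mapCoeffs b - Differential.mapCoeffs l * b = 0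
  · refine ⟨?_, Or.inr (sub_eq_zero.mp h1)⟩
    obtain ⟨l1, b1, k, hmon, hcop, rfl, rfl⟩ := exists_reduced hl0 b
    have hk0 : k ≠ 0 := left_ne_zero_of_mul hl0
    have h3 : l1 * Differential.mapCoeffs b1 = Differential.mapCoeffs l1 * b1 := by
      rw [mapCoeffs_mul, mapCoeffs_mul] at h1
      have h4 : k ^ 2 * (l1 * Differential.mapCoeffs b1 - Differential.mapCoeffs l1 * b1) = 0 := by
        linear_combination h1
      exact sub_eq_zero.mp ((mul_eq_zero.mp h4).resolve_left (pow_ne_zero _ hk0))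
    have h4 : Differential.mapCoeffs l1 = 0 :=
      mapCoeffs_eq_zero_of_dvd hmon (hcop.dvd_of_dvd_mul_right ⟨_, h3.symm⟩)
    have h5 : Differential.mapCoeffs b1 = 0 := by
      rw [h4, zero_mul] at h3
      exact (mul_eq_zero.mp h3).resolve_left hmon.ne_zero
    have h6 : k * l1 * X ^ N + k * b1 = (l1 * X ^ N + b1) * k := by ring
    rw [h6] at hE hB0
    have h7 : EvenMoving k := EvenMoving.of_mul (left_ne_zero_of_mul hB0)
      (by rw [map_add, mapCoeffs_mul, mapCoeffs_X_pow, h4, h5]; simp) hE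
    rw [mul_comm]
    exact EvenMoving.mul hmon.ne_zero h4 h7
  · exfalso
    have h3 : F.natDegree ≤ 3 * N' := by
      refine (natDegree_le_of_dvd hD1 h1).trans ((natDegree_sub_le _ _).trans (max_le ?_ ?_))
      · refine natDegree_mul_le.trans ?_
        have := natDegree_mapCoeffs_le b
        omega
      · refine natDegree_mul_le.trans ?_
        have := natDegree_mapCoeffs_le l
        omega
    have h4 : A.natDegree ≤ 3 * N' := by
      refine (natDegree_le_of_dvd hD2 h2).trans ((natDegree_sub_le _ _).trans (max_le ?_ ?_))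
      · refine natDegree_mul_le.trans ?_
        have := natDegree_eul_le b
        omega
      · refine natDegree_mul_le.trans ?_
        have := natDegree_add_eul_le N l
        omega
    omega

end Lac0

end Pool.Agent.Work.MP_f82ddf_nt.DQ
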