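import Pool.Agent.Work.MP_f82ddf_nt.DQ.LacE

/-!
# Lacunary polynomials: leading coefficient one in `T = X ^ N`
-/

set_option linter.unusedSectionVars false

open scoped Differential

namespace Pool.Agent.Work.MP_f82ddf_nt.DQ

section Lac1

open Polynomial

variable {M : Type*} [Field M] [CharZero M] [Differential M]

theorem Lac1.mapCoeffs_X_pow (N : ℕ) : Differential.mapCoeffs (X ^ N : M[X]) = 0 := by
  rw [Derivation.leibniz_pow, Differential.mapCoeffs_X]; simp

/-- If the resultant of `T ^ 2 + l * T + b` and `p * T + q` vanishes then the quadratic polynomial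
splits. -/
theorem Lac1.split {N' : ℕ} {l b p q : M[X]} (hl : l.natDegree ≤ N') (hb : b.natDegree ≤ 2 * N')
    (hp : p ≠ 0) (h : q ^ 2 - l * p * q + b * p ^ 2 = 0) :
    ∃ T₀ T₁ : M[X], p * T₀ + q = 0 ∧ l = -(T₀ + T₁) ∧ b = T₀ * T₁ ∧ T₀.natDegree ≤ N' ∧
      T₁.natDegree ≤ N' := by
  have h1 : p ∣ 2 * q - l * p := by
    rw [← UniqueFactorizationMonoid.pow_dvd_pow_iff_dvd two_ne_zero]
    exact ⟨l ^ 2 - 4 * b, by linear_combination 4 * h⟩
  have h2 : p ∣ 2 * q := by
    have := dvd_add h1 (dvd_mul_left p l)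
    rwa [sub_add_cancel] at this
  have h3 : IsUnit (2 : M[X]) := by
    have : (2 : M[X]) = C 2 := by rw [map_ofNat]
    rw [this, isUnit_C]
    exact isUnit_iff_ne_zero.mpr two_ne_zero
  rw [h3.dvd_mul_left] at h2
  obtain ⟨r, rfl⟩ := h2
  have h4 : r ^ 2 - l * r + b = 0 := by
    have : p ^ 2 * (r ^ 2 - l * r + b) = 0 := by linear_combination h
    exact (mul_eq_zero.mp this).resolve_left (pow_ne_zero _ hp)
  have h5 : r.natDegree ≤ N' := by
    by_contra hcon
    push Not at hcon
    have h6 : r ^ 2 = l * r - b := by linear_combination h4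
    have h7 := congrArg natDegree h6
    rw [natDegree_pow] at h7
    have h8 : (l * r - b).natDegree ≤ max (l.natDegree + r.natDegree) b.natDegree :=
      (natDegree_sub_le _ _).trans (max_le_max natDegree_mul_le le_rfl)
    rw [← h7] at h8
    rcases le_max_iff.mp h8 with h9 | h9 <;> omega
  refine ⟨-r, r - l, by ring, by ring, by linear_combination h4, ?_, ?_⟩
  · rwa [natDegree_neg]
  · exact (natDegree_sub_le _ _).trans (max_le h5 hl)

theorem Lac1.dvd_res {F T l b p q : M[X]} (h1 : F ∣ T ^ 2 + l * T + b) (h2 : F ∣ p * T + q) :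
    F ∣ q ^ 2 - l * p * q + b * p ^ 2 := by
  have : q ^ 2 - l * p * q + b * p ^ 2 =
      p ^ 2 * (T ^ 2 + l * T + b) - (p * T + q) * (p * T + p * l - q) := by ring
  rw [this]
  exact dvd_sub (h1.mul_left _) (h2.mul_right _)

theorem Lac1.natDegree_res {N' : ℕ} {l b p q : M[X]} (hl : l.natDegree ≤ N')
    (hb : b.natDegree ≤ 2 * N') (hp : p.natDegree ≤ N') (hq : q.natDegree ≤ 2 * N') :
    (q ^ 2 - l * p * q + b * p ^ 2).natDegree ≤ 4 * N' := by
  have h1 : (q ^ 2).natDegree ≤ 4 * N' := natDegree_pow_le.trans (by omega)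
  have h2 : (l * p * q).natDegree ≤ 4 * N' := by
    have h3 : (l * p).natDegree ≤ 2 * N' := natDegree_mul_le.trans (by omega)
    exact natDegree_mul_le.trans (by omega)
  have h4 : (b * p ^ 2).natDegree ≤ 4 * N' := by
    have h3 : (p ^ 2).natDegree ≤ 2 * N' := natDegree_pow_le.trans (by omega)
    exact natDegree_mul_le.trans (by omega)
  exact (natDegree_add_le _ _).trans (max_le ((natDegree_sub_le _ _).trans (max_le h1 h2)) h4)

/-- Block Lac1: the leading coefficient in `T = X ^ N` is one. -/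
theorem quad_one {N N' : ℕ} (hN : 16 * N' ≤ N) (hN' : 0 < N') {l b : M[X]}
    (hl : l.natDegree ≤ N') (hb : b.natDegree ≤ 2 * N')
    (hE : EvenMoving ((X ^ N) ^ 2 + l * X ^ N + b)) :
    (Differential.mapCoeffs l = 0 ∧ Differential.mapCoeffs b = 0) ∨ l ^ 2 = 4 * b := by
  have hBdeg : ((X ^ N) ^ 2 + l * X ^ N + b : M[X]).natDegree = 2 * N := by
    have h1 : (l * X ^ N + b : M[X]).natDegree < 2 * N := by
      refine lt_of_le_of_lt ((natDegree_add_le _ _).trans
        (max_le_max natDegree_mul_le le_rfl)) ?_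
      rw [natDegree_X_pow]
      exact max_lt (by omega) (by omega)
    rw [add_assoc, natDegree_add_eq_left_of_natDegree_lt, natDegree_pow, natDegree_X_pow]
    rw [natDegree_pow, natDegree_X_pow]
    exact h1
  have hB0 : ((X ^ N) ^ 2 + l * X ^ N + b : M[X]) ≠ 0 := by
    intro h0; rw [h0, natDegree_zero] at hBdeg; omega
  obtain ⟨F, A, hF0, hA0, hFA, hFB, hAB, hFD, hAe⟩ := hE.exists_dvd hB0
  -- the two resultants
  have hF1 : F ∣ Differential.mapCoeffs l * X ^ N + Differential.mapCoeffs b := by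
    have : Differential.mapCoeffs l * X ^ N + Differential.mapCoeffs b =
        Differential.mapCoeffs ((X ^ N) ^ 2 + l * X ^ N + b) := by
      rw [map_add, map_add, mapCoeffs_mul, ← pow_mul, Lac1.mapCoeffs_X_pow, Lac1.mapCoeffs_X_pow]
      ring
    rw [this]; exact hFD
  have hA1 : A ∣ (eul l - (N : M[X]) * l) * X ^ N + (eul b - 2 * (N : M[X]) * b) := by
    have : (eul l - (N : M[X]) * l) * X ^ N + (eul b - 2 * (N : M[X]) * b) =
        eul ((X ^ N) ^ 2 + l * X ^ N + b) -
          2 * (N : M[X]) * ((X ^ N) ^ 2 + l * X ^ N + b) := by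
      rw [eul_add, eul_add, eul_mul, pow_two, eul_mul, eul_X_pow]; ring
    rw [this]; exact dvd_sub hAe (hAB.mul_left _)
  have hF2 := Lac1.dvd_res hFB hF1
  have hA2 := Lac1.dvd_res hAB hA1
  have hsplit : ∀ T₀ T₁ : M[X], l = -(T₀ + T₁) → b = T₀ * T₁ →
      ((X ^ N) ^ 2 + l * X ^ N + b : M[X]) = (X ^ N - T₀) * (X ^ N - T₁) := by
    rintro T₀ T₁ rfl rfl; ring
  by_cases h1 : Differential.mapCoeffs b ^ 2 -
      l * Differential.mapCoeffs l * Differential.mapCoeffs b +
        b * Differential.mapCoeffs l ^ 2 = 0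
  · by_cases hp : Differential.mapCoeffs l = 0
    · refine Or.inl ⟨hp, ?_⟩
      rw [hp] at h1
      exact pow_eq_zero_iff two_ne_zero |>.mp (by linear_combination h1)
    · obtain ⟨T₀, T₁, h2, h3, h4, h5, h6⟩ := Lac1.split hl hb hp h1
      have h7 : (T₀ - T₁) * Differential.mapCoeffs T₀ = 0 := by
        have hl' : Differential.mapCoeffs l =
            -(Differential.mapCoeffs T₀ + Differential.mapCoeffs T₁) := by
          rw [h3, map_neg, map_add]
        have hb' : Differential.mapCoeffs b =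
            T₀ * Differential.mapCoeffs T₁ + T₁ * Differential.mapCoeffs T₀ := by
          rw [h4, mapCoeffs_mul]
        rw [hl', hb'] at h2
        linear_combination -h2
      rcases mul_eq_zero.mp h7 with h8 | h8
      · right
        rw [h3, h4, ← sub_eq_zero.mp h8]; ring
      · left
        rw [hsplit T₀ T₁ h3 h4] at hE
        have hne : (X ^ N - T₀ : M[X]) ≠ 0 := by
          intro h0
          have := natDegree_X_pow_sub (M := M) (show N' < N by omega) h5
          rw [h0, natDegree_zero] at this; omega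
        have h9 := lemmaE (show 3 * N' < N by omega) h6 (EvenMoving.of_mul hne
          (by rw [map_sub, Lac1.mapCoeffs_X_pow, h8, sub_zero]) hE)
        rw [h3, h4, map_neg, map_add, mapCoeffs_mul, h8, h9]
        simp
  by_cases h1' : (eul b - 2 * (N : M[X]) * b) ^ 2 -
      l * (eul l - (N : M[X]) * l) * (eul b - 2 * (N : M[X]) * b) +
        b * (eul l - (N : M[X]) * l) ^ 2 = 0
  · by_cases hp : eul l - (N : M[X]) * l = 0
    · have hl0 : l = 0 := eq_zero_of_eul (N := N) (by omega) (sub_eq_zero.mp hp)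
      rw [hp] at h1'
      have hq : eul b - 2 * (N : M[X]) * b = 0 :=
        pow_eq_zero_iff two_ne_zero |>.mp (by linear_combination h1')
      have hb0 : b = 0 := eq_zero_of_eul (N := 2 * N) (by omega)
        (by push_cast; exact sub_eq_zero.mp hq)
      left
      rw [hl0, hb0, map_zero]
      exact ⟨rfl, rfl⟩
    · obtain ⟨T₀, T₁, h2, h3, h4, h5, h6⟩ := Lac1.split hl hb hp h1'
      have h7 : (T₀ - T₁) * (eul T₀ - (N : M[X]) * T₀) = 0 := by
        have hl' : eul l = -(eul T₀ + eul T₁) := by rw [h3, eul_neg, eul_add]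
        have hb' : eul b = eul T₀ * T₁ + T₀ * eul T₁ := by rw [h4, eul_mul]
        rw [hl', hb', h3, h4] at h2
        linear_combination -h2
      rcases mul_eq_zero.mp h7 with h8 | h8
      · right
        rw [h3, h4, ← sub_eq_zero.mp h8]; ring
      · left
        have hT0 : T₀ = 0 := eq_zero_of_eul (N := N) (by omega) (sub_eq_zero.mp h8)
        rw [hsplit T₀ T₁ h3 h4, hT0, sub_zero] at hE
        have h9 := lemmaE (show 3 * N' < N by omega) h6 (EvenMoving.of_mul
          (pow_ne_zero _ X_ne_zero) (Lac1.mapCoeffs_X_pow N) hE)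
        rw [h3, h4, map_neg, map_add, mapCoeffs_mul, hT0, h9]
        simp
  · exfalso
    have h3 : F.natDegree ≤ 4 * N' := (natDegree_le_of_dvd hF2 h1).trans
      (Lac1.natDegree_res hl hb ((natDegree_mapCoeffs_le l).trans hl)
        ((natDegree_mapCoeffs_le b).trans hb))
    have h4 : A.natDegree ≤ 4 * N' := by
      refine (natDegree_le_of_dvd hA2 h1').trans (Lac1.natDegree_res hl hb ?_ ?_)
      · refine (natDegree_sub_le _ _).trans (max_le ((natDegree_eul_le l).trans hl) ?_)
        rw [← C_eq_natCast]; exact (natDegree_C_mul_le _ _).trans hl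
      · refine (natDegree_sub_le _ _).trans (max_le ((natDegree_eul_le b).trans hb) ?_)
        have : (2 * (N : M[X])) = C ((2 * N : ℕ) : M) := by
          rw [C_eq_natCast]; push_cast; ring
        rw [this]; exact (natDegree_C_mul_le _ _).trans hb
    omega

end Lac1

end Pool.Agent.Work.MP_f82ddf_nt.DQ
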