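import Pool.Agent.Work.MP_f82ddf_nt.DQ.Fac

/-!
# Lacunary polynomials: the linear case
-/

set_option linter.unusedSectionVars false

open scoped Differential

namespace Pool.Agent.Work.MP_f82ddf_nt.DQ

section LacE

open Polynomial

variable {M : Type*} [Field M] [CharZero M] [Differential M]

/-- The Euler operator. -/
noncomputable def eul (P : M[X]) : M[X] := X * derivative P

theorem coeff_eul (P : M[X]) (n : ℕ) : (eul P).coeff n = (n : M) * P.coeff n := by
  rw [eul]
  cases n with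
  | zero => simp
  | succ n => rw [coeff_X_mul, coeff_derivative]; push_cast; ring

theorem eul_add (P Q : M[X]) : eul (P + Q) = eul P + eul Q := by
  rw [eul, eul, eul, derivative_add]; ring

theorem eul_sub (P Q : M[X]) : eul (P - Q) = eul P - eul Q := by
  rw [eul, eul, eul, derivative_sub]; ring

theorem eul_neg (P : M[X]) : eul (-P) = -eul P := by
  rw [eul, eul, derivative_neg]; ring

theorem eul_mul (P Q : M[X]) : eul (P * Q) = eul P * Q + P * eul Q := by
  rw [eul, eul, eul, derivative_mul]; ring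

theorem eul_C (a : M) : eul (C a) = 0 := by rw [eul, derivative_C, mul_zero]

theorem eul_X_pow (N : ℕ) : eul (X ^ N : M[X]) = (N : M[X]) * X ^ N := by
  ext n
  rw [coeff_eul, ← C_eq_natCast, coeff_C_mul, coeff_X_pow]
  split_ifs with h
  · rw [h]
  · simp

theorem natDegree_eul_le (P : M[X]) : (eul P).natDegree ≤ P.natDegree := by
  rw [natDegree_le_iff_coeff_eq_zero]
  intro n hn
  rw [coeff_eul, coeff_eq_zero_of_natDegree_lt hn, mul_zero]

/-- An eigenvector of the Euler operator whose degree is smaller than the eigenvalue is zero. -/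
theorem eq_zero_of_eul {P : M[X]} {N : ℕ} (hP : P.natDegree < N) (h : eul P = (N : M[X]) * P) :
    P = 0 := by
  ext n
  rw [coeff_zero]
  rcases lt_or_ge n N with hn | hn
  · have h1 := congrArg (fun Q => Q.coeff n) h
    simp only [coeff_eul, ← C_eq_natCast, coeff_C_mul] at h1
    have h2 : ((n : M) - N) * P.coeff n = 0 := by rw [sub_mul, h1, sub_self]
    refine (mul_eq_zero.mp h2).resolve_left ?_
    exact sub_ne_zero.mpr (by exact_mod_cast hn.ne)
  · exact coeff_eq_zero_of_natDegree_lt (by omega)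

/-- What the factorisation `B = C u * E * A ^ 2` of an even moving polynomial gives: `E * A`
divides `B` and its derivative, `A` divides the Euler derivative. -/
theorem EvenMoving.exists_dvd {B : M[X]} (hB : B ≠ 0) (h : EvenMoving B) :
    ∃ F A : M[X], F ≠ 0 ∧ A ≠ 0 ∧ F.natDegree + A.natDegree = B.natDegree ∧ F ∣ B ∧ A ∣ B ∧
      F ∣ Differential.mapCoeffs B ∧ A ∣ eul B := by
  obtain ⟨u, E, A, hu, hE, hA, hD, hBe⟩ := EvenMoving.exists_factor hB h
  have hC : (C u : M[X]) ≠ 0 := by rwa [Ne, C_eq_zero]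
  refine ⟨E * A, A, mul_ne_zero hE.ne_zero hA.ne_zero, hA.ne_zero, ?_, ?_, ?_, ?_, ?_⟩
  · rw [hBe, mul_assoc, natDegree_C_mul hu, natDegree_mul hE.ne_zero (pow_ne_zero _ hA.ne_zero),
      natDegree_mul hE.ne_zero hA.ne_zero, natDegree_pow]
    ring
  · rw [hBe]; exact ⟨C u * A, by ring⟩
  · rw [hBe]; exact ⟨C u * E * A, by ring⟩
  · rw [hBe, mapCoeffs_mul, mapCoeffs_mul, hD, pow_two, mapCoeffs_mul, Differential.mapCoeffs_C]
    exact ⟨2 * C u * Differential.mapCoeffs A + C u′ * A, by ring⟩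
  · rw [hBe, eul_mul (C u * E), pow_two, eul_mul A A]
    exact ⟨eul (C u * E) * A + 2 * C u * E * eul A, by ring⟩

theorem natDegree_X_pow_sub {N N' : ℕ} (hN : N' < N) {T : M[X]} (hT : T.natDegree ≤ N') :
    (X ^ N - T).natDegree = N := by
  rw [natDegree_sub_eq_left_of_natDegree_lt, natDegree_X_pow]
  rw [natDegree_X_pow]; omega

/-- Block LacE -/
theorem lemmaE {N N' : ℕ} (hN : 3 * N' < N) {T : M[X]} (hT : T.natDegree ≤ N')
    (hE : EvenMoving (X ^ N - T)) : Differential.mapCoeffs T = 0 := by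
  by_contra hDT
  have hT0 : T ≠ 0 := by rintro rfl; exact hDT (map_zero _)
  have hdeg := natDegree_X_pow_sub (M := M) (show N' < N by omega) hT
  have hB : (X ^ N - T : M[X]) ≠ 0 := by
    intro h0; rw [h0, natDegree_zero] at hdeg; omega
  obtain ⟨F, A, hF0, hA0, hFA, hFB, hAB, hFD, hAe⟩ := hE.exists_dvd hB
  have h1 : Differential.mapCoeffs (X ^ N - T) = -Differential.mapCoeffs T := by
    rw [map_sub, Derivation.leibniz_pow, Differential.mapCoeffs_X]; simp
  have h2 : F.natDegree ≤ N' := by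
    rw [h1, dvd_neg] at hFD
    exact (natDegree_le_of_dvd hFD hDT).trans ((natDegree_mapCoeffs_le T).trans hT)
  have h3 : A ∣ (N : M[X]) * T - eul T := by
    have : (N : M[X]) * T - eul T = eul (X ^ N - T) - (N : M[X]) * (X ^ N - T) := by
      rw [eul_sub, eul_X_pow]; ring
    rw [this]
    exact dvd_sub hAe (hAB.mul_left _)
  have h4 : (N : M[X]) * T - eul T ≠ 0 := by
    intro h0
    exact hT0 (eq_zero_of_eul (N := N) (by omega) (sub_eq_zero.mp h0).symm)
  have h5 : A.natDegree ≤ N' := by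
    refine (natDegree_le_of_dvd h3 h4).trans ?_
    refine (natDegree_sub_le _ _).trans (max_le ?_ ((natDegree_eul_le T).trans hT))
    rw [← C_eq_natCast]
    exact (natDegree_C_mul_le _ _).trans hT
  omega

/-- Block LacE -/
theorem linear_lacunary {h : ℕ} (v : Fin h → M) (hv : v ≠ 0)
    (hE : EvenMoving (∑ i, C (v i) * X ^ 16 ^ (i : ℕ))) :
    ∃ i₀, v i₀ ≠ 0 ∧ ∀ i, (v i / v i₀)′ = 0 := by
  classical
  obtain ⟨a, ha⟩ : ∃ a, v a ≠ 0 := by
    by_contra hcon
    push Not at hcon
    exact hv (funext hcon)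
  obtain ⟨m, hm, hmax⟩ : ∃ m : Fin h, v m ≠ 0 ∧ ∀ b : Fin h, m < b → v b = 0 := by
    have hne : (Finset.univ.filter fun a : Fin h => v a ≠ 0).Nonempty := ⟨a, by simp [ha]⟩
    refine ⟨_, (Finset.mem_filter.mp (Finset.max'_mem _ hne)).2, fun b hb => ?_⟩
    by_contra hvb
    exact absurd (Finset.le_max' _ b (by simp [hvb])) (not_le.mpr hb)
  refine ⟨m, hm, ?_⟩
  set T : M[X] := -∑ i ∈ Finset.univ.filter (fun i : Fin h => i < m),
    C (v i / v m) * X ^ 16 ^ (i : ℕ) with hT
  have hsum : ∑ i, C (v i) * X ^ 16 ^ (i : ℕ) = C (v m) * (X ^ 16 ^ (m : ℕ) - T) := by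
    have h1 : ∀ i : Fin h, C (v i) * X ^ 16 ^ (i : ℕ) =
        C (v m) * (if i < m then C (v i / v m) * X ^ 16 ^ (i : ℕ) else
          if i = m then X ^ 16 ^ (m : ℕ) else 0) := by
      intro i
      rcases lt_trichotomy i m with h | h | h
      · rw [if_pos h, ← mul_assoc, ← C_mul, mul_div_cancel₀ _ hm]
      · rw [h]; simp
      · rw [if_neg (not_lt.mpr h.le), if_neg h.ne', hmax i h]; simp
    rw [Finset.sum_congr rfl (fun i _ => h1 i), ← Finset.mul_sum]
    congr 1
    rw [hT, sub_neg_eq_add, Finset.sum_ite, add_comm]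
    congr 1
    rw [Finset.sum_ite_eq_of_mem' _ m]
    simp
  rw [hsum, evenMoving_C_mul hm] at hE
  have hTdeg : T.natDegree ≤ 16 ^ (m : ℕ) / 16 := by
    rw [hT, natDegree_neg]
    refine natDegree_sum_le_of_forall_le _ _ fun i hi => ?_
    rw [Finset.mem_filter] at hi
    refine (natDegree_C_mul_X_pow_le _ _).trans ?_
    have h1 : (i : ℕ) < m := hi.2
    have h2 : (16 : ℕ) ^ (m : ℕ) = 16 ^ ((m : ℕ) - 1) * 16 := by
      rw [← pow_succ]; congr 1; omega
    rw [h2, Nat.mul_div_cancel _ (by norm_num)]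
    exact Nat.pow_le_pow_right (by norm_num) (by omega)
  have hpos : 0 < 16 ^ (m : ℕ) := by positivity
  have hD := lemmaE (by omega) hTdeg hE
  intro i
  rcases lt_trichotomy i m with h | h | h
  · have h1 : T.coeff (16 ^ (i : ℕ)) = -(v i / v m) := by
      have hi : i ∈ Finset.univ.filter (fun i => i < m) :=
        Finset.mem_filter.mpr ⟨Finset.mem_univ _, h⟩
      rw [hT, coeff_neg, finsetSum_coeff, Finset.sum_eq_single_of_mem i hi]
      · rw [coeff_C_mul, coeff_X_pow, if_pos rfl, mul_one]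
      · intro j _ hj
        rw [coeff_C_mul, coeff_X_pow, if_neg, mul_zero]
        intro h0
        exact hj (Fin.ext (Nat.pow_right_injective (le_refl 2 |>.trans (by norm_num)) h0).symm)
    have h2 := congrArg (fun Q => Q.coeff (16 ^ (i : ℕ))) hD
    simp only [Differential.coeff_mapCoeffs, h1, coeff_zero] at h2
    simpa using h2
  · rw [h, div_self hm]; exact Derivation.map_one_eq_zero _
  · rw [hmax i h, zero_div]; exact map_zero _

end LacE

end Pool.Agent.Work.MP_f82ddf_nt.DQ
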