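import Pool.Agent.Work.MP_f82ddf_nt.DQ.Fac
import Pool.Agent.Work.MP_f82ddf_nt.DQ.LacE
import Pool.Agent.Work.MP_f82ddf_nt.DQ.Lac1
import Pool.Agent.Work.MP_f82ddf_nt.DQ.Lac0

/-!
# Block Lac: lacunary quadratic polynomials
-/

open Polynomial
open scoped Differential

namespace Pool.Agent.Work.MP_f82ddf_nt.DQ

namespace Lac

theorem pow_pair_aux {i j k l : ℕ} (hij : i ≤ j) (hkl : k ≤ l)
    (h : 16 ^ i + 16 ^ j = 16 ^ k + 16 ^ l) : i = k ∧ j = l := by
  have key : ∀ {i j k l : ℕ}, i ≤ j → k ≤ l → 16 ^ i + 16 ^ j = 16 ^ k + 16 ^ l → ¬ j < l := by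
    intro i j k l hij _ h hjl
    have h1 : 16 ^ i ≤ 16 ^ j := Nat.pow_le_pow_right (by norm_num) hij
    have h2 : 16 ^ (j + 1) ≤ 16 ^ l := Nat.pow_le_pow_right (by norm_num) hjl
    have h3 : 0 < 16 ^ j := by positivity
    rw [pow_succ] at h2
    have h4 : 0 < 16 ^ k := by positivity
    omega
  have hjl : j = l := by
    have h1 := key hij hkl h
    have h2 := key hkl hij h.symm
    omega
  subst hjl
  exact ⟨Nat.pow_right_injective (le_refl 2 |>.trans (by norm_num)) (Nat.add_right_cancel h), rfl⟩

theorem pow_pair_inj {i j k l : ℕ} :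
    16 ^ i + 16 ^ j = 16 ^ k + 16 ^ l ↔ (i = k ∧ j = l) ∨ (i = l ∧ j = k) := by
  constructor
  · intro h
    rcases le_total i j with hij | hij <;> rcases le_total k l with hkl | hkl
    · exact Or.inl (pow_pair_aux hij hkl h)
    · rw [add_comm (16 ^ k)] at h
      exact Or.inr (pow_pair_aux hij hkl h)
    · rw [add_comm (16 ^ i)] at h
      exact Or.inr ((pow_pair_aux hij hkl h).symm)
    · rw [add_comm (16 ^ i), add_comm (16 ^ k)] at h
      exact Or.inl ((pow_pair_aux hij hkl h).symm)
  · rintro (⟨rfl, rfl⟩ | ⟨rfl, rfl⟩)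
    · rfl
    · exact add_comm _ _

section

variable {R : Type*} [CommRing R]

theorem coeff_lac {h : ℕ} (G : Matrix (Fin h) (Fin h) R) (i j : Fin h) :
    (lac G).coeff (16 ^ (i : ℕ) + 16 ^ (j : ℕ)) = if i = j then G i j else G i j + G j i := by
  simp only [lac, finsetSum_coeff, coeff_C_mul, coeff_X_pow, mul_ite, mul_one, mul_zero,
    pow_pair_inj, ← Fin.ext_iff]
  by_cases hij : i = j
  · subst hij
    rw [if_pos rfl, Finset.sum_eq_single i, Finset.sum_eq_single i]
    · simp
    · intro l _ hl
      rw [if_neg]
      rintro (⟨-, h⟩ | ⟨h, -⟩)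
      · exact hl h.symm
      · exact hl h.symm
    · simp
    · intro k _ hk
      refine Finset.sum_eq_zero fun l _ => ?_
      rw [if_neg]
      rintro (⟨h, -⟩ | ⟨-, h⟩)
      · exact hk h.symm
      · exact hk h.symm
    · simp
  · rw [if_neg hij]
    have h1 : ∀ k l : Fin h, (if (i = k ∧ j = l) ∨ (i = l ∧ j = k) then G k l else 0) =
        (if i = k then (if j = l then G k l else 0) else 0) +
        (if j = k then (if i = l then G k l else 0) else 0) := by
      intro k l
      by_cases h1 : i = k
      · subst h1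
        have : ¬ j = i := fun h => hij h.symm
        simp [this]
      · by_cases h2 : j = k
        · subst h2
          simp [h1]
        · simp [h1, h2]
    simp only [h1, Finset.sum_add_distrib, Finset.sum_ite_irrel, Finset.sum_const_zero]
    simp

theorem coeff_lin {h : ℕ} (v : Fin h → R) (i : Fin h) :
    (∑ j, C (v j) * X ^ 16 ^ (j : ℕ)).coeff (16 ^ (i : ℕ)) = v i := by
  simp only [finsetSum_coeff, coeff_C_mul, coeff_X_pow, mul_ite, mul_one, mul_zero]
  have h1 : ∀ j : Fin h, (16 ^ (i : ℕ) = 16 ^ (j : ℕ)) ↔ i = j := by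
    intro j
    rw [Fin.ext_iff]
    exact (Nat.pow_right_injective (le_refl 2 |>.trans (by norm_num))).eq_iff
  simp only [h1]
  simp

theorem lac_smul {h : ℕ} (u : R) (G : Matrix (Fin h) (Fin h) R) :
    lac (u • G) = C u * lac G := by
  simp only [lac, Finset.mul_sum, Matrix.smul_apply, smul_eq_mul, C_mul, mul_assoc]

theorem lac_sub {h : ℕ} (G H : Matrix (Fin h) (Fin h) R) :
    lac (G - H) = lac G - lac H := by
  simp only [lac, Matrix.sub_apply, C_sub, sub_mul, Finset.sum_sub_distrib]

theorem lin_sq {h : ℕ} (v : Fin h → R) :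
    (∑ j, C (v j) * X ^ 16 ^ (j : ℕ)) ^ 2 = lac (Matrix.of fun i j => v i * v j) := by
  rw [sq, Finset.sum_mul_sum, lac]
  refine Finset.sum_congr rfl fun i _ => Finset.sum_congr rfl fun j _ => ?_
  rw [Matrix.of_apply, C_mul, pow_add]
  ring

theorem lac_succ {h : ℕ} (G : Matrix (Fin (h + 1)) (Fin (h + 1)) R) (hG : G.IsSymm) :
    lac G = C (G (Fin.last h) (Fin.last h)) * (X ^ 16 ^ h) ^ 2 +
      (C 2 * ∑ i : Fin h, C (G i.castSucc (Fin.last h)) * X ^ 16 ^ (i : ℕ)) * X ^ 16 ^ h +
      lac (G.submatrix Fin.castSucc Fin.castSucc) := by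
  have hs : ∀ i : Fin h, G (Fin.last h) i.castSucc = G i.castSucc (Fin.last h) :=
    fun i => hG.apply _ _
  simp only [lac, Fin.sum_univ_castSucc, Fin.val_castSucc, Fin.val_last, Matrix.submatrix_apply, hs,
    Finset.sum_add_distrib]
  have h1 : ∑ x : Fin h, C (G x.castSucc (Fin.last h)) * X ^ (16 ^ (x : ℕ) + 16 ^ h) =
      (∑ x : Fin h, C (G x.castSucc (Fin.last h)) * X ^ 16 ^ (x : ℕ)) * X ^ 16 ^ h := by
    rw [Finset.sum_mul]
    exact Finset.sum_congr rfl fun x _ => by rw [pow_add, mul_assoc]
  have h2 : ∑ x : Fin h, C (G x.castSucc (Fin.last h)) * X ^ (16 ^ h + 16 ^ (x : ℕ)) =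
      (∑ x : Fin h, C (G x.castSucc (Fin.last h)) * X ^ 16 ^ (x : ℕ)) * X ^ 16 ^ h := by
    rw [← h1]
    exact Finset.sum_congr rfl fun x _ => by rw [add_comm]
  rw [h1, h2, pow_add, C_ofNat]
  ring

end

end Lac

open Lac

variable {M : Type*} [Field M] [CharZero M] [Differential M]

omit [Differential M] in
theorem lac_ne_zero {h : ℕ} (G : Matrix (Fin h) (Fin h) M) (hG : G.IsSymm) (hG0 : G ≠ 0) :
    lac G ≠ 0 := by
  intro h0
  apply hG0
  ext i j
  have h1 := coeff_lac G i j
  rw [h0, coeff_zero] at h1
  by_cases hij : i = j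
  · rw [if_pos hij] at h1
    simpa using h1.symm
  · rw [if_neg hij, hG.apply i j, ← two_mul] at h1
    simpa using h1.symm

omit [CharZero M] [Differential M] in
theorem lac_natDegree {h : ℕ} (G : Matrix (Fin h) (Fin h) M) :
    (lac G).natDegree ≤ 2 * 16 ^ (h - 1) := by
  refine natDegree_sum_le_of_forall_le _ _ fun i _ => natDegree_sum_le_of_forall_le _ _ fun j _ => ?_
  refine (natDegree_C_mul_X_pow_le _ _).trans ?_
  have h1 : 16 ^ (i : ℕ) ≤ 16 ^ (h - 1) := Nat.pow_le_pow_right (by norm_num) (by omega)
  have h2 : 16 ^ (j : ℕ) ≤ 16 ^ (h - 1) := Nat.pow_le_pow_right (by norm_num) (by omega)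
  omega

namespace Lac

omit [CharZero M] [Differential M] in
theorem lin_natDegree {h : ℕ} (v : Fin h → M) :
    (∑ j, C (v j) * X ^ 16 ^ (j : ℕ)).natDegree ≤ 16 ^ (h - 1) := by
  refine natDegree_sum_le_of_forall_le _ _ fun i _ => ?_
  refine (natDegree_C_mul_X_pow_le _ _).trans ?_
  exact Nat.pow_le_pow_right (by norm_num) (by omega)

omit [CharZero M] in
/-- A quotient is constant if the Wronskian vanishes. -/
theorem deriv_div_eq_zero {a b : M} (h : a′ * b = a * b′) : (a / b)′ = 0 := by
  rw [Derivation.leibniz_div]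
  have : b • a′ - a • b′ = 0 := by
    simp only [smul_eq_mul]
    linear_combination h
  rw [this, smul_zero]

omit [CharZero M] in
theorem deriv_one' : (1 : M)′ = 0 := Derivation.map_one_eq_zero _

omit [CharZero M] in
theorem deriv_two : (2 : M)′ = 0 := by
  rw [show (2 : M) = 1 + 1 by norm_num, map_add, deriv_one', add_zero]

/-- Constant coefficients of `lac G` mean constant entries. -/
theorem entries_const {h : ℕ} {G : Matrix (Fin h) (Fin h) M} (hG : G.IsSymm)
    (hD : Differential.mapCoeffs (lac G) = 0) (i j : Fin h) : (G i j)′ = 0 := by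
  have h1 := congrArg (fun p => coeff p (16 ^ (i : ℕ) + 16 ^ (j : ℕ))) hD
  simp only [Differential.coeff_mapCoeffs, coeff_zero, coeff_lac] at h1
  by_cases hij : i = j
  · rwa [if_pos hij] at h1
  · rw [if_neg hij, hG.apply i j, map_add, ← two_mul] at h1
    exact (mul_eq_zero.mp h1).resolve_left two_ne_zero

end Lac

theorem lacunary {h : ℕ} (G : Matrix (Fin h) (Fin h) M) (hG : G.IsSymm) (hG0 : G ≠ 0)
    (hE : EvenMoving (lac G)) :
    (∃ i₀ j₀, G i₀ j₀ ≠ 0 ∧ ∀ i j, (G i j / G i₀ j₀)′ = 0) ∨
      ∀ i j k l, G i j * G k l = G i l * G k j := by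
  induction h with
  | zero => exact absurd (Subsingleton.elim _ _) hG0
  | succ h ih =>
    rcases Nat.eq_zero_or_pos h with rfl | hpos
    · right
      intro i j k l
      have : Subsingleton (Fin (0 + 1)) := Fin.subsingleton_one
      rw [Subsingleton.elim i 0, Subsingleton.elim j 0, Subsingleton.elim k 0,
        Subsingleton.elim l 0]
    have hN : 16 * 16 ^ (h - 1) ≤ 16 ^ h := by
      rw [← pow_succ', Nat.sub_add_cancel hpos]
    have hN' : 0 < 16 ^ (h - 1) := by positivity
    set G₀ : Matrix (Fin h) (Fin h) M := G.submatrix Fin.castSucc Fin.castSucc with hG₀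
    have hG₀s : G₀.IsSymm := hG.submatrix _
    set w : Fin h → M := fun i => G i.castSucc (Fin.last h) with hw
    set g : M := G (Fin.last h) (Fin.last h) with hg
    have hsym : ∀ i : Fin h, G (Fin.last h) i.castSucc = w i := fun i => hG.apply _ _
    have hlac := lac_succ G hG
    rw [← hg, ← hG₀] at hlac
    change lac G = C g * (X ^ 16 ^ h) ^ 2 + (C 2 * ∑ i : Fin h, C (w i) * X ^ 16 ^ (i : ℕ)) *
      X ^ 16 ^ h + lac G₀ at hlac
    by_cases hg0 : g = 0
    · rw [hg0, C_0, zero_mul, zero_add] at hlac
      by_cases hw0 : w = 0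
      · -- no new terms
        have hlac' : lac G = lac G₀ := by
          rw [hlac, hw0]
          simp
        have hG₀0 : G₀ ≠ 0 := by
          intro h0
          apply hG0
          ext i j
          refine Fin.lastCases ?_ (fun i => ?_) i
          · refine Fin.lastCases ?_ (fun j => ?_) j
            · exact hg0
            · rw [hsym, hw0]; rfl
          · refine Fin.lastCases ?_ (fun j => ?_) j
            · exact congrFun hw0 i
            · exact congrFun (congrFun h0 i) j
        have hwi : ∀ i : Fin h, G i.castSucc (Fin.last h) = 0 := fun i => congrFun hw0 i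
        have hli : ∀ i : Fin h, G (Fin.last h) i.castSucc = 0 := fun i => by
          rw [hsym, hw0]; rfl
        have hl0 : ∀ i, G i (Fin.last h) = 0 := fun i =>
          Fin.lastCases hg0 hwi i
        have hl1 : ∀ i, G (Fin.last h) i = 0 := fun i =>
          Fin.lastCases hg0 hli i
        rw [hlac'] at hE
        rcases ih G₀ hG₀s hG₀0 hE with ⟨i₀, j₀, h0, hc⟩ | hr
        · left
          refine ⟨i₀.castSucc, j₀.castSucc, h0, fun i j => ?_⟩
          refine Fin.lastCases ?_ (fun i => ?_) i
          · rw [hl1, zero_div, map_zero]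
          · refine Fin.lastCases ?_ (fun j => ?_) j
            · rw [hl0, zero_div, map_zero]
            · exact hc i j
        · right
          intro i j k l
          refine Fin.lastCases ?_ (fun i => ?_) i
          · rw [hl1, hl1, zero_mul, zero_mul]
          · refine Fin.lastCases ?_ (fun k => ?_) k
            · rw [hl1, hl1, mul_zero, mul_zero]
            · refine Fin.lastCases ?_ (fun j => ?_) j
              · rw [hl0, hl0, mul_zero, zero_mul]
              · refine Fin.lastCases ?_ (fun l => ?_) l
                · rw [hl0, hl0, mul_zero, zero_mul]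
                · exact hr i j k l
      · -- linear in X ^ N
        have hlin0 : (∑ i : Fin h, C (w i) * X ^ 16 ^ (i : ℕ)) ≠ 0 := by
          intro h0
          apply hw0
          ext i
          rw [← coeff_lin w i, h0, coeff_zero]
          rfl
        have hl0 : C 2 * ∑ i : Fin h, C (w i) * X ^ 16 ^ (i : ℕ) ≠ 0 :=
          mul_ne_zero (C_ne_zero.mpr two_ne_zero) hlin0
        have hldeg : (C 2 * ∑ i : Fin h, C (w i) * X ^ 16 ^ (i : ℕ)).natDegree ≤ 16 ^ (h - 1) :=
          (natDegree_C_mul_le _ _).trans (lin_natDegree w)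
        rw [hlac] at hE
        obtain ⟨hEl, hb⟩ := quad_zero hN hN' hl0 hldeg (lac_natDegree G₀) hE
        rw [evenMoving_C_mul two_ne_zero] at hEl
        obtain ⟨i₀, hi₀, hconst⟩ := linear_lacunary w hw0 hEl
        left
        refine ⟨i₀.castSucc, Fin.last h, hi₀, fun i j => ?_⟩
        have hG₀c : ∀ i j, (G₀ i j / w i₀)′ = 0 := by
          rcases hb with hb | hb
          · intro i j
            have hG₀0 : G₀ = 0 := by
              by_contra hne
              exact lac_ne_zero G₀ hG₀s hne hb
            rw [hG₀0]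
            simp
          · -- l = w i₀ * l₁ with l₁ constant
            set l₁ : M[X] := ∑ i : Fin h, C (w i / w i₀) * X ^ 16 ^ (i : ℕ) with hl₁
            have hl₁' : Differential.mapCoeffs l₁ = 0 := by
              rw [hl₁, map_sum]
              refine Finset.sum_eq_zero fun i _ => ?_
              rw [C_mul_X_pow_eq_monomial, Differential.mapCoeffs_monomial, hconst i,
                monomial_zero_right]
            have hl : ∑ i : Fin h, C (w i) * X ^ 16 ^ (i : ℕ) = C (w i₀) * l₁ := by
              rw [hl₁, Finset.mul_sum]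
              refine Finset.sum_congr rfl fun i _ => ?_
              rw [← mul_assoc, ← C_mul, mul_div_cancel₀ _ hi₀]
            have hl₁0 : l₁ ≠ 0 := by
              rintro h0
              rw [hl, h0, mul_zero] at hlin0
              exact hlin0 rfl
            have hD : Differential.mapCoeffs (C 2 * ∑ i : Fin h, C (w i) * X ^ 16 ^ (i : ℕ)) =
                C 2 * (C (w i₀)′ * l₁) := by
              rw [hl, Derivation.leibniz, Derivation.leibniz, hl₁', ← monomial_zero_left,
                ← monomial_zero_left, Differential.mapCoeffs_monomial,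
                Differential.mapCoeffs_monomial, deriv_two, monomial_zero_left]
              simp only [smul_eq_mul, mul_zero, zero_add, monomial_zero_right, add_zero,
                monomial_zero_left]
              ring
            rw [hD, hl] at hb
            have hb' : C (w i₀) * Differential.mapCoeffs (lac G₀) = C (w i₀)′ * lac G₀ := by
              have h2 : (C 2 * l₁ : M[X]) ≠ 0 := mul_ne_zero (C_ne_zero.mpr two_ne_zero) hl₁0
              apply mul_left_cancel₀ h2
              linear_combination hb
            -- scale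
            have hsc : Differential.mapCoeffs (lac ((w i₀)⁻¹ • G₀)) = 0 := by
              rw [lac_smul, Derivation.leibniz, ← monomial_zero_left,
                Differential.mapCoeffs_monomial, Derivation.leibniz_inv, monomial_zero_left,
                monomial_zero_left, smul_eq_mul, smul_eq_mul]
              have h3 : (C (w i₀)⁻¹ : M[X]) * C (w i₀) = 1 := by
                rw [← C_mul, inv_mul_cancel₀ hi₀, C_1]
              have h4 : (C (-(w i₀)⁻¹ ^ 2 • (w i₀)′) : M[X]) =
                  - (C (w i₀)⁻¹ ^ 2 * C (w i₀)′) := by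
                rw [smul_eq_mul, C_mul, C_neg, C_pow]
                ring
              rw [h4]
              linear_combination (C (w i₀)⁻¹) ^ 2 * hb' -
                (C (w i₀)⁻¹) * Differential.mapCoeffs (lac G₀) * h3
            intro i j
            have h5 := entries_const (hG₀s.smul _) hsc i j
            rwa [Matrix.smul_apply, smul_eq_mul, mul_comm, ← div_eq_mul_inv] at h5
        refine Fin.lastCases ?_ (fun i => ?_) i
        · refine Fin.lastCases ?_ (fun j => ?_) j
          · rw [← hg, hg0, zero_div, map_zero]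
          · rw [hsym]; exact hconst j
        · refine Fin.lastCases ?_ (fun j => ?_) j
          · exact hconst i
          · exact hG₀c i j
    · -- leading coefficient g
      have hE' : EvenMoving (C g⁻¹ * lac G) := (evenMoving_C_mul (inv_ne_zero hg0)).mpr hE
      set l : M[X] := C g⁻¹ * (C 2 * ∑ i : Fin h, C (w i) * X ^ 16 ^ (i : ℕ)) with hl
      have hl' : l = C 2 * ∑ i : Fin h, C (w i / g) * X ^ 16 ^ (i : ℕ) := by
        rw [hl, mul_left_comm, Finset.mul_sum]
        congr 1
        refine Finset.sum_congr rfl fun i _ => ?_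
        rw [← mul_assoc, ← C_mul, div_eq_mul_inv, mul_comm (g⁻¹)]
      have hb' : C g⁻¹ * lac G₀ = lac (g⁻¹ • G₀) := (lac_smul _ _).symm
      have hgg : (C g⁻¹ : M[X]) * C g = 1 := by
        rw [← C_mul, inv_mul_cancel₀ hg0, C_1]
      have hB : C g⁻¹ * lac G = (X ^ 16 ^ h) ^ 2 + l * X ^ 16 ^ h + lac (g⁻¹ • G₀) := by
        rw [hlac, ← hb', hl]
        linear_combination (X ^ 16 ^ h) ^ 2 * hgg
      rw [hB] at hE'
      have hldeg : l.natDegree ≤ 16 ^ (h - 1) := by
        rw [hl']
        exact (natDegree_C_mul_le _ _).trans (lin_natDegree _)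
      rcases quad_one hN hN' hldeg (lac_natDegree _) hE' with ⟨hc1, hc2⟩ | hsq
      · left
        refine ⟨Fin.last h, Fin.last h, hg0, fun i j => ?_⟩
        have hwc : ∀ i, (w i / g)′ = 0 := by
          intro i
          have h1 := congrArg (fun p => coeff p (16 ^ (i : ℕ))) hc1
          simp only [Differential.coeff_mapCoeffs, coeff_zero] at h1
          rw [hl', coeff_C_mul, coeff_lin, Derivation.leibniz, deriv_two, smul_zero, add_zero,
            smul_eq_mul] at h1
          exact (mul_eq_zero.mp h1).resolve_left two_ne_zero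
        rw [← hg]
        refine Fin.lastCases ?_ (fun i => ?_) i
        · refine Fin.lastCases ?_ (fun j => ?_) j
          · rw [← hg, div_self hg0]; exact deriv_one'
          · rw [hsym]; exact hwc j
        · refine Fin.lastCases ?_ (fun j => ?_) j
          · exact hwc i
          · have h5 := entries_const (hG₀s.smul _) hc2 i j
            rwa [Matrix.smul_apply, smul_eq_mul, mul_comm, ← div_eq_mul_inv] at h5
      · right
        -- rank one
        have h1 : lac (Matrix.of (fun i j => (w i / g) * (w j / g)) - g⁻¹ • G₀) = 0 := by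
          rw [lac_sub, ← lin_sq]
          rw [hl', mul_pow, ← C_pow] at hsq
          have h4 : (C ((2 : M) ^ 2) : M[X]) = 4 := by
            rw [show ((2 : M) ^ 2) = 4 by norm_num]; exact C_ofNat 4
          rw [h4] at hsq
          have := mul_left_cancel₀ (by norm_num : (4 : M[X]) ≠ 0) hsq
          rw [this, sub_self]
        have h2 : Matrix.of (fun i j => (w i / g) * (w j / g)) - g⁻¹ • G₀ = 0 := by
          by_contra hne
          refine lac_ne_zero _ ?_ hne h1
          refine Matrix.IsSymm.sub ?_ (hG₀s.smul _)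
          ext i j
          simp [mul_comm]
        have h3 : ∀ i j, G₀ i j = w i * w j / g := by
          intro i j
          have := congrFun (congrFun h2 i) j
          simp only [Matrix.sub_apply, Matrix.of_apply, Matrix.smul_apply, smul_eq_mul,
            Matrix.zero_apply] at this
          field_simp at this
          rw [eq_div_iff hg0]
          linear_combination -this
        -- the vector
        have h4 : ∀ i j, G i j = G i (Fin.last h) * G j (Fin.last h) / g := by
          intro i j
          refine Fin.lastCases ?_ (fun i => ?_) i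
          · refine Fin.lastCases ?_ (fun j => ?_) j
            · rw [← hg]; field_simp
            · rw [hsym, ← hg, mul_div_assoc, mul_comm, div_mul_cancel₀ _ hg0]
          · refine Fin.lastCases ?_ (fun j => ?_) j
            · rw [← hg, mul_div_assoc, div_self hg0, mul_one]
            · exact h3 i j
        intro i j k l
        rw [h4 i j, h4 k l, h4 i l, h4 k j]
        ring

end Pool.Agent.Work.MP_f82ddf_nt.DQ
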