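import Pool.Agent.Work.MP_f82ddf_nt.DQ.Defs

/-!
# Block Rel: the relations between the columns of a matrix with nonzero maximal minors
-/

namespace Pool.Agent.Work.MP_f82ddf_nt.DQ

section Rel

/-- If all `m × m` minors of `e` are nonzero, then a combination of the rows with `m` vanishing
entries is trivial. -/
private lemma comb_eq_zero {K L : Type*} [Field K] [Field L] (σ : K →+* L) {m q : ℕ}
    {e : Matrix (Fin m) (Fin q) K}
    (he : ∀ J : Fin m → Fin q, Function.Injective J → (e.submatrix id J).det ≠ 0)
    {J : Fin m → Fin q} (hJ : Function.Injective J) {μ : Fin m → L}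
    (h : ∀ l, ∑ k, μ k * σ (e k (J l)) = 0) : μ = 0 := by
  have h1 : Matrix.vecMul μ ((e.submatrix id J).map σ) = 0 := by
    funext l
    simpa [Matrix.vecMul, dotProduct] using h l
  apply Matrix.eq_zero_of_vecMul_eq_zero _ h1
  rw [← RingHom.mapMatrix_apply, ← RingHom.map_det]
  exact (map_ne_zero σ).mpr (he J hJ)

/-- If all `m × m` minors of `e` are nonzero, then a relation between `m` columns is trivial. -/
private lemma rel_eq_zero {K L : Type*} [Field K] [Field L] (σ : K →+* L) {m q : ℕ}
    {e : Matrix (Fin m) (Fin q) K}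
    (he : ∀ J : Fin m → Fin q, Function.Injective J → (e.submatrix id J).det ≠ 0)
    {J : Fin m → Fin q} (hJ : Function.Injective J) {μ : Fin m → L}
    (h : ∀ k, ∑ l, σ (e k (J l)) * μ l = 0) : μ = 0 := by
  have h1 : Matrix.mulVec ((e.submatrix id J).map σ) μ = 0 := by
    funext l
    simpa [Matrix.mulVec, dotProduct] using h l
  apply Matrix.eq_zero_of_mulVec_eq_zero _ h1
  rw [← RingHom.mapMatrix_apply, ← RingHom.map_det]
  exact (map_ne_zero σ).mpr (he J hJ)

private lemma exists_rel {K : Type} [Field K] {m r q : ℕ} (hq : m + r = q)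
    (e : Matrix (Fin m) (Fin q) K)
    (he : ∀ J : Fin m → Fin q, Function.Injective J → (e.submatrix id J).det ≠ 0) :
    ∃ (a : Matrix (Fin r) (Fin q) K) (I : Fin r → Fin q),
      (∀ i i', a i (I i') = if i = i' then 1 else 0) ∧
      (∀ (L : Type) [Field L] (σ : K →+* L) (y : Fin q → L),
        (∀ i, ∑ j, σ (a i j) * y j = 0) ↔ ∃ μ : Fin m → L, ∀ j, y j = ∑ k, μ k * σ (e k j)) := by
  classical
  subst hq
  set e1 : Matrix (Fin m) (Fin m) K := e.submatrix id (Fin.castAdd r) with he1
  set e2 : Matrix (Fin m) (Fin r) K := e.submatrix id (Fin.natAdd m) with he2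
  have hdet : e1.det ≠ 0 := he _ (Fin.castAdd_injective m r)
  have hu : IsUnit e1.det := isUnit_iff_ne_zero.mpr hdet
  set g : Matrix (Fin m) (Fin r) K := e1⁻¹ * e2 with hg
  have hge : e1 * g = e2 := by
    rw [hg, ← Matrix.mul_assoc, Matrix.mul_nonsing_inv _ hu, Matrix.one_mul]
  refine ⟨Matrix.of fun i => Fin.addCases (fun k => - g k i) (fun i' => if i = i' then 1 else 0),
    Fin.natAdd m, ?_, ?_⟩
  · intro i i'
    simp
  · intro L _ σ y
    have key : (∀ i, ∑ j, σ ((Matrix.of fun i => Fin.addCases (fun k => - g k i)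
        (fun i' => if i = i' then 1 else 0) : Matrix (Fin r) (Fin (m + r)) K) i j) * y j = 0) ↔
        ∀ i, y (Fin.natAdd m i) = ∑ k, σ (g k i) * y (Fin.castAdd r k) := by
      refine forall_congr' fun i => ?_
      rw [Fin.sum_univ_add]
      simp only [Matrix.of_apply, Fin.addCases_left, Fin.addCases_right, map_neg, neg_mul,
        Finset.sum_neg_distrib]
      have h1 : ∑ x : Fin r, σ (if i = x then 1 else 0) * y (Fin.natAdd m x) =
          y (Fin.natAdd m i) := by
        rw [Finset.sum_eq_single i]
        · simp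
        · intro b _ hb
          rw [if_neg (Ne.symm hb), map_zero, zero_mul]
        · simp
      rw [h1, neg_add_eq_zero, eq_comm]
    rw [key]
    constructor
    · intro h
      -- solve `μ e1 = y1`
      refine ⟨Matrix.vecMul (fun k => y (Fin.castAdd r k)) ((e1⁻¹).map σ), ?_⟩
      have h1 : ∀ j, ∑ k, (Matrix.vecMul (fun k => y (Fin.castAdd r k)) ((e1⁻¹).map σ)) k *
          σ (e k j) = Matrix.vecMul (Matrix.vecMul (fun k => y (Fin.castAdd r k))
            ((e1⁻¹).map σ)) (e.map σ) j := by
        intro j
        simp [Matrix.vecMul, dotProduct]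
      intro j
      rw [h1, Matrix.vecMul_vecMul]
      refine Fin.addCases (fun j => ?_) (fun j => ?_) j
      · have h2 : (((e1⁻¹).map σ) * (e.map σ)).submatrix id (Fin.castAdd r) =
            (1 : Matrix (Fin m) (Fin m) L) := by
          rw [Matrix.submatrix_mul _ _ id id (Fin.castAdd r) Function.bijective_id,
            Matrix.submatrix_id_id, Matrix.submatrix_map, ← he1,
            ← RingHom.mapMatrix_apply, ← RingHom.mapMatrix_apply, ← map_mul,
            Matrix.nonsing_inv_mul _ hu, map_one]
        have h3 : ∀ k, (((e1⁻¹).map σ) * (e.map σ)) k (Fin.castAdd r j) =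
            (1 : Matrix (Fin m) (Fin m) L) k j := by
          intro k
          rw [← h2]
          rfl
        rw [Matrix.vecMul, dotProduct]
        simp only [h3]
        simp [Matrix.one_apply]
      · have h2 : (((e1⁻¹).map σ) * (e.map σ)).submatrix id (Fin.natAdd m) = g.map σ := by
          rw [Matrix.submatrix_mul _ _ id id (Fin.natAdd m) Function.bijective_id,
            Matrix.submatrix_id_id, Matrix.submatrix_map, ← he2, ← Matrix.map_mul, ← hg]
        have h3 : ∀ k, (((e1⁻¹).map σ) * (e.map σ)) k (Fin.natAdd m j) = σ (g k j) := by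
          intro k
          have := congrFun (congrFun h2 k) j
          exact this
        rw [Matrix.vecMul, dotProduct, h j]
        refine Finset.sum_congr rfl fun k _ => ?_
        rw [h3, mul_comm]
    · rintro ⟨μ, hμ⟩ i
      simp only [hμ]
      have h1 : ∀ k : Fin m, σ (e k (Fin.natAdd m i)) =
          ∑ l, σ (e k (Fin.castAdd r l)) * σ (g l i) := by
        intro k
        have h2 := congrFun (congrFun hge k) i
        rw [Matrix.mul_apply] at h2
        have h3 : e k (Fin.natAdd m i) = e2 k i := rfl
        rw [h3, ← h2, map_sum]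
        refine Finset.sum_congr rfl fun l _ => ?_
        rw [map_mul]
        rfl
      simp only [h1, Finset.mul_sum]
      rw [Finset.sum_comm]
      refine Finset.sum_congr rfl fun l _ => ?_
      refine Finset.sum_congr rfl fun k _ => ?_
      ring

theorem exists_relations {K : Type} [Field K] {m r N : ℕ} (hq : m + r = N + 1)
    (e : Matrix (Fin m) (Fin (N + 1)) K)
    (he : ∀ J : Fin m → Fin (N + 1), Function.Injective J → (e.submatrix id J).det ≠ 0) :
    ∃ a : Matrix (Fin r) (Fin (N + 1)) K,
      (∀ (L : Type) [Field L] (σ : K →+* L) (y : Fin (N + 1) → L),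
        (∀ i, ∑ j, σ (a i j) * y j = 0) ↔ ∃ μ : Fin m → L, ∀ j, y j = ∑ k, μ k * σ (e k j)) ∧
      ((2 : K) ≠ 0 → SmoothDiagonal a) := by
  classical
  obtain ⟨a, I, haI, ha⟩ := exists_rel hq e he
  refine ⟨a, ha, ?_⟩
  intro h2 v hv hav
  set σ : K →+* AlgebraicClosure K := algebraMap K (AlgebraicClosure K) with hσ
  have h2' : (2 : AlgebraicClosure K) ≠ 0 := by
    have := (map_ne_zero σ).mpr h2
    rwa [map_ofNat] at this
  obtain ⟨ν, hν⟩ := (ha (AlgebraicClosure K) σ (fun j => v j ^ 2)).mp hav
  -- fewer than `m` of the entries of `v` vanish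
  set Z : Finset (Fin (N + 1)) := Finset.univ.filter (fun j => v j = 0) with hZ
  have hZc : Z.card < m := by
    by_contra hcon
    obtain ⟨Z', hZ', hc⟩ := Finset.exists_subset_card_eq (not_lt.mp hcon)
    have hν0 : ν = 0 := by
      apply comb_eq_zero σ he (J := Z'.orderEmbOfFin hc) (Z'.orderEmbOfFin hc).injective
      intro l
      rw [← hν]
      have h3 : Z'.orderEmbOfFin hc l ∈ Z := hZ' (Finset.orderEmbOfFin_mem Z' hc l)
      rw [hZ, Finset.mem_filter] at h3
      rw [h3.2]
      simp
    apply hv
    funext j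
    have h3 := hν j
    rw [hν0] at h3
    simpa using h3
  rw [Fintype.linearIndependent_iff]
  intro μ hμ
  -- the relation `b = μ a`
  set b : Fin (N + 1) → AlgebraicClosure K := fun j => ∑ i, μ i * σ (a i j) with hb
  have hbv : ∀ j, b j * v j = 0 := by
    intro j
    have h3 := congrFun hμ j
    simp only [Finset.sum_apply, Pi.smul_apply, smul_eq_mul, Pi.zero_apply] at h3
    have h4 : ∑ i, μ i * (2 * σ (a i j) * v j) = 2 * (b j * v j) := by
      rw [hb]
      simp only [Finset.sum_mul, Finset.mul_sum]
      refine Finset.sum_congr rfl fun i _ => ?_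
      ring
    rw [h4] at h3
    rcases mul_eq_zero.mp h3 with h5 | h5
    · exact absurd h5 h2'
    · exact h5
  have hbe : ∀ k, ∑ j, σ (e k j) * b j = 0 := by
    intro k
    have h3 : ∀ i, ∑ j, σ (a i j) * σ (e k j) = 0 := by
      refine (ha (AlgebraicClosure K) σ (fun j => σ (e k j))).mpr ⟨Pi.single k 1, ?_⟩
      intro j
      simp [Pi.single_apply]
    rw [hb]
    simp only [Finset.mul_sum]
    rw [Finset.sum_comm]
    have h4 : ∀ i, ∑ j, σ (e k j) * (μ i * σ (a i j)) = 0 := by
      intro i
      have h5 : ∑ j, σ (e k j) * (μ i * σ (a i j)) = μ i * ∑ j, σ (a i j) * σ (e k j) := by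
        rw [Finset.mul_sum]
        refine Finset.sum_congr rfl fun j _ => ?_
        ring
      rw [h5, h3, mul_zero]
    simp [h4]
  obtain ⟨Z', hZ', -, hc⟩ := Finset.exists_subsuperset_card_eq (Finset.subset_univ Z) hZc.le
    (by simp only [Finset.card_univ, Fintype.card_fin]; omega)
  have hbZ : ∀ j, j ∉ Z' → b j = 0 := by
    intro j hj
    have h3 : v j ≠ 0 := by
      intro h4
      apply hj
      apply hZ'
      rw [hZ, Finset.mem_filter]
      exact ⟨Finset.mem_univ _, h4⟩
    rcases mul_eq_zero.mp (hbv j) with h5 | h5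
    · exact h5
    · exact absurd h5 h3
  have hb0 : (fun l => b (Z'.orderEmbOfFin hc l)) = 0 := by
    apply rel_eq_zero σ he (J := Z'.orderEmbOfFin hc) (Z'.orderEmbOfFin hc).injective
    intro k
    rw [← hbe k]
    have h3 : ∑ j, σ (e k j) * b j = ∑ j ∈ Z', σ (e k j) * b j := by
      symm
      apply Finset.sum_subset (Finset.subset_univ Z')
      intro j _ hj
      rw [hbZ j hj, mul_zero]
    rw [h3]
    have h4 : Z' = Finset.univ.map (Z'.orderEmbOfFin hc).toEmbedding := by
      ext j
      simp only [Finset.mem_map, Finset.mem_univ, true_and, RelEmbedding.coe_toEmbedding]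
      constructor
      · intro hj
        have h5 : j ∈ Set.range (Z'.orderEmbOfFin hc) := by
          rw [Finset.range_orderEmbOfFin]
          exact hj
        exact h5
      · rintro ⟨l, rfl⟩
        exact Finset.orderEmbOfFin_mem Z' hc l
    conv_rhs => rw [h4]
    rw [Finset.sum_map]
    rfl
  have hball : ∀ j, b j = 0 := by
    intro j
    by_cases hj : j ∈ Z'
    · have h5 : j ∈ Set.range (Z'.orderEmbOfFin hc) := by
        rw [Finset.range_orderEmbOfFin]
        exact hj
      obtain ⟨l, rfl⟩ := h5
      exact congrFun hb0 l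
    · exact hbZ j hj
  intro i
  have h3 := hball (I i)
  rw [hb] at h3
  simp only [haI] at h3
  rw [Finset.sum_eq_single i] at h3
  · simpa using h3
  · intro i' _ hi'
    rw [if_neg hi', map_zero, mul_zero]
  · simp

end Rel

end Pool.Agent.Work.MP_f82ddf_nt.DQ
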