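import Pool.Agent.Work.MP_f82ddf_nt.DQ.Defs

/-!
# Block Ver: functionals of rank one are evaluations
-/

namespace Pool.Agent.Work.MP_f82ddf_nt.DQ

namespace Ver

variable {σ : Type*}

theorem exists_split {d : ℕ} (α : σ →₀ ℕ) (hα : α.degree = 2 * d) :
    ∃ β γ : σ →₀ ℕ, β.degree = d ∧ γ.degree = d ∧ α = β + γ := by
  obtain ⟨β, hβ, hd⟩ := Finsupp.exists_le_degree_eq α d (by omega)
  refine ⟨β, α - β, hd, ?_, (add_tsub_cancel_of_le hβ).symm⟩
  have h : (β + (α - β)).degree = 2 * d := by rw [add_tsub_cancel_of_le hβ, hα]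
  rw [map_add] at h
  omega

/-- An exponent with a positive entry splits off a variable. -/
theorem exists_sub (β : σ →₀ ℕ) {j : σ} (hj : 0 < β j) :
    ∃ β₁ : σ →₀ ℕ, β = β₁ + Finsupp.single j 1 ∧ β₁.degree + 1 = β.degree := by
  have hle : Finsupp.single j 1 ≤ β := by
    rw [Finsupp.single_le_iff]
    exact hj
  refine ⟨β - Finsupp.single j 1, (tsub_add_cancel_of_le hle).symm, ?_⟩
  have h : ((β - Finsupp.single j 1) + Finsupp.single j 1).degree = β.degree := by
    rw [tsub_add_cancel_of_le hle]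
  rw [map_add, Finsupp.degree_single] at h
  exact h

theorem degree_ext {β : σ →₀ ℕ} {i : σ} (h : ∀ j, j ≠ i → β j = 0) :
    β = Finsupp.single i β.degree := by
  have hs : β.support ⊆ {i} := by
    intro j hj
    rw [Finset.mem_singleton]
    by_contra hne
    exact (Finsupp.mem_support_iff.mp hj) (h j hne)
  have h1 : β = Finsupp.single i (β i) := Finsupp.support_subset_singleton.mp hs
  have h2 : β.degree = β i := by
    conv_lhs => rw [h1]
    exact Finsupp.degree_single _ _
  rw [h2]
  exact h1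

end Ver

open Ver

theorem veronese {M : Type*} [Field M] {n d : ℕ} (hd : 0 < d) (c : (Fin (n + 1) →₀ ℕ) → M)
    (hc : ∃ α, α.degree = 2 * d ∧ c α ≠ 0)
    (hrk : ∀ β γ β' γ' : Fin (n + 1) →₀ ℕ, β.degree = d → γ.degree = d → β'.degree = d →
      γ'.degree = d → c (β + γ) * c (β' + γ') = c (β + γ') * c (β' + γ)) :
    ∃ (u : M) (x : Fin (n + 1) → M) (i : Fin (n + 1)), u ≠ 0 ∧ x i = 1 ∧
      ∀ α : Fin (n + 1) →₀ ℕ, α.degree = 2 * d → c α = u * ∏ l, x l ^ α l := by
  classical
  -- a diagonal entry which is not zero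
  obtain ⟨α, hα, hcα⟩ := hc
  obtain ⟨β₀, γ₀, hβ₀, hγ₀, rfl⟩ := exists_split α hα
  have h0 : c (β₀ + β₀) ≠ 0 := by
    intro h
    have := hrk β₀ γ₀ γ₀ β₀ hβ₀ hγ₀ hγ₀ hβ₀
    rw [h, zero_mul, add_comm γ₀ β₀] at this
    exact hcα (by simpa using this)
  -- maximal entry
  have hP : ∃ k, ∃ (i : Fin (n + 1)) (β : Fin (n + 1) →₀ ℕ), β.degree = d ∧ c (β + β) ≠ 0 ∧
      β i = k ∧ 0 < k := by
    have hne : β₀ ≠ 0 := by
      rintro rfl
      simp at hβ₀
      omega
    obtain ⟨i, hi⟩ := Finsupp.ne_iff.mp hne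
    exact ⟨β₀ i, i, β₀, hβ₀, h0, rfl, by simpa [Nat.pos_iff_ne_zero] using hi⟩
  obtain ⟨i, hi⟩ : ∃ i : Fin (n + 1), c (Finsupp.single i d + Finsupp.single i d) ≠ 0 := by
    let P : ℕ → Prop := fun k => ∃ (i : Fin (n + 1)) (β : Fin (n + 1) →₀ ℕ), β.degree = d ∧
      c (β + β) ≠ 0 ∧ β i = k ∧ 0 < k
    obtain ⟨k₀, hk₀⟩ := hP
    have hb : ∀ k, P k → k ≤ d := by
      rintro k ⟨i, β, hβ, -, rfl, -⟩
      rw [← hβ]
      exact Finsupp.le_degree i β
    have hk₀P : P k₀ := hk₀
    have hk := Nat.findGreatest_spec (hb k₀ hk₀P) hk₀P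
    obtain ⟨i, β, hβ, hcβ, hβi, hpos⟩ := hk
    refine ⟨i, ?_⟩
    have hall : ∀ j, j ≠ i → β j = 0 := by
      intro j hj
      by_contra hne
      obtain ⟨β₁, hβ₁, hdeg₁⟩ := exists_sub β (Nat.pos_of_ne_zero hne)
      obtain ⟨β₂, hβ₂, hdeg₂⟩ := exists_sub β (j := i) (by omega)
      have hs : β + β = (β₁ + Finsupp.single i 1) + (β₂ + Finsupp.single j 1) := by
        conv_lhs => rw [show β + β = (β₁ + Finsupp.single j 1) + (β₂ + Finsupp.single i 1) by
          rw [← hβ₁, ← hβ₂]]
        abel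
      have hd1 : (β₁ + Finsupp.single i 1).degree = d := by
        rw [map_add, Finsupp.degree_single]; omega
      have hd2 : (β₂ + Finsupp.single j 1).degree = d := by
        rw [map_add, Finsupp.degree_single]; omega
      have hne1 : c ((β₁ + Finsupp.single i 1) + (β₁ + Finsupp.single i 1)) ≠ 0 := by
        intro h
        have := hrk _ _ _ _ hd1 hd2 hd2 hd1
        rw [h, zero_mul, add_comm (β₂ + Finsupp.single j 1) (β₁ + Finsupp.single i 1), ← hs] at this
        exact hcβ (by simpa using this)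
      have h1 : (β₁ + Finsupp.single i 1 : Fin (n + 1) →₀ ℕ) i = β i + 1 := by
        conv_rhs => rw [hβ₁]
        simp [Finsupp.single_eq_of_ne hj.symm]
      have hP' : P (β i + 1) := ⟨i, _, hd1, hne1, h1, Nat.succ_pos _⟩
      have := Nat.le_findGreatest (hb _ hP') hP'
      omega
    have := degree_ext hall
    rw [hβ] at this
    rwa [← this]
  set u := c (Finsupp.single i d + Finsupp.single i d) with hu
  -- the normalised functional
  let g : (Fin (n + 1) →₀ ℕ) → M := fun β => c (β + Finsupp.single i (2 * d - β.degree)) / u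
  have hg : ∀ β γ : Fin (n + 1) →₀ ℕ, β.degree ≤ d → γ.degree ≤ d → g (β + γ) = g β * g γ := by
    intro β γ hβ hγ
    have key := hrk (β + Finsupp.single i (d - β.degree)) (γ + Finsupp.single i (d - γ.degree))
      (Finsupp.single i d) (Finsupp.single i d)
      (by rw [map_add, Finsupp.degree_single]; omega)
      (by rw [map_add, Finsupp.degree_single]; omega)
      (Finsupp.degree_single _ _) (Finsupp.degree_single _ _)
    have e1 : β + Finsupp.single i (d - β.degree) + (γ + Finsupp.single i (d - γ.degree)) =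
        β + γ + Finsupp.single i (2 * d - (β + γ).degree) := by
      rw [map_add, show 2 * d - (β.degree + γ.degree) = (d - β.degree) + (d - γ.degree) by omega,
        Finsupp.single_add]
      abel
    have e2 : β + Finsupp.single i (d - β.degree) + Finsupp.single i d =
        β + Finsupp.single i (2 * d - β.degree) := by
      rw [add_assoc, ← Finsupp.single_add, show d - β.degree + d = 2 * d - β.degree by omega]
    have e3 : Finsupp.single i d + (γ + Finsupp.single i (d - γ.degree)) =
        γ + Finsupp.single i (2 * d - γ.degree) := by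
      rw [add_left_comm, ← Finsupp.single_add, show d + (d - γ.degree) = 2 * d - γ.degree by omega]
    rw [e1, e2, e3] at key
    simp only [g]
    field_simp
    rw [← hu] at key
    linear_combination key
  let x : Fin (n + 1) → M := fun l => g (Finsupp.single l 1)
  have hxi : x i = 1 := by
    simp only [x, g]
    rw [Finsupp.degree_single, ← Finsupp.single_add, show 1 + (2 * d - 1) = d + d by omega,
      Finsupp.single_add, ← hu]
    exact div_self hi
  have hg0 : g 0 = 1 := by
    simp only [g]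
    rw [map_zero, zero_add, show 2 * d - 0 = d + d by omega, Finsupp.single_add, ← hu]
    exact div_self hi
  have hprod : ∀ k, ∀ β : Fin (n + 1) →₀ ℕ, β.degree = k → k ≤ d → g β = ∏ l, x l ^ β l := by
    intro k
    induction k with
    | zero =>
      intro β hβ _
      rw [Finsupp.degree_eq_zero_iff] at hβ
      subst hβ
      simp [hg0]
    | succ k ih =>
      intro β hβ hk
      have hne : β ≠ 0 := by
        rintro rfl
        simp at hβ
      obtain ⟨j, hj⟩ := Finsupp.ne_iff.mp hne
      obtain ⟨β₁, hβ₁, hdeg⟩ := exists_sub β (j := j) (by simpa [Nat.pos_iff_ne_zero] using hj)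
      rw [hβ₁, hg β₁ (Finsupp.single j 1) (by omega) (by rw [Finsupp.degree_single]; omega),
        ih β₁ (by omega) (by omega)]
      simp only [Finsupp.add_apply, pow_add, Finset.prod_mul_distrib]
      congr 1
      rw [Finset.prod_eq_single j]
      · simp [x]
      · intro l _ hl
        rw [Finsupp.single_eq_of_ne hl, pow_zero]
      · simp
  refine ⟨u, x, i, hi, hxi, fun α hα => ?_⟩
  obtain ⟨β, γ, hβ, hγ, rfl⟩ := exists_split α hα
  have h1 : g (β + γ) = c (β + γ) / u := by
    simp only [g]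
    rw [hα, Nat.sub_self, Finsupp.single_zero, add_zero]
  have h2 := hg β γ hβ.le hγ.le
  rw [h1, hprod d β hβ le_rfl, hprod d γ hγ le_rfl, div_eq_iff hi] at h2
  rw [h2, mul_comm, ← Finset.prod_mul_distrib]
  simp only [Finsupp.add_apply, pow_add]

theorem ann_zero {K L : Type*} [Field K] [Field L] {n : ℕ} (σ : K →+* L) {d : ℕ}
    {S : Set (MvPolynomial (Fin (n + 1)) K)} {c : (Fin (n + 1) →₀ ℕ) → L}
    (hS : ∀ F ∈ S, ∃ e, F.IsHomogeneous e ∧ e ≤ 2 * d)
    (hc : Ann σ d S c) {u : L} {x : Fin (n + 1) → L} {i : Fin (n + 1)} (hu : u ≠ 0) (hx : x i = 1)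
    (h : ∀ α : Fin (n + 1) →₀ ℕ, α.degree = 2 * d → c α = u * ∏ l, x l ^ α l) :
    ∀ F ∈ S, MvPolynomial.eval₂ σ x F = 0 := by
  intro F hF
  obtain ⟨e, he, hed⟩ := hS F hF
  have h1 := hc F hF e he (Finsupp.single i (2 * d - e)) (by rw [Finsupp.degree_single]; omega)
  have h2 : ∑ m ∈ F.support, σ (MvPolynomial.coeff m F) * c (m + Finsupp.single i (2 * d - e)) =
      u * MvPolynomial.eval₂ σ x F := by
    rw [MvPolynomial.eval₂_eq, Finset.mul_sum]
    refine Finset.sum_congr rfl fun m hm => ?_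
    have hm' : m.degree = e := by
      have := he (MvPolynomial.mem_support_iff.mp hm)
      rw [← this, Finsupp.degree_eq_weight_one]
      rfl
    rw [h _ (by rw [map_add, Finsupp.degree_single]; omega)]
    have h3 : ∏ l, x l ^ (m + Finsupp.single i (2 * d - e)) l = ∏ l, x l ^ m l := by
      simp only [Finsupp.add_apply, pow_add, Finset.prod_mul_distrib]
      rw [show (∏ l, x l ^ (Finsupp.single i (2 * d - e)) l) = 1 from ?_, mul_one]
      refine Finset.prod_eq_one fun l _ => ?_
      by_cases hl : l = i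
      · rw [hl, hx, one_pow]
      · rw [Finsupp.single_eq_of_ne hl, pow_zero]
    have h4 : ∏ l, x l ^ m l = ∏ l ∈ m.support, x l ^ m l := by
      symm
      refine Finset.prod_subset (Finset.subset_univ _) fun l _ hl => ?_
      rw [Finsupp.notMem_support_iff.mp hl, pow_zero]
    rw [h3, h4]
    ring
  rw [h2] at h1
  exact (mul_eq_zero.mp h1).resolve_left hu

end Pool.Agent.Work.MP_f82ddf_nt.DQ
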