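import Pool.Agent.Work.MP_f82ddf_nt.DQ.Nodes
import Pool.Agent.Work.MP_f82ddf_nt.DQ.Rel
import Pool.Agent.Work.MP_f82ddf_nt.DQ.Ver

/-!
# Block Lin: the system of diagonal quadrics attached to a projective variety
-/

namespace Pool.Agent.Work.MP_f82ddf_nt.DQ

namespace Lin

open Polynomial

variable {K L : Type} [Field K] [Field L] {n d h : ℕ}

private lemma aux_pow {i j k l : ℕ} (hkl : k ≤ l) (hij : i ≤ j)
    (h : 16 ^ k + 16 ^ l = 16 ^ i + 16 ^ j) : k = i ∧ l = j := by
  have h1 : 16 ^ k ≤ 16 ^ l := Nat.pow_le_pow_right (by norm_num) hkl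
  have h2 : 16 ^ i ≤ 16 ^ j := Nat.pow_le_pow_right (by norm_num) hij
  have h3 : 0 < 16 ^ l := by positivity
  have h4 : 0 < 16 ^ j := by positivity
  have h3' : 0 < 16 ^ k := by positivity
  have h4' : 0 < 16 ^ i := by positivity
  have hlj : l = j := by
    rcases lt_trichotomy l j with h5 | h5 | h5
    · have h6 : 16 ^ (l + 1) ≤ 16 ^ j := Nat.pow_le_pow_right (by norm_num) h5
      rw [pow_succ] at h6
      omega
    · exact h5
    · have h6 : 16 ^ (j + 1) ≤ 16 ^ l := Nat.pow_le_pow_right (by norm_num) h5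
      rw [pow_succ] at h6
      omega
  subst hlj
  exact ⟨Nat.pow_right_injective (le_refl _ |>.trans (by norm_num : 2 ≤ 16)) (by simpa using h), rfl⟩

private lemma pow_add_pow_iff {i j k l : ℕ} :
    16 ^ k + 16 ^ l = 16 ^ i + 16 ^ j ↔ (k = i ∧ l = j) ∨ (k = j ∧ l = i) := by
  constructor
  · intro h
    rcases le_total k l with h1 | h1 <;> rcases le_total i j with h2 | h2
    · exact Or.inl (aux_pow h1 h2 h)
    · exact Or.inr (aux_pow h1 h2 (by rw [h, add_comm]))
    · have := aux_pow h1 h2 (by rw [← h, add_comm])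
      exact Or.inr ⟨this.2, this.1⟩
    · have := aux_pow h1 h2 (by rw [add_comm, h, add_comm])
      exact Or.inl ⟨this.2, this.1⟩
  · rintro (⟨rfl, rfl⟩ | ⟨rfl, rfl⟩)
    · rfl
    · rw [add_comm]

lemma eq_zero_of_lac [CharZero K] {G : Matrix (Fin h) (Fin h) K} (hG : G.IsSymm)
    (h0 : lac G = 0) : G = 0 := by
  classical
  ext i j
  have h1 : (lac G).coeff (16 ^ (i : ℕ) + 16 ^ (j : ℕ)) = 0 := by rw [h0, coeff_zero]
  simp only [lac, finsetSum_coeff, coeff_C_mul, coeff_X_pow, mul_ite, mul_one, mul_zero] at h1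
  rw [← Fintype.sum_prod_type' (fun k l : Fin h =>
    if 16 ^ (i : ℕ) + 16 ^ (j : ℕ) = 16 ^ (k : ℕ) + 16 ^ (l : ℕ) then G k l else 0),
    ← Finset.sum_filter] at h1
  have h2 : (Finset.univ.filter fun p : Fin h × Fin h =>
      16 ^ (i : ℕ) + 16 ^ (j : ℕ) = 16 ^ (p.1 : ℕ) + 16 ^ (p.2 : ℕ)) = {(i, j), (j, i)} := by
    ext ⟨k, l⟩
    simp only [Finset.mem_filter, Finset.mem_univ, true_and, Finset.mem_insert,
      Finset.mem_singleton, Prod.mk.injEq]
    rw [eq_comm, pow_add_pow_iff]
    simp only [Fin.ext_iff]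
  rw [h2] at h1
  by_cases hij : i = j
  · subst hij
    simpa using h1
  · rw [Finset.sum_pair (by simp [hij])] at h1
    have h3 : G j i = G i j := hG.apply i j
    rw [h3, ← two_mul] at h1
    simpa using h1

/-- The exponents of degree `2 * d`. -/
abbrev Expo (n d : ℕ) : Type := {α : Fin (n + 1) →₀ ℕ // α.degree = 2 * d}

noncomputable instance : Fintype (Expo n d) :=
  haveI : Finite (Expo n d) := (Finsupp.finite_of_degree_eq (2 * d)).to_subtype
  Fintype.ofFinite _

/-- Extension by zero. -/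
noncomputable def ext {L : Type} [Field L] (c : Expo n d → L) (α : Fin (n + 1) →₀ ℕ) : L :=
  if h : α.degree = 2 * d then c ⟨α, h⟩ else 0

lemma ext_of_degree {c : Expo n d → L} {α : Fin (n + 1) →₀ ℕ} (h : α.degree = 2 * d) :
    ext c α = c ⟨α, h⟩ := dif_pos h

/-- The pairing. -/
noncomputable def pair (σ : K →+* L) (u : Expo n d → K) (c : Expo n d → L) : L :=
  ∑ α, σ (u α) * c α

/-- The vector of the functional `c ↦ lac(c).eval t`. -/
noncomputable def W (β : Fin h → (Fin (n + 1) →₀ ℕ)) (t : K) : Expo n d → K :=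
  fun α => ∑ k, ∑ l, if β k + β l = α.1 then t ^ (16 ^ (k : ℕ) + 16 ^ (l : ℕ)) else 0

/-- The vector of the functional given by a multiple of a form. -/
noncomputable def P (F : MvPolynomial (Fin (n + 1)) K) (γ : Fin (n + 1) →₀ ℕ) : Expo n d → K :=
  fun α => ∑ m ∈ F.support, if m + γ = α.1 then F.coeff m else 0

lemma sum_ite_eq_ext {c : Expo n d → L} {α₀ : Fin (n + 1) →₀ ℕ} (x : L) :
    ∑ α : Expo n d, (if α₀ = α.1 then x else 0) * c α = x * ext c α₀ := by
  by_cases h : α₀.degree = 2 * d
  · rw [ext_of_degree h, Finset.sum_eq_single ⟨α₀, h⟩]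
    · simp
    · intro b _ hb
      rw [if_neg, zero_mul]
      intro h'
      exact hb (Subtype.ext h'.symm)
    · simp
  · rw [ext, dif_neg h, mul_zero]
    apply Finset.sum_eq_zero
    intro α _
    rw [if_neg, zero_mul]
    intro h'
    exact h (h' ▸ α.2)

lemma pair_W (σ : K →+* L) (β : Fin h → (Fin (n + 1) →₀ ℕ)) (t : K) (c : Expo n d → L) :
    pair σ (W β t) c = (lac (Matrix.of fun k l => ext c (β k + β l))).eval (σ t) := by
  simp only [pair, W, map_sum, Finset.sum_mul, lac, eval_finsetSum, Matrix.of_apply, eval_mul,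
    eval_C, eval_pow, eval_X]
  rw [Finset.sum_comm]
  refine Finset.sum_congr rfl fun k _ => ?_
  rw [Finset.sum_comm]
  refine Finset.sum_congr rfl fun l _ => ?_
  simp only [apply_ite σ, map_zero, map_pow]
  rw [sum_ite_eq_ext, mul_comm]

lemma pair_P (σ : K →+* L) (F : MvPolynomial (Fin (n + 1)) K) (γ : Fin (n + 1) →₀ ℕ)
    (c : Expo n d → L) :
    pair σ (P F γ) c = ∑ m ∈ F.support, σ (F.coeff m) * ext c (m + γ) := by
  simp only [pair, P, map_sum, Finset.sum_mul]
  rw [Finset.sum_comm]
  refine Finset.sum_congr rfl fun m _ => ?_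
  simp only [apply_ite σ, map_zero]
  rw [sum_ite_eq_ext]

/-- The indices of the relations. -/
abbrev Idx (d : ℕ) (S : Set (MvPolynomial (Fin (n + 1)) K)) : Type :=
  {p : MvPolynomial (Fin (n + 1)) K × ℕ × (Fin (n + 1) →₀ ℕ) //
    p.1 ∈ S ∧ p.1.IsHomogeneous p.2.1 ∧ p.2.2.degree + p.2.1 = 2 * d}

lemma ann_ext_iff (σ : K →+* L) (S : Set (MvPolynomial (Fin (n + 1)) K)) (c : Expo n d → L) :
    Ann σ d S (ext c) ↔ ∀ s : Idx d S, pair σ (P s.1.1 s.1.2.2) c = 0 := by
  constructor
  · rintro h ⟨⟨F, e, γ⟩, hF, he, hγ⟩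
    rw [pair_P]
    exact h F hF e he γ hγ
  · intro h F hF e he γ hγ
    have := h ⟨⟨F, e, γ⟩, hF, he, hγ⟩
    rw [pair_P] at this
    exact this

lemma pair_of_mem_span (σ : K →+* L) (S : Set (MvPolynomial (Fin (n + 1)) K)) {u : Expo n d → K}
    (hu : u ∈ Submodule.span K (Set.range fun s : Idx d S => (P s.1.1 s.1.2.2 : Expo n d → K)))
    {c : Expo n d → L} (hc : ∀ s : Idx d S, pair σ (P s.1.1 s.1.2.2) c = 0) :
    pair σ u c = 0 := by
  induction hu using Submodule.span_induction with
  | mem x hx =>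
    obtain ⟨s, rfl⟩ := hx
    exact hc s
  | zero => simp [pair]
  | add x y _ _ hx hy =>
    have : pair σ (x + y) c = pair σ x c + pair σ y c := by
      simp only [pair, Pi.add_apply, map_add, add_mul, Finset.sum_add_distrib]
    rw [this, hx, hy, add_zero]
  | smul a x _ hx =>
    have : pair σ (a • x) c = σ a * pair σ x c := by
      simp only [pair, Pi.smul_apply, smul_eq_mul, map_mul, Finset.mul_sum, mul_assoc]
    rw [this, hx, mul_zero]

lemma mem_span_of_pair (S : Set (MvPolynomial (Fin (n + 1)) K)) {u : Expo n d → K}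
    (hu : ∀ c : Expo n d → K, (∀ s : Idx d S, pair (RingHom.id K) (P s.1.1 s.1.2.2) c = 0) →
      pair (RingHom.id K) u c = 0) :
    u ∈ Submodule.span K (Set.range fun s : Idx d S => (P s.1.1 s.1.2.2 : Expo n d → K)) := by
  classical
  have h1 : dotProductEquiv K (Expo n d) u ∈ Submodule.span K
      (Set.range fun s : Idx d S => dotProductEquiv K (Expo n d) (P s.1.1 s.1.2.2)) := by
    apply FiniteDimensional.mem_span_of_iInf_ker_le_ker
    intro c hc
    rw [Submodule.mem_iInf] at hc
    rw [LinearMap.mem_ker]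
    apply hu c
    intro s
    exact LinearMap.mem_ker.mp (hc s)
  have h2 : (Set.range fun s : Idx d S => dotProductEquiv K (Expo n d) (P s.1.1 s.1.2.2)) =
      (dotProductEquiv K (Expo n d)) '' (Set.range fun s : Idx d S =>
        (P s.1.1 s.1.2.2 : Expo n d → K)) := by
    rw [← Set.range_comp]
    rfl
  rw [h2] at h1
  have h3 := Submodule.map_span (dotProductEquiv K (Expo n d)).toLinearMap
    (Set.range fun s : Idx d S => (P s.1.1 s.1.2.2 : Expo n d → K))
  have h4 : dotProductEquiv K (Expo n d) u ∈ Submodule.map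
      (dotProductEquiv K (Expo n d)).toLinearMap
      (Submodule.span K (Set.range fun s : Idx d S => (P s.1.1 s.1.2.2 : Expo n d → K))) := by
    rw [h3]
    exact h1
  obtain ⟨u', hu', he⟩ := h4
  have h5 : u' = u := (dotProductEquiv K (Expo n d)).injective he
  rw [← h5]
  exact hu'

/-- The linear map `c ↦ lac(c)`. -/
noncomputable def B (β : Fin h → (Fin (n + 1) →₀ ℕ)) : (Expo n d → K) →ₗ[K] K[X] where
  toFun c := lac (Matrix.of fun k l => ext c (β k + β l))
  map_add' c c' := by
    have : ∀ α, ext (c + c') α = ext c α + ext c' α := by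
      intro α
      unfold ext
      split_ifs <;> simp
    simp only [lac, Matrix.of_apply, this, map_add, add_mul, Finset.sum_add_distrib]
  map_smul' a c := by
    have : ∀ α, ext (a • c) α = a * ext c α := by
      intro α
      unfold ext
      split_ifs <;> simp
    simp only [lac, Matrix.of_apply, this, map_mul, RingHom.id_apply, Finset.smul_sum,
      Polynomial.smul_eq_C_mul, mul_assoc]

lemma B_injective [CharZero K] {β : Fin h → (Fin (n + 1) →₀ ℕ)}
    (hβd : ∀ α : Fin (n + 1) →₀ ℕ, α.degree = d ↔ ∃ l, β l = α) :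
    Function.Injective (B (K := K) (d := d) β) := by
  rw [← LinearMap.ker_eq_bot, LinearMap.ker_eq_bot']
  intro c hc
  have h0 := eq_zero_of_lac (G := Matrix.of fun k l => ext c (β k + β l))
    (by ext k l; simp [add_comm]) hc
  funext α
  obtain ⟨b, g, hb, hg, hα⟩ := Ver.exists_split α.1 α.2
  obtain ⟨k, rfl⟩ := (hβd b).mp hb
  obtain ⟨l, rfl⟩ := (hβd g).mp hg
  have h1 := congrFun (congrFun h0 k) l
  simp only [Matrix.of_apply, Matrix.zero_apply] at h1
  rw [← hα, ext_of_degree α.2] at h1
  exact h1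

end Lin

open Lin Polynomial

theorem exists_system (δ : ℕ → ℕ) {K : Type} [Field K] [CharZero K] {n d h : ℕ} (hd : 0 < d)
    (S : Set (MvPolynomial (Fin (n + 1)) K)) (hfin : S.Finite)
    (hS : ∀ F ∈ S, ∃ e, F.IsHomogeneous e ∧ e ≤ 2 * d)
    (β : Fin h → (Fin (n + 1) →₀ ℕ)) (hβ : Function.Injective β)
    (hβd : ∀ α : Fin (n + 1) →₀ ℕ, α.degree = d ↔ ∃ l, β l = α) :
    ∃ (N r : ℕ) (t : Fin (N + 1) → K) (a : Matrix (Fin r) (Fin (N + 1)) K),
      6 * (2 * 16 ^ (h - 1)) ≤ N + 1 ∧ N + 1 < 2 * r ∧ δ (N - r) ≤ r ∧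
      Function.Injective t ∧ SmoothDiagonal a ∧
      (∀ (L : Type) [Field L] (σ : K →+* L) (x : Fin (n + 1) → L),
        (∀ F ∈ S, MvPolynomial.eval₂ σ x F = 0) →
          ∀ i, ∑ j, σ (a i j) * lam β (σ (t j)) x ^ 2 = 0) ∧
      (∀ (L : Type) [Field L] (σ : K →+* L) (y : Fin (N + 1) → L),
        (∀ i, ∑ j, σ (a i j) * y j ^ 2 = 0) →
          ∃ c : (Fin (n + 1) →₀ ℕ) → L, Ann σ d S c ∧
            ∀ j, y j ^ 2 =
              (lac (Matrix.of fun k l => c (β k + β l))).eval (σ (t j))) := by
  classical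
  -- the solutions over `K`
  let V : Submodule K (Expo n d → K) :=
    { carrier := {c | ∀ s : Idx d S, pair (RingHom.id K) (P s.1.1 s.1.2.2) c = 0}
      add_mem' := by
        intro c c' hc hc' s
        have h1 := hc s
        have h2 := hc' s
        simp only [pair, Pi.add_apply, mul_add, Finset.sum_add_distrib] at h1 h2 ⊢
        rw [h1, h2, add_zero]
      zero_mem' := by
        intro s
        simp [pair]
      smul_mem' := by
        intro a c hc s
        have h1 := hc s
        simp only [pair, Pi.smul_apply, smul_eq_mul] at h1 ⊢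
        have h2 : ∀ α : Expo n d, (RingHom.id K) (P s.1.1 s.1.2.2 α) * (a * c α) =
            a * ((RingHom.id K) (P s.1.1 s.1.2.2 α) * c α) := by
          intro α
          ring
        simp only [h2]
        rw [← Finset.mul_sum, h1, mul_zero] }
  have hV : ∀ c : Expo n d → K, c ∈ V ↔
      ∀ s : Idx d S, pair (RingHom.id K) (P s.1.1 s.1.2.2) c = 0 := fun c => Iff.rfl
  set m := Module.finrank K V with hm
  let bas := Module.finBasis K V
  let b : Fin m → K[X] := fun k => B β (bas k : Expo n d → K)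
  have hb : LinearIndependent K b := by
    have h1 : LinearIndependent K (fun k => ((bas k : V) : Expo n d → K)) :=
      bas.linearIndependent.map' V.subtype (Submodule.ker_subtype V)
    exact h1.map' (B β) (LinearMap.ker_eq_bot.mpr (B_injective hβd))
  obtain ⟨t, ht, hmin⟩ := exists_nodes b hb (6 * (2 * 16 ^ (h - 1)) + 2 * m + δ (m - 1) + 1)
  obtain ⟨a, ha, hsm⟩ := exists_relations (m := m)
    (r := 6 * (2 * 16 ^ (h - 1)) + m + δ (m - 1) + 1)
    (N := 6 * (2 * 16 ^ (h - 1)) + 2 * m + δ (m - 1)) (by omega)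
    (Matrix.of fun k j => (b k).eval (t j)) hmin
  have hNr : 6 * (2 * 16 ^ (h - 1)) + 2 * m + δ (m - 1) -
      (6 * (2 * 16 ^ (h - 1)) + m + δ (m - 1) + 1) = m - 1 := by omega
  refine ⟨6 * (2 * 16 ^ (h - 1)) + 2 * m + δ (m - 1), 6 * (2 * 16 ^ (h - 1)) + m + δ (m - 1) + 1,
    t, a, by omega, by omega, by rw [hNr]; omega, ht, hsm two_ne_zero, ?_, ?_⟩
  · intro L _ σ x hx i
    -- the functional `φ`
    let u : Expo n d → K := fun α => ∑ j, a i j * W β (t j) α
    have hpu : ∀ (L : Type) [Field L] (σ : K →+* L) (c : Expo n d → L),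
        pair σ u c = ∑ j, σ (a i j) *
          (lac (Matrix.of fun k l => ext c (β k + β l))).eval (σ (t j)) := by
      intro L _ σ c
      simp only [← pair_W]
      simp only [pair, u, map_sum, map_mul, Finset.sum_mul, Finset.mul_sum]
      rw [Finset.sum_comm]
      refine Finset.sum_congr rfl fun j _ => ?_
      refine Finset.sum_congr rfl fun α _ => ?_
      ring
    have hu : u ∈ Submodule.span K
        (Set.range fun s : Idx d S => (P s.1.1 s.1.2.2 : Expo n d → K)) := by
      apply mem_span_of_pair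
      intro c hc
      have hcV : c ∈ V := hc
      rw [hpu K (RingHom.id K) c]
      refine (ha K (RingHom.id K) _).mpr ⟨fun k => bas.repr ⟨c, hcV⟩ k, ?_⟩ i
      intro j
      have h1 : c = ∑ k, bas.repr ⟨c, hcV⟩ k • ((bas k : V) : Expo n d → K) := by
        have h2 := bas.sum_repr ⟨c, hcV⟩
        have h3 : ((∑ i, (bas.repr ⟨c, hcV⟩) i • bas i : V) : Expo n d → K) = c :=
          congrArg Subtype.val h2
        rw [Submodule.coe_sum] at h3
        exact h3.symm
      have h4 : (lac (Matrix.of fun k l => ext c (β k + β l))) = B β c := rfl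
      rw [h4]
      conv_lhs => rw [h1]
      rw [map_sum, eval_finsetSum]
      refine Finset.sum_congr rfl fun k _ => ?_
      rw [map_smul, eval_smul]
      rfl
    -- the point `x`
    let c : Expo n d → L := fun α => ∏ i, x i ^ α.1 i
    have hc : ∀ s : Idx d S, pair σ (P s.1.1 s.1.2.2) c = 0 := by
      rintro ⟨⟨F, e, γ⟩, hF, he, hγ⟩
      rw [pair_P]
      simp only at hF he hγ ⊢
      have h1 : ∀ m ∈ F.support, σ (F.coeff m) * ext c (m + γ) =
          (∏ i, x i ^ γ i) * (σ (F.coeff m) * ∏ i, x i ^ m i) := by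
        intro m hm
        have h2 : (m + γ).degree = 2 * d := by
          have h3 : m.degree = e := by
            rw [Finsupp.degree_eq_weight_one]
            exact he (MvPolynomial.mem_support_iff.mp hm)
          rw [map_add, h3]
          omega
        rw [ext_of_degree h2]
        simp only [c, Finsupp.add_apply, pow_add, Finset.prod_mul_distrib]
        ring
      rw [Finset.sum_congr rfl h1, ← Finset.mul_sum, ← MvPolynomial.eval₂_eq', hx F hF, mul_zero]
    have h1 := pair_of_mem_span σ S hu hc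
    rw [hpu] at h1
    rw [← h1]
    refine Finset.sum_congr rfl fun j _ => ?_
    congr 1
    simp only [lac, eval_finsetSum, Matrix.of_apply, eval_mul, eval_C, eval_pow, eval_X, lam,
      sq, Finset.sum_mul, Finset.mul_sum]
    rw [Finset.sum_comm]
    refine Finset.sum_congr rfl fun k _ => ?_
    refine Finset.sum_congr rfl fun l _ => ?_
    have h2 : (β k + β l).degree = 2 * d := by
      rw [map_add, (hβd _).mpr ⟨k, rfl⟩, (hβd _).mpr ⟨l, rfl⟩]
      omega
    rw [ext_of_degree h2]
    simp only [c, Finsupp.add_apply, pow_add, Finset.prod_mul_distrib]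
    ring
  · intro L _ σ y hy
    obtain ⟨μ, hμ⟩ := (ha L σ (fun j => y j ^ 2)).mp hy
    let c : Expo n d → L := fun α => ∑ k, μ k * σ ((bas k : Expo n d → K) α)
    refine ⟨ext c, ?_, ?_⟩
    · rw [ann_ext_iff]
      intro s
      have h1 : pair σ (P s.1.1 s.1.2.2) c =
          ∑ k, μ k * σ (pair (RingHom.id K) (P s.1.1 s.1.2.2) (bas k : Expo n d → K)) := by
        simp only [pair, c, map_sum, Finset.mul_sum, map_mul, RingHom.id_apply]
        rw [Finset.sum_comm]
        refine Finset.sum_congr rfl fun k _ => ?_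
        refine Finset.sum_congr rfl fun α _ => ?_
        ring
      rw [h1]
      apply Finset.sum_eq_zero
      intro k _
      rw [(hV _).mp (bas k).2 s, map_zero, mul_zero]
    · intro j
      rw [← pair_W, hμ j]
      have h1 : pair σ (W β (t j)) c =
          ∑ k, μ k * σ (pair (RingHom.id K) (W β (t j)) (bas k : Expo n d → K)) := by
        simp only [pair, c, map_sum, Finset.mul_sum, map_mul, RingHom.id_apply]
        rw [Finset.sum_comm]
        refine Finset.sum_congr rfl fun k _ => ?_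
        refine Finset.sum_congr rfl fun α _ => ?_
        ring
      rw [h1]
      refine Finset.sum_congr rfl fun k _ => ?_
      rw [pair_W]
      rfl

end Pool.Agent.Work.MP_f82ddf_nt.DQ
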