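import Pool.Agent.Work.MP_f82ddf_nt.DQ.Core
import Pool.Agent.Work.MP_f82ddf_nt.DQ.Lac
import Pool.Agent.Work.MP_f82ddf_nt.DQ.Emb
import Pool.Agent.Work.MP_f82ddf_nt.DQ.Ver
import Pool.Agent.Work.MP_f82ddf_nt.DQ.Hol2
import Pool.Agent.Work.MP_f82ddf_nt.DQ.Lin

/-!
# Every projective variety embeds in a smooth complete intersection of diagonal quadrics with the
same entire curves (up to signs)
-/

open Topology Filter Set MvPolynomial
open scoped Differential LinearAlgebra.Projectivization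

namespace Pool.Agent.Work.MP_f82ddf_nt.DQ

section Lam

variable {K : Type} [Field K] {n h d N : ℕ}

/-- The forms `Λ`. -/
noncomputable def Lam (β : Fin h → (Fin (n + 1) →₀ ℕ)) (t : K) : MvPolynomial (Fin (n + 1)) K :=
  ∑ l, monomial (β l) (t ^ 16 ^ (l : ℕ))

theorem eval_Lam {L : Type*} [Field L] (σ : K →+* L) (β : Fin h → (Fin (n + 1) →₀ ℕ)) (t : K)
    (x : Fin (n + 1) → L) : eval₂ σ x (Lam β t) = lam β (σ t) x := by
  unfold Lam lam
  rw [eval₂_sum]
  refine Finset.sum_congr rfl fun l _ => ?_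
  rw [eval₂_monomial, map_pow, mul_comm, Finsupp.prod_fintype _ _ fun i => pow_zero _]

theorem Lam_homogeneous {β : Fin h → (Fin (n + 1) →₀ ℕ)}
    (hβd : ∀ α : Fin (n + 1) →₀ ℕ, α.degree = d ↔ ∃ l, β l = α) (t : K) :
    (Lam β t).IsHomogeneous d := by
  refine MvPolynomial.IsHomogeneous.sum _ _ _ fun l _ => ?_
  exact isHomogeneous_monomial _ ((hβd _).2 ⟨l, rfl⟩)

theorem Lam_span {β : Fin h → (Fin (n + 1) →₀ ℕ)}
    (hβd : ∀ α : Fin (n + 1) →₀ ℕ, α.degree = d ↔ ∃ l, β l = α) {t : Fin (N + 1) → K}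
    (ht : Function.Injective t) (hN : 16 ^ (h - 1) < N + 1)
    {G : MvPolynomial (Fin (n + 1)) K} (hG : G.IsHomogeneous d) :
    G ∈ Submodule.span K (range fun j => Lam β (t j)) := by
  classical
  let A : (Fin h → K) →ₗ[K] (Fin (N + 1) → K) :=
    { toFun := fun v j => ∑ l, v l * t j ^ 16 ^ (l : ℕ)
      map_add' := by
        intro v w
        funext j
        simp [add_mul, Finset.sum_add_distrib]
      map_smul' := by
        intro c v
        funext j
        simp [Finset.mul_sum, mul_assoc] }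
  have hA : LinearMap.ker A = ⊥ := by
    rw [LinearMap.ker_eq_bot']
    intro v hv
    exact lac_coeff_zero (N := N) v t ht hN fun j => congrFun hv j
  obtain ⟨B, hB⟩ := A.exists_leftInverse_of_injective hA
  have hmon : ∀ l, monomial (β l) (1 : K) ∈ Submodule.span K (range fun j => Lam β (t j)) := by
    intro l'
    have h1 : ∀ l : Fin h, ∑ j, B (Pi.single j 1) l' * t j ^ 16 ^ (l : ℕ) =
        if l = l' then 1 else 0 := by
      intro l
      have h2 : A (Pi.single l 1) = ∑ j, (t j ^ 16 ^ (l : ℕ)) • (Pi.single j (1 : K)) := by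
        funext j
        rw [Finset.sum_apply, Finset.sum_eq_single j]
        · show ∑ l₁, (Pi.single l (1 : K) : Fin h → K) l₁ * t j ^ 16 ^ (l₁ : ℕ) = _
          rw [Finset.sum_eq_single l]
          · simp
          · intro b _ hb
            simp [hb]
          · intro h3
            exact absurd (Finset.mem_univ _) h3
        · intro b _ hb
          simp [Ne.symm hb]
        · intro h3
          exact absurd (Finset.mem_univ _) h3
      have h3 : B (A (Pi.single l 1)) = Pi.single l 1 := by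
        rw [← LinearMap.comp_apply, hB]; rfl
      rw [h2, map_sum] at h3
      have h4 := congrFun h3 l'
      rw [Finset.sum_apply] at h4
      simp only [map_smul, Pi.smul_apply, smul_eq_mul, Pi.single_apply] at h4
      rw [← Finset.sum_congr rfl fun j _ => mul_comm _ _]
      simp only [eq_comm] at h4 ⊢
      convert h4 using 1
    have h2 : monomial (β l') (1 : K) = ∑ j, B (Pi.single j 1) l' • Lam β (t j) := by
      unfold Lam
      simp only [Finset.smul_sum, smul_monomial, smul_eq_mul]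
      rw [Finset.sum_comm]
      have h3 : ∀ l, ∑ j, monomial (β l) (B (Pi.single j 1) l' * t j ^ 16 ^ (l : ℕ)) =
          if l = l' then monomial (β l') (1 : K) else 0 := by
        intro l
        rw [← map_sum, h1]
        by_cases h4 : l = l'
        · subst h4; simp
        · simp [h4]
      rw [Finset.sum_congr rfl fun l _ => h3 l]
      simp
    rw [h2]
    exact Submodule.sum_mem _ fun j _ => Submodule.smul_mem _ _
      (Submodule.subset_span ⟨j, rfl⟩)
  rw [G.as_sum]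
  refine Submodule.sum_mem _ fun m hm => ?_
  have h1 : m.degree = d := by
    by_contra h2
    exact (mem_support_iff.1 hm) (hG.coeff_eq_zero h2)
  obtain ⟨l, hl⟩ := (hβd m).1 h1
  have h2 : monomial m (coeff m G) = coeff m G • monomial (β l) (1 : K) := by
    rw [smul_monomial, smul_eq_mul, mul_one, hl]
  rw [h2]
  exact Submodule.smul_mem _ _ (hmon l)

end Lam

/-- If all squares are constant multiples of one function, all functions are constant. -/
theorem const_of_sq {N : ℕ} {y : Fin (N + 1) → Mer} {j₀ : Fin (N + 1)} (hy : y j₀ = 1) {g : Mer}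
    {b : Fin (N + 1) → ℂ} (h : ∀ j, y j ^ 2 = g * algebraMap ℂ Mer (b j)) (j : Fin (N + 1)) :
    ∃ c : ℂ, y j = algebraMap ℂ Mer c := by
  have h0 := h j₀
  rw [hy, one_pow] at h0
  have hb : b j₀ ≠ 0 := by
    intro h1
    rw [h1, map_zero, mul_zero] at h0
    exact one_ne_zero h0
  obtain ⟨c, hc⟩ := IsAlgClosed.exists_pow_nat_eq (b j / b j₀) (n := 2) (by norm_num)
  have h1 : y j ^ 2 = algebraMap ℂ Mer c ^ 2 := by
    rw [← map_pow, hc, map_div₀, h j]
    have h2 : algebraMap ℂ Mer (b j₀) ≠ 0 := by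
      rw [Ne, map_eq_zero]
      exact hb
    rw [eq_div_iff h2]
    linear_combination (-algebraMap ℂ Mer (b j)) * h0
  rcases sq_eq_sq_iff_eq_or_eq_neg.1 h1 with h2 | h2
  · exact ⟨c, h2⟩
  · exact ⟨-c, by rw [h2, map_neg]⟩

theorem lac_rank_one {R : Type*} [CommRing R] {n h : ℕ} (β : Fin h → (Fin (n + 1) →₀ ℕ))
    (c : (Fin (n + 1) →₀ ℕ) → R) (u : R) (x : Fin (n + 1) → R)
    (hc : ∀ k l, c (β k + β l) = u * ∏ i, x i ^ (β k + β l) i) (t : R) :
    (lac (Matrix.of fun k l => c (β k + β l))).eval t = u * lam β t x ^ 2 := by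
  unfold lac lam
  rw [Polynomial.eval_finsetSum, pow_two, Finset.sum_mul_sum, Finset.mul_sum]
  refine Finset.sum_congr rfl fun k _ => ?_
  rw [Polynomial.eval_finsetSum, Finset.mul_sum]
  refine Finset.sum_congr rfl fun l _ => ?_
  rw [Polynomial.eval_mul, Polynomial.eval_C, Polynomial.eval_pow, Polynomial.eval_X,
    Matrix.of_apply, hc]
  have h1 : ∏ i, x i ^ (β k + β l) i = (∏ i, x i ^ β k i) * ∏ i, x i ^ β l i := by
    rw [← Finset.prod_mul_distrib]
    exact Finset.prod_congr rfl fun i _ => by rw [Finsupp.add_apply, pow_add]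
  rw [h1, pow_add]
  ring

section Form

variable {K : Type} [Field K] {n d h N r : ℕ}
  {S : Set (MvPolynomial (Fin (n + 1)) K)} {β : Fin h → (Fin (n + 1) →₀ ℕ)}
  {t : Fin (N + 1) → K} {a : Matrix (Fin r) (Fin (N + 1)) K}

/-- The points with values in the field of meromorphic functions. -/
theorem mer_form (hd : 0 < d) (hS : ∀ F ∈ S, ∃ e, F.IsHomogeneous e ∧ e ≤ 2 * d)
    (hβd : ∀ α : Fin (n + 1) →₀ ℕ, α.degree = d ↔ ∃ l, β l = α)
    (hN : 6 * (2 * 16 ^ (h - 1)) ≤ N + 1) (ht : Function.Injective t) (σ : K →+* ℂ)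
    (hinv : ∀ y : Fin (N + 1) → Mer,
      (∀ i, ∑ j, ((algebraMap ℂ Mer).comp σ) (a i j) * y j ^ 2 = 0) →
        ∃ c : (Fin (n + 1) →₀ ℕ) → Mer, Ann ((algebraMap ℂ Mer).comp σ) d S c ∧
          ∀ j, y j ^ 2 = (lac (Matrix.of fun k l => c (β k + β l))).eval
            (((algebraMap ℂ Mer).comp σ) (t j)))
    (y : Fin (N + 1) → Mer) {j₀ : Fin (N + 1)} (hy : y j₀ = 1)
    (hrel : ∀ i, ∑ j, ((algebraMap ℂ Mer).comp σ) (a i j) * y j ^ 2 = 0)
    (hne : ∃ l, ∀ c : ℂ, y l ≠ algebraMap ℂ Mer c) :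
    ∃ (x : Fin (n + 1) → Mer) (i : Fin (n + 1)) (ε : Fin (N + 1) → ℂ) (v : Mer),
      x i = 1 ∧ v ≠ 0 ∧ (∀ j, ε j = 1 ∨ ε j = -1) ∧
      (∀ F ∈ S, eval₂ ((algebraMap ℂ Mer).comp σ) x F = 0) ∧
      ∀ j, y j = v * algebraMap ℂ Mer (ε j) * lam β (((algebraMap ℂ Mer).comp σ) (t j)) x := by
  classical
  obtain ⟨c, hcS, hc⟩ := hinv y hrel
  set G : Matrix (Fin h) (Fin h) Mer := Matrix.of fun k l => c (β k + β l) with hG
  have hsymm : G.IsSymm := by
    ext k l
    rw [Matrix.transpose_apply, hG, Matrix.of_apply, Matrix.of_apply, add_comm]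
  have hG0 : G ≠ 0 := by
    intro h0
    have h1 := hc j₀
    rw [hy, one_pow, h0] at h1
    unfold lac at h1
    simp at h1
  have hB0 : lac G ≠ 0 := lac_ne_zero G hsymm hG0
  have hσt : Function.Injective fun j => σ (t j) := σ.injective.comp ht
  have heven : EvenMoving (lac G) :=
    core hB0 (lac_natDegree G) hN (fun j => σ (t j)) hσt y fun j => (hc j).symm
  rcases lacunary G hsymm hG0 heven with ⟨k₀, l₀, hkl, hconst⟩ | hrk
  · -- projectively constant
    exfalso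
    choose κ hκ using fun k l => Mer.exists_algebraMap (hconst k l)
    obtain ⟨l, hl⟩ := hne
    obtain ⟨e, he⟩ := const_of_sq (g := G k₀ l₀)
      (b := fun j => (lac (Matrix.of fun k l => κ k l)).eval (σ (t j))) hy (fun j => by
        rw [hc j]
        unfold lac
        rw [Polynomial.eval_finsetSum, Polynomial.eval_finsetSum, map_sum, Finset.mul_sum]
        refine Finset.sum_congr rfl fun k _ => ?_
        rw [Polynomial.eval_finsetSum, Polynomial.eval_finsetSum, map_sum, Finset.mul_sum]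
        refine Finset.sum_congr rfl fun l _ => ?_
        simp only [Polynomial.eval_mul, Polynomial.eval_C, Polynomial.eval_pow,
          Polynomial.eval_X, Matrix.of_apply, map_mul, map_pow, RingHom.comp_apply]
        rw [← hκ k l]
        field_simp) l
    exact hl e he
  · -- rank one
    have hcne : ∃ α : Fin (n + 1) →₀ ℕ, α.degree = 2 * d ∧ c α ≠ 0 := by
      by_contra hcon
      push Not at hcon
      apply hG0
      ext k l
      rw [hG, Matrix.of_apply, Matrix.zero_apply]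
      apply hcon
      rw [map_add, (hβd _).2 ⟨k, rfl⟩, (hβd _).2 ⟨l, rfl⟩]
      ring
    obtain ⟨u, x, i, hu, hxi, hux⟩ := veronese hd c hcne (by
      intro b₁ b₂ b₃ b₄ h1 h2 h3 h4
      obtain ⟨k₁, rfl⟩ := (hβd _).1 h1
      obtain ⟨k₂, rfl⟩ := (hβd _).1 h2
      obtain ⟨k₃, rfl⟩ := (hβd _).1 h3
      obtain ⟨k₄, rfl⟩ := (hβd _).1 h4
      exact hrk k₁ k₂ k₃ k₄)
    have hxS := ann_zero ((algebraMap ℂ Mer).comp σ) hS hcS hu hxi hux
    have hsq : ∀ j, y j ^ 2 = u * lam β (((algebraMap ℂ Mer).comp σ) (t j)) x ^ 2 := by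
      intro j
      rw [hc j]
      refine lac_rank_one β c u x (fun k l => hux _ ?_) _
      rw [map_add, (hβd _).2 ⟨k, rfl⟩, (hβd _).2 ⟨l, rfl⟩]
      ring
    set Λ : Fin (N + 1) → Mer := fun j => lam β (((algebraMap ℂ Mer).comp σ) (t j)) x with hΛ
    have h0 := hsq j₀
    rw [hy, one_pow] at h0
    have hΛ0 : Λ j₀ ≠ 0 := by
      intro h1
      have h2 : lam β (((algebraMap ℂ Mer).comp σ) (t j₀)) x = 0 := h1
      rw [h2, zero_pow two_ne_zero, mul_zero] at h0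
      exact one_ne_zero h0
    have hsq2 : ∀ j, y j ^ 2 = (Λ j / Λ j₀) ^ 2 := by
      intro j
      rw [div_pow, eq_div_iff (pow_ne_zero 2 hΛ0), hsq j]
      linear_combination (-(Λ j ^ 2)) * h0
    have hε : ∀ j, ∃ e : ℂ, (e = 1 ∨ e = -1) ∧ y j = (Λ j₀)⁻¹ * algebraMap ℂ Mer e * Λ j := by
      intro j
      rcases sq_eq_sq_iff_eq_or_eq_neg.1 (hsq2 j) with h2 | h2
      · exact ⟨1, Or.inl rfl, by rw [h2, map_one]; ring⟩
      · exact ⟨-1, Or.inr rfl, by rw [h2, map_neg, map_one]; ring⟩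
    choose ε hε1 hε2 using hε
    exact ⟨x, i, ε, (Λ j₀)⁻¹, hxi, inv_ne_zero hΛ0, hε1, hxS, hε2⟩

/-- The entire curves. -/
theorem curve_form (hd : 0 < d) (hβ : Function.Injective β)
    (hS : ∀ F ∈ S, ∃ e, F.IsHomogeneous e ∧ e ≤ 2 * d)
    (hβd : ∀ α : Fin (n + 1) →₀ ℕ, α.degree = d ↔ ∃ l, β l = α)
    (hN : 6 * (2 * 16 ^ (h - 1)) ≤ N + 1) (ht : Function.Injective t) (σ : K →+* ℂ)
    (hinv : ∀ y : Fin (N + 1) → Mer,
      (∀ i, ∑ j, ((algebraMap ℂ Mer).comp σ) (a i j) * y j ^ 2 = 0) →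
        ∃ c : (Fin (n + 1) →₀ ℕ) → Mer, Ann ((algebraMap ℂ Mer).comp σ) d S c ∧
          ∀ j, y j ^ 2 = (lac (Matrix.of fun k l => c (β k + β l))).eval
            (((algebraMap ℂ Mer).comp σ) (t j)))
    (f : ℂ → PSpace ℂ N) (hf : HolomorphicOn f univ)
    (hfX : ∀ z, f z ∈ complexPoints (diagonal a) σ) (hne : ∃ z w, f z ≠ f w) :
    ∃ (ε : Fin (N + 1) → ℂ) (g : ℂ → PSpace ℂ n), (∀ j, ε j = 1 ∨ ε j = -1) ∧
      HolomorphicOn g univ ∧ (∀ z, g z ∈ complexPoints S σ) ∧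
      ∀ z, ∃ c : ℂ, c ≠ 0 ∧ ∀ j, (f z).rep j = c * (ε j * eval₂ σ (g z).rep (Lam β (t j))) := by
  classical
  obtain ⟨φ, hφ, j₀, hφ1, hφX, hφf, hφn⟩ :=
    exists_mer_of_curve (isHomogeneous_diagonal a) σ f hf hfX
  have hrel := (eval_diagonal a ((algebraMap ℂ Mer).comp σ) _).1 hφX
  obtain ⟨x, i, ε, v, hxi, hv, hε, hxS, hyx⟩ := mer_form hd hS hβd hN ht σ hinv
    (fun j => Mer.mk (φ j) (hφ j)) hφ1 hrel (hφn hne)
  choose ξ hξ hxξ using fun j => Mer.exists_mk (x j)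
  obtain rfl : x = fun j => Mer.mk (ξ j) (hξ j) := funext hxξ
  obtain ⟨v', hv'm, rfl⟩ := Mer.exists_mk v
  have hS' : ∀ F ∈ S, ∃ e, F.IsHomogeneous e := fun F hF =>
    let ⟨e, he, _⟩ := hS F hF
    ⟨e, he⟩
  obtain ⟨g, hg, hgS, hgξ⟩ := exists_curve_of_mer hS' σ ξ hξ hxi hxS
  -- the relation at generic points
  have hgen : ∀ z₀, ∀ᶠ z in 𝓝[≠] z₀, ∀ j, φ j z = v' z * ε j *
      eval₂ σ (fun l => ξ l z) (Lam β (t j)) := by
    intro z₀
    refine eventually_all.2 fun j => ?_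
    have h1 := hyx j
    rw [RingHom.comp_apply] at h1
    have h2 : lam β ((algebraMap ℂ Mer) (σ (t j))) (fun j => Mer.mk (ξ j) (hξ j)) =
        eval₂ ((algebraMap ℂ Mer).comp σ) (fun j => Mer.mk (ξ j) (hξ j)) (Lam β (t j)) :=
      (eval_Lam ((algebraMap ℂ Mer).comp σ) β (t j) _).symm
    rw [h2] at h1
    obtain ⟨h3, h4⟩ := mer_eval₂ σ ξ hξ (Lam β (t j))
    rw [h4, Mer.algebraMap_eq, Mer.mk_mul, Mer.mk_mul, Mer.mk_eq_mk] at h1
    exact h1 z₀
  have hv0 : ∀ z₀, ∀ᶠ z in 𝓝[≠] z₀, v' z ≠ 0 := by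
    refine mero_ne hv'm (z₁ := 0) ?_
    by_contra hcon
    apply hv
    rw [not_frequently] at hcon
    have h1 : ∀ᶠ z in 𝓝[≠] (0 : ℂ), v' z = 0 := hcon.mono fun z hz => not_not.1 hz
    rw [← map_zero (algebraMap ℂ Mer), Mer.algebraMap_eq, Mer.mk_eq_mk]
    exact mero_zero hv'm h1
  have hs : ∀ x : Fin (n + 1) → ℂ, x ≠ 0 → (fun j => lam β (σ (t j)) x) ≠ 0 := fun x hx =>
    lam_ne_zero hd hβ hβd ht (by have := Nat.one_le_pow (h - 1) 16 (by norm_num); omega) σ hx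
  have hs' : ∀ x : Fin (n + 1) → ℂ, x ≠ 0 → (fun j => ε j * lam β (σ (t j)) x) ≠ 0 := by
    intro x hx h0
    apply hs x hx
    funext j
    have h1 : ε j * lam β (σ (t j)) x = 0 := congrFun h0 j
    have h2 : ε j ≠ 0 := by
      rcases hε j with h | h
      · rw [h]; exact one_ne_zero
      · rw [h]; exact neg_ne_zero.2 one_ne_zero
    exact (mul_eq_zero.1 h1).resolve_left h2
  -- the image curve
  let E : PSpace ℂ n → PSpace ℂ N := fun p =>
    Projectivization.mk ℂ (fun j => ε j * lam β (σ (t j)) p.rep) (hs' _ p.rep_nonzero)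
  have hEmk : ∀ (w : Fin (n + 1) → ℂ) (hw : w ≠ 0), E (Projectivization.mk ℂ w hw) =
      Projectivization.mk ℂ (fun j => ε j * lam β (σ (t j)) w) (hs' w hw) := by
    intro w hw
    obtain ⟨b, hb⟩ := Projectivization.exists_smul_eq_mk_rep ℂ w hw
    show Projectivization.mk ℂ _ _ = _
    rw [Projectivization.mk_eq_mk_iff']
    refine ⟨(b : ℂ) ^ d, ?_⟩
    funext j
    rw [← hb]
    have h1 : (b • w : Fin (n + 1) → ℂ) = (b : ℂ) • w := rfl
    rw [h1, lam_smul hβd, Pi.smul_apply, smul_eq_mul]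
    ring
  have hE : HolomorphicOn (fun z => E (g z)) univ := by
    intro z₀ hz₀
    obtain ⟨G, hG, hG2⟩ := hg z₀ hz₀
    refine ⟨fun z j => ε j * lam β (σ (t j)) (G z), ?_, ?_⟩
    · refine analyticAt_pi_iff.2 fun j => ?_
      refine analyticAt_const.mul ?_
      unfold lam
      refine Finset.analyticAt_fun_sum _ fun l _ => ?_
      refine AnalyticAt.mul ?_ analyticAt_const
      refine Finset.analyticAt_fun_prod _ fun i _ => ?_
      exact ((analyticAt_pi_iff.1 hG) i).pow _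
    · filter_upwards [hG2] with z hz
      obtain ⟨h1, h2⟩ := hz
      exact ⟨hs' _ h1, by rw [h2]; exact hEmk _ h1⟩
  have hfE : f = fun z => E (g z) := by
    refine curve_ext hf hE fun z₀ => ?_
    filter_upwards [hgen z₀, hv0 z₀, hφf z₀, hgξ z₀] with z h1 h2 h3 h4
    obtain ⟨c₁, hc₁, h3⟩ := h3
    obtain ⟨c₂, hc₂, h4⟩ := h4
    rw [← (f z).mk_rep]
    show _ = Projectivization.mk ℂ _ _
    rw [Projectivization.mk_eq_mk_iff']
    refine ⟨c₁ * v' z / c₂ ^ d, ?_⟩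
    funext j
    have h5 : (g z).rep = c₂ • fun l => ξ l z := funext h4
    rw [h3 j, h1 j, Pi.smul_apply, smul_eq_mul, h5, lam_smul hβd, eval_Lam]
    field_simp
  refine ⟨ε, g, hε, hg, hgS, fun z => ?_⟩
  have h1 : f z = Projectivization.mk ℂ (fun j => ε j * lam β (σ (t j)) (g z).rep)
      (hs' _ (g z).rep_nonzero) := congrFun hfE z
  obtain ⟨b, hb⟩ := Projectivization.exists_smul_eq_mk_rep ℂ
    (fun j => ε j * lam β (σ (t j)) (g z).rep) (hs' _ (g z).rep_nonzero)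
  refine ⟨b, b.ne_zero, fun j => ?_⟩
  rw [h1, ← hb, eval_Lam]
  rfl

end Form

/-- Hilbert's basis theorem. -/
theorem exists_finite_subset {K : Type} [Field K] {n : ℕ} (S : Set (MvPolynomial (Fin (n + 1)) K)) :
    ∃ S₀ ⊆ S, S₀.Finite ∧ ∀ (L : Type) [Field L] (σ : K →+* L) (x : Fin (n + 1) → L),
      (∀ F ∈ S₀, eval₂ σ x F = 0) → ∀ F ∈ S, eval₂ σ x F = 0 := by
  obtain ⟨s, hs, hspan⟩ := (Submodule.fg_span_iff_fg_span_finset_subset S).1
    (IsNoetherian.noetherian (Ideal.span S))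
  refine ⟨↑s, hs, s.finite_toSet, fun L _ σ x hx F hF => ?_⟩
  have h1 : Submodule.span (MvPolynomial (Fin (n + 1)) K) (s : Set (MvPolynomial (Fin (n + 1)) K)) ≤
      RingHom.ker (eval₂Hom σ x) := by
    rw [Submodule.span_le]
    intro G hG
    exact hx G hG
  have h2 : F ∈ Submodule.span (MvPolynomial (Fin (n + 1)) K) S := Submodule.subset_span hF
  rw [hspan] at h2
  exact h1 h2

/-- **Main theorem.** -/
theorem exists_diagonal (δ : ℕ → ℕ) {K : Type} [Field K] [CharZero K] {n : ℕ}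
    (S : Set (MvPolynomial (Fin (n + 1)) K)) (hS : ∀ F ∈ S, ∃ e, F.IsHomogeneous e) :
    ∃ (N r d : ℕ) (a : Matrix (Fin r) (Fin (N + 1)) K)
      (Λ : Fin (N + 1) → MvPolynomial (Fin (n + 1)) K),
      N + 1 < 2 * r ∧ δ (N - r) ≤ r ∧ SmoothDiagonal a ∧ IsEmbedding d Λ ∧
      (∀ (L : Type) [Field L] [Algebra K L] (x : Fin (n + 1) → L), (∀ F ∈ S, aeval x F = 0) →
        ∀ G ∈ diagonal a, aeval (fun j => aeval x (Λ j)) G = 0) ∧
      (∀ (L : Type) [Field L] [Algebra K L], (points (diagonal a) L).Finite →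
        (points S L).Finite) ∧
      ∀ σ : K →+* ℂ,
        (KobayashiHyperbolic (complexPoints (diagonal a) σ) ↔
          KobayashiHyperbolic (complexPoints S σ)) ∧
        ∀ f : ℂ → PSpace ℂ N, HolomorphicOn f univ →
          (∀ z, f z ∈ complexPoints (diagonal a) σ) → (∃ z w, f z ≠ f w) →
          ∃ (ε : Fin (N + 1) → ℂ) (g : ℂ → PSpace ℂ n), (∀ j, ε j = 1 ∨ ε j = -1) ∧
            HolomorphicOn g univ ∧ (∀ z, g z ∈ complexPoints S σ) ∧
            ∀ z, ∃ c : ℂ, c ≠ 0 ∧ ∀ j, (f z).rep j = c * (ε j * eval₂ σ (g z).rep (Λ j)) := by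
  classical
  obtain ⟨S₀, hS₀, hfin, hS₀S⟩ := exists_finite_subset S
  -- the degree
  obtain ⟨d, hd, hdeg⟩ : ∃ d, 0 < d ∧ ∀ F ∈ S₀, ∃ e, F.IsHomogeneous e ∧ e ≤ 2 * d := by
    choose! e he using hS
    obtain ⟨D, hD⟩ := (hfin.image e).bddAbove
    refine ⟨D + 1, by omega, fun F hF => ⟨e F, he F (hS₀ hF), ?_⟩⟩
    have : e F ≤ D := hD ⟨F, hF, rfl⟩
    omega
  -- the exponents of degree `d`
  set T : Finset (Fin (n + 1) →₀ ℕ) := Finset.univ.finsuppAntidiag d with hT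
  set h : ℕ := T.card with hh
  set β : Fin h → (Fin (n + 1) →₀ ℕ) := fun l => (T.equivFin.symm l : _) with hβdef
  have hβ : Function.Injective β := fun a b hab => T.equivFin.symm.injective (Subtype.ext hab)
  have hβd : ∀ α : Fin (n + 1) →₀ ℕ, α.degree = d ↔ ∃ l, β l = α := by
    intro α
    have h1 : α ∈ T ↔ α.degree = d := by
      rw [hT, Finset.mem_finsuppAntidiag, Finsupp.degree_eq_sum]
      constructor
      · exact fun h => h.1
      · exact fun h => ⟨h, Finset.subset_univ _⟩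
    rw [← h1]
    constructor
    · intro h2
      exact ⟨T.equivFin ⟨α, h2⟩, by simp [hβdef]⟩
    · rintro ⟨l, rfl⟩
      exact (T.equivFin.symm l).2
  obtain ⟨N, r, t, a, hN, hNr, hδ, ht, hsm, hemb, hinv⟩ :=
    exists_system δ hd S₀ hfin hdeg β hβ hβd
  have hN' : 16 ^ (h - 1) < N + 1 := by
    have := Nat.one_le_pow (h - 1) 16 (by norm_num)
    omega
  have hembS : ∀ (L : Type) [Field L] (σ : K →+* L) (x : Fin (n + 1) → L),
      (∀ F ∈ S, eval₂ σ x F = 0) → ∀ i, ∑ j, σ (a i j) * lam β (σ (t j)) x ^ 2 = 0 :=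
    fun L _ σ x hx => hemb L σ x fun F hF => hx F (hS₀ hF)
  have hcurve : ∀ (σ : K →+* ℂ) (f : ℂ → PSpace ℂ N), HolomorphicOn f univ →
      (∀ z, f z ∈ complexPoints (diagonal a) σ) → (∃ z w, f z ≠ f w) →
      ∃ (ε : Fin (N + 1) → ℂ) (g : ℂ → PSpace ℂ n), (∀ j, ε j = 1 ∨ ε j = -1) ∧
        HolomorphicOn g univ ∧ (∀ z, g z ∈ complexPoints S σ) ∧
        ∀ z, ∃ c : ℂ, c ≠ 0 ∧ ∀ j, (f z).rep j =
          c * (ε j * eval₂ σ (g z).rep (Lam β (t j))) := by
    intro σ f hf hfX hne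
    obtain ⟨ε, g, h1, h2, h3, h4⟩ := curve_form hd hβ hdeg hβd hN ht σ
      (hinv Mer ((algebraMap ℂ Mer).comp σ)) f hf hfX hne
    exact ⟨ε, g, h1, h2, fun z => hS₀S ℂ σ _ (h3 z), h4⟩
  refine ⟨N, r, d, a, fun j => Lam β (t j), hNr, hδ, hsm,
    ⟨hd, fun j => Lam_homogeneous hβd (t j), fun G hG => Lam_span hβd ht hN' hG⟩, ?_, ?_, ?_⟩
  · intro L _ _ x hx G hG
    have h1 : ∀ F ∈ S, eval₂ (algebraMap K L) x F = 0 := fun F hF => by
      rw [← aeval_def]; exact hx F hF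
    rw [aeval_def]
    refine (eval_diagonal a (algebraMap K L) _).2 (fun i => ?_) G hG
    have h2 := hembS L (algebraMap K L) x h1 i
    simp only [aeval_def, eval_Lam]
    exact h2
  · intro L _ _ hX
    exact finite_of_diagonal hd hβ hβd ht hN' hS L (hembS L (algebraMap K L)) hX
  · intro σ
    refine ⟨⟨hyperbolic_of_diagonal hd hβ hβd ht hN' hS σ (hembS ℂ σ), fun hhyp => ?_⟩,
      hcurve σ⟩
    by_contra hcon
    obtain ⟨f, hf, hfX, hne⟩ := exists_entire_curve (isHomogeneous_diagonal a) σ hcon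
    obtain ⟨ε, g, hε, hg, hgS, hfg⟩ := hcurve σ f hf hfX hne
    obtain ⟨z, w, hzw⟩ := hne
    refine not_kobayashi g hg hgS z w (fun hgzw => hzw ?_) hhyp
    obtain ⟨c₁, hc₁, h1⟩ := hfg z
    obtain ⟨c₂, hc₂, h2⟩ := hfg w
    rw [← (f z).mk_rep, ← (f w).mk_rep, Projectivization.mk_eq_mk_iff']
    refine ⟨c₁ / c₂, ?_⟩
    funext j
    rw [Pi.smul_apply, smul_eq_mul, h1 j, h2 j, hgzw]
    field_simp

end Pool.Agent.Work.MP_f82ddf_nt.DQ
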