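import Pool.Agent.Work.MP_f82ddf_nt.DQ.Defs

/-!
# Block Nodes: nodes at which all minors of the values of independent polynomials are nonzero
-/

namespace Pool.Agent.Work.MP_f82ddf_nt.DQ

section Nodes

open Polynomial

/-- The values of the polynomials `b k` at the point `t`. -/
private noncomputable def ev {K : Type*} [Field K] {m : ℕ} (b : Fin m → K[X]) (t : K) :
    Fin m → K := fun k => (b k).eval t

private lemma exists_poly {K : Type*} [Field K] {m : ℕ} {b : Fin m → K[X]}
    (hb : LinearIndependent K b) (s : Finset K) (hs : s.card < m) :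
    ∃ p : K[X], p ≠ 0 ∧ ∀ x : K, ev b x ∈ Submodule.span K (ev b '' (s : Set K)) →
      p.eval x = 0 := by
  classical
  have hlt : Submodule.span K (ev b '' (s : Set K)) < ⊤ := by
    apply lt_top_iff_ne_top.mpr
    intro h
    have h1 : Module.finrank K (Submodule.span K (ev b '' (s : Set K))) ≤ s.card := by
      have h2 := finrank_span_finset_le_card (R := K) (s.image (ev b))
      rw [Finset.coe_image] at h2
      exact h2.trans Finset.card_image_le
    rw [h, finrank_top, Module.finrank_fin_fun] at h1
    omega
  obtain ⟨φ, hφ, hle⟩ := Submodule.exists_le_ker_of_lt_top _ hlt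
  refine ⟨∑ k, (φ (Pi.single k 1)) • b k, ?_, ?_⟩
  · intro h0
    apply hφ
    have h1 := Fintype.linearIndependent_iff.mp hb _ h0
    apply LinearMap.pi_ext'
    intro k
    ext
    simpa using h1 k
  · intro x hx
    have h1 : φ (ev b x) = 0 := LinearMap.mem_ker.mp (hle hx)
    rw [Polynomial.eval_finsetSum]
    have h2 : ev b x = ∑ k, (b k).eval x • (Pi.single k (1 : K) : Fin m → K) := by
      funext k
      simp [ev, Finset.sum_apply, Pi.single_apply]
    rw [h2, map_sum] at h1
    rw [← h1]
    refine Finset.sum_congr rfl fun k _ => ?_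
    rw [map_smul, Polynomial.eval_smul, smul_eq_mul, smul_eq_mul, mul_comm]

private lemma exists_finset {K : Type*} [Field K] [Infinite K] {m : ℕ} (b : Fin m → K[X])
    (hb : LinearIndependent K b) (q : ℕ) :
    ∃ T : Finset K, T.card = q ∧ ∀ s : Finset K, s ⊆ T → s.card ≤ m →
      LinearIndepOn K (ev b) (s : Set K) := by
  classical
  induction q with
  | zero =>
    refine ⟨∅, rfl, ?_⟩
    intro s hs _
    rw [Finset.subset_empty.mp hs, Finset.coe_empty]
    exact linearIndepOn_empty K (ev b)
  | succ q ih =>
    obtain ⟨T, hT, hind⟩ := ih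
    choose p hp0 hp using fun s : {s : Finset K // s.card < m} => exists_poly hb s.1 s.2
    let bad : Finset K := T ∪ T.powerset.biUnion
      (fun s => if h : s.card < m then (p ⟨s, h⟩).roots.toFinset else ∅)
    obtain ⟨x, hx⟩ := Infinite.exists_notMem_finset bad
    have hxT : x ∉ T := fun h => hx (Finset.mem_union_left _ h)
    have hxr : ∀ s : Finset K, s ⊆ T → ∀ h : s.card < m,
        ev b x ∉ Submodule.span K (ev b '' (s : Set K)) := by
      intro s hs h hmem
      apply hx
      apply Finset.mem_union_right
      rw [Finset.mem_biUnion]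
      refine ⟨s, Finset.mem_powerset.mpr hs, ?_⟩
      rw [dif_pos h, Multiset.mem_toFinset, Polynomial.mem_roots (hp0 ⟨s, h⟩)]
      exact hp ⟨s, h⟩ x hmem
    refine ⟨insert x T, by rw [Finset.card_insert_of_notMem hxT, hT], ?_⟩
    intro s hs hcard
    by_cases hxs : x ∈ s
    · have h1 : insert x (s.erase x) = s := Finset.insert_erase hxs
      have h2 : s.erase x ⊆ T := by
        intro y hy
        rw [Finset.mem_erase] at hy
        rcases Finset.mem_insert.mp (hs hy.2) with h | h
        · exact absurd h hy.1
        · exact h
      have h3 : (s.erase x).card < m := by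
        have := Finset.card_erase_lt_of_mem hxs
        omega
      rw [← h1, Finset.coe_insert, linearIndepOn_insert]
      · exact ⟨hind _ h2 h3.le, hxr _ h2 h3⟩
      · simp
    · apply hind s _ hcard
      intro y hy
      rcases Finset.mem_insert.mp (hs hy) with h | h
      · exact absurd (h ▸ hy) hxs
      · exact h

theorem exists_nodes {K : Type*} [Field K] [Infinite K] {m : ℕ} (b : Fin m → Polynomial K)
    (hb : LinearIndependent K b) (q : ℕ) :
    ∃ t : Fin q → K, Function.Injective t ∧ ∀ J : Fin m → Fin q, Function.Injective J →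
      (Matrix.of fun k l => (b k).eval (t (J l))).det ≠ 0 := by
  classical
  obtain ⟨T, hT, hind⟩ := exists_finset b hb q
  let t : Fin q → K := fun j => ((T.equivFinOfCardEq hT).symm j : K)
  have ht : Function.Injective t := by
    intro i j hij
    exact (T.equivFinOfCardEq hT).symm.injective (Subtype.ext hij)
  refine ⟨t, ht, ?_⟩
  intro J hJ
  have hinj : Function.Injective (fun l => t (J l)) := ht.comp hJ
  have h1 : LinearIndepOn K (ev b) ((Finset.univ.image (fun l => t (J l)) : Finset K) : Set K) := by
    apply hind
    · intro y hy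
      obtain ⟨l, _, rfl⟩ := Finset.mem_image.mp hy
      exact ((T.equivFinOfCardEq hT).symm (J l)).2
    · exact Finset.card_image_le.trans (by simp)
  have h2 : LinearIndependent K (fun l => ev b (t (J l))) := by
    have h3 : LinearIndependent K (fun x : ((Finset.univ.image (fun l => t (J l)) : Finset K) :
      Set K) => ev b x) := h1
    have h4 := h3.comp (fun l : Fin m => (⟨t (J l), by simp⟩ :
      ((Finset.univ.image (fun l => t (J l)) : Finset K) : Set K)))
      (by
        intro i j hij
        have h6 := congrArg Subtype.val hij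
        exact hinj h6)
    exact h4
  have h5 : LinearIndependent K (Matrix.of fun k l => (b k).eval (t (J l))).col := h2
  rw [Matrix.linearIndependent_cols_iff_isUnit, Matrix.isUnit_iff_isUnit_det] at h5
  exact h5.ne_zero

end Nodes

end Pool.Agent.Work.MP_f82ddf_nt.DQ
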